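import Pool.Agent.H81SSE.W.Stm

set_option autoImplicit false

namespace Pool.Agent.H81SSE

open Matrix

namespace ADMp

/-- the product, explicitly -/
theorem prod_eq (a b c d n m x y : ℤ) : U3 n m * W3 a b c d n m x y =
    !![(a + x) + n * (c + y), (b - n * (a + x) - m * x) + n * (d - n * (c + y) - m * y), x + n * y;
       c + y, d - n * (c + y) - m * y, y;
       -(a + x) + m * (c + y), -(b - n * (a + x) - m * x) + m * (d - n * (c + y) - m * y),
        -x + m * y] := by
  ext i j
  fin_cases i <;> fin_cases j <;>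
    simp [U3, W3, Matrix.mul_apply, Fin.sum_univ_two]

theorem nonneg_of {k u : ℤ} (hk : 1 ≤ k) (h : 0 ≤ k * u) : 0 ≤ u := by
  by_contra hu
  push Not at hu
  have : k * u < 0 := mul_neg_of_pos_of_neg (by linarith) hu
  linarith

end ADMp

theorem ADM_holds : ADM := by
  intro a b c d n m x y hnm h
  obtain ⟨h1, h2, h3, h4, h5, h6⟩ := h
  have e1 : 0 ≤ c + y := ADMp.nonneg_of hnm (by nlinarith)
  have e2 : 0 ≤ d - n * (c + y) - m * y := ADMp.nonneg_of hnm (by nlinarith)
  have e3 : 0 ≤ y := ADMp.nonneg_of hnm (by nlinarith)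
  rw [ADMp.prod_eq]
  intro i j
  fin_cases i <;> fin_cases j <;> simp <;> nlinarith

end Pool.Agent.H81SSE
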