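import Pool.Agent.H81SSE.W.Stm

set_option autoImplicit false

namespace Pool.Agent.H81SSE

open Matrix

lemma blk_nn (a b c d n : ℤ) (hc : 0 < c) (hdet : a * d < b * c) (h1 : 0 ≤ a + n * c)
    (h2 : 0 ≤ d - n * c) : NN (Bk a b c d n) := by
  have h3 : (a + n * c) * (d - n * c) < (b - n * a + n * (d - n * c)) * c := by
    have e : (a + n * c) * (d - n * c) - (b - n * a + n * (d - n * c)) * c = a * d - b * c := by ring
    linarith
  have h4 : 0 ≤ (a + n * c) * (d - n * c) := mul_nonneg h1 h2
  have h5 : 0 < b - n * a + n * (d - n * c) := by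
    by_contra h
    have := mul_nonpos_of_nonpos_of_nonneg (not_lt.1 h) hc.le
    linarith
  intro i j
  fin_cases i <;> fin_cases j <;> simp [Bk] <;> linarith

lemma blk_step (a b c d k : ℤ) (hc : 0 < c) (hdet : a * d < b * c) (h1 : 0 ≤ a + k * c)
    (h2 : 0 ≤ d - (k + 1) * c) : QQ (Bk a b c d (k + 1)) (Bk a b c d k) := by
  set E : M2Z := !![1, 1; 0, 1] with hE
  set R : M2Z := !![a + k * c, b - (k + 1) * a + (k + 1) * (d - (k + 1) * c) - (d - (k + 1) * c);
    c, d - (k + 1) * c] with hR
  have e1 : E * R = Bk a b c d (k + 1) := by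
    ext i j
    fin_cases i <;> fin_cases j <;> simp [hE, hR, Bk, Matrix.mul_apply, Fin.sum_univ_two] <;> ring
  have e2 : R * E = Bk a b c d k := by
    ext i j
    fin_cases i <;> fin_cases j <;> simp [hE, hR, Bk, Matrix.mul_apply, Fin.sum_univ_two] <;> ring
  have h3 : (a + (k + 1) * c) * (d - (k + 1) * c) <
      (b - (k + 1) * a + (k + 1) * (d - (k + 1) * c)) * c := by
    have e : (a + (k + 1) * c) * (d - (k + 1) * c) -
      (b - (k + 1) * a + (k + 1) * (d - (k + 1) * c)) * c = a * d - b * c := by ring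
    linarith
  have h4 : c * (d - (k + 1) * c) ≤ (a + (k + 1) * c) * (d - (k + 1) * c) :=
    mul_le_mul_of_nonneg_right (by linarith) h2
  have h5 : d - (k + 1) * c < b - (k + 1) * a + (k + 1) * (d - (k + 1) * c) := by
    by_contra h
    have := mul_le_mul_of_nonneg_right (not_lt.1 h) hc.le
    linarith
  have hEn : NN E := by
    intro i j
    fin_cases i <;> fin_cases j <;> simp [hE]
  have hRn : NN R := by
    intro i j
    fin_cases i <;> fin_cases j <;> simp [hR] <;> linarith
  rw [← e1, ← e2]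
  exact QQ.elem E R hEn hRn

lemma blk_up (a b c d n : ℤ) (hc : 0 < c) (hdet : a * d < b * c) (h1 : 0 ≤ a + n * c) (m : ℕ)
    (h2 : 0 ≤ d - (n + m) * c) : QQ (Bk a b c d (n + m)) (Bk a b c d n) := by
  induction m with
  | zero =>
    simp only [Nat.cast_zero, add_zero] at h2 ⊢
    exact QQ.refl _ (blk_nn a b c d n hc hdet h1 h2)
  | succ m ih =>
    push_cast at h2 ⊢
    have hm : (0 : ℤ) ≤ m * c := mul_nonneg (Int.natCast_nonneg m) hc.le
    have e : n + (m + 1 : ℤ) = (n + m) + 1 := by ring
    rw [e] at h2 ⊢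
    refine (blk_step a b c d (n + m) hc hdet (by linarith) h2).trans (ih (by linarith))

theorem BLK_holds : BLK := by
  intro a b c d n n' hc hτ hdet h1 h2 h3 h4
  have h1' : 0 ≤ a + n * c := by linarith
  have h2' : 0 ≤ d - n * c := by linarith
  have h3' : 0 ≤ a + n' * c := by linarith
  have h4' : 0 ≤ d - n' * c := by linarith
  rcases le_total n n' with h | h
  · obtain ⟨m, hm⟩ := Int.eq_ofNat_of_zero_le (sub_nonneg.2 h)
    have e : n' = n + m := by omega
    subst e
    exact (blk_up a b c d n hc hdet h1' m h4').symm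
  · obtain ⟨m, hm⟩ := Int.eq_ofNat_of_zero_le (sub_nonneg.2 h)
    have e : n = n' + m := by omega
    subst e
    exact blk_up a b c d n' hc hdet h3' m h2'

end Pool.Agent.H81SSE
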