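import Pool.Agent.H81SSE.W.Stm2

set_option autoImplicit false

namespace Pool.Agent.H81SSE

open Matrix

namespace BOTaux

theorem ent (a b c d n m X Y : ℤ) : U3 n m * W3 a b c d n m X Y =
    !![(a + n * c) + (X + n * Y), (b - n * a + n * (d - n * c)) - (n + m) * (X + n * Y), X + n * Y;
       c + Y, d - n * (c + Y) - m * Y, Y;
       (-a + m * c) + (-X + m * Y), (-(b - n * a) + m * (d - n * c)) - (n + m) * (-X + m * Y),
         -X + m * Y] := by
  ext i j
  fin_cases i <;> fin_cases j <;> simp [W3, U3, Matrix.mul_apply, Fin.sum_univ_two] <;> ring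

end BOTaux

theorem BOT_holds (h1 : G12) (h2 : IDS) : BOT := by
  intro q a b c d n X Y K C' Δ ν hD hL hA hW hK hC' hbig hKc
  obtain ⟨g1, g2, g3, g4, g5⟩ := h1 q _ Δ ν c n hL
  obtain ⟨l1, l2, l3, l4, l5, l6, l7, l8, l9⟩ := hL
  obtain ⟨w1, w2, w3, w4⟩ := hW
  generalize hm : mm Δ ν c n = m at *
  obtain ⟨i1, i2, i3, i4, i5⟩ := h2 a b c d n m Δ ν hD
  rw [BOTaux.ent]
  set s : ℤ := X + n * Y with hs
  set t : ℤ := -X + m * Y with ht
  set B : ℤ := b - n * a + n * (d - n * c) with hB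
  set B' : ℤ := -(b - n * a) + m * (d - n * c) with hB'
  set P : ℤ := a + n * c with hP
  set P' : ℤ := -a + m * c with hP'
  have hy : yv Δ ν c n = Δ / 2 - c * (n + ν) := rfl
  set y : ℝ := yv Δ ν c n with hyy
  set τ : ℝ := (a : ℝ) + d with hτ
  have hPr : (P : ℝ) = τ / 2 - y := by rw [i1, hy]; ring
  have hτbig : 1000 * (((K : ℝ) + 1) * (C' + 1)) ≤ τ := by
    rw [hτ]
    exact_mod_cast hbig
  have hKr : (0 : ℝ) ≤ K := by exact_mod_cast hK
  have hq3 : (100 : ℝ) ≤ 100 * q ^ 3 := by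
    have : (1 : ℝ) ≤ q ^ 3 := one_le_pow₀ (by linarith)
    linarith
  have hn : (100 : ℝ) ≤ n := le_trans hq3 l8
  have hm1 : (1 : ℝ) ≤ m := by exact_mod_cast g2
  have hN : (1 : ℝ) ≤ (n : ℝ) + m := by linarith
  have hN0 : (0 : ℝ) < (n : ℝ) + m := by linarith
  have hCr : (n : ℝ) + m ≤ C' := by exact_mod_cast hC'
  have hC0 : (0 : ℝ) ≤ C' := by linarith
  have hKC : (0 : ℝ) ≤ K * C' := mul_nonneg hKr hC0
  have hexp : ((K : ℝ) + 1) * (C' + 1) = K * C' + K + C' + 1 := by ring
  rw [hexp] at hτbig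
  have hBr : (B : ℝ) - (n + m) * s ≥ (n + m) * (τ * (11 / 150)) := by
    rw [i3]
    have h := mul_le_mul_of_nonneg_left w1 hN0.le
    have e : ((n : ℝ) + m) * (y - τ / 100) - (n + m) * (y - τ / 12) = (n + m) * (τ * (11 / 150)) := by
      ring
    linarith
  have hB'r : (B' : ℝ) - (n + m) * t ≥ (n + m) * (τ / 4) := by
    rw [i4]
    have h := mul_le_mul_of_nonneg_left w3 hN0.le
    have e : ((n : ℝ) + m) * (τ / 2) - (n + m) * (τ / 4) = (n + m) * (τ / 4) := by
      ring
    linarith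
  have hBt : (B : ℝ) - (n + m) * s ≥ τ / 20 := by
    have : 1 * (τ * (11 / 150)) ≤ (n + m) * (τ * (11 / 150)) :=
      mul_le_mul_of_nonneg_right hN (by positivity)
    linarith
  have hB't : (B' : ℝ) - (n + m) * t ≥ τ / 20 := by
    have : 1 * (τ / 4) ≤ (n + m) * (τ / 4) := mul_le_mul_of_nonneg_right hN (by positivity)
    linarith
  have hP'0 : (0 : ℝ) ≤ P' := by
    rw [i5]
    have : 0 ≤ (c : ℝ) * (m - ν) := mul_nonneg l5.le (by linarith)
    linarith
  have hsum : ((n : ℝ) + m) * Y = s + t := by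
    rw [hs, ht]; push_cast; ring
  have hNY : ((n : ℝ) + m) * K ≤ (n + m) * Y := by
    rw [hsum]
    have h3 : ((n : ℝ) + m) * K ≤ C' * K := mul_le_mul_of_nonneg_right hCr hKr
    have h4 : (C' : ℝ) * K = K * C' := mul_comm _ _
    have h5 : (0 : ℝ) ≤ t := by exact_mod_cast hA.2.1
    linarith
  have hYK : (K : ℝ) ≤ Y := le_of_mul_le_mul_left hNY hN0
  have he : ((n : ℝ) + m) * (d - n * (c + Y) - m * Y : ℤ) = (B - (n + m) * s) + (B' - (n + m) * t) := by
    rw [hB, hB', hs, ht]; push_cast; ring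
  have heK : (K : ℝ) ≤ (d - n * (c + Y) - m * Y : ℤ) := by
    refine le_of_mul_le_mul_left ?_ hN0
    rw [he]
    have : ((n : ℝ) + m) * K ≤ (n + m) * (τ / 4) := mul_le_mul_of_nonneg_left (by linarith) hN0.le
    have h5 : 0 ≤ ((n : ℝ) + m) * (τ * (11 / 150)) := by positivity
    linarith
  have hBt' : a + d ≤ 20 * (B - (n + m) * s) := by
    have : (a : ℝ) + d ≤ 20 * (B - (n + m) * s) := by linarith
    exact_mod_cast this
  have hB't' : a + d ≤ 20 * (B' - (n + m) * t) := by
    have : (a : ℝ) + d ≤ 20 * (B' - (n + m) * t) := by linarith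
    exact_mod_cast this
  have e00 : K ≤ P + s := by
    have : (K : ℝ) ≤ P + s := by rw [hPr]; linarith
    exact_mod_cast this
  have e01 : K ≤ B - (n + m) * s := by
    have : (K : ℝ) ≤ B - (n + m) * s := by linarith
    exact_mod_cast this
  have e02 : K ≤ s := by
    have : (K : ℝ) ≤ s := by linarith
    exact_mod_cast this
  have e12 : K ≤ Y := by exact_mod_cast hYK
  have e10 : K ≤ c + Y := by linarith
  have e11 : K ≤ d - n * (c + Y) - m * Y := by exact_mod_cast heK
  have e22 : K ≤ t := by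
    have : (K : ℝ) ≤ t := by linarith
    exact_mod_cast this
  have e20 : K ≤ P' + t := by
    have : (K : ℝ) ≤ P' + t := by
      have : (K : ℝ) ≤ t := by exact_mod_cast e22
      linarith
    exact_mod_cast this
  have e21 : K ≤ B' - (n + m) * t := by
    have : (K : ℝ) ≤ B' - (n + m) * t := by linarith
    exact_mod_cast this
  refine ⟨?_, ?_, ?_⟩
  · intro i j
    fin_cases i <;> fin_cases j
    · exact e00
    · exact e01
    · exact e02
    · exact e10
    · exact e11
    · exact e12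
    · exact e20
    · exact e21
    · exact e22
  · exact hBt'
  · exact hB't'

end Pool.Agent.H81SSE
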