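import Pool.Agent.H81SSE.W.Stm3
import Pool.Agent.TH441.SSE2.Sign

/-!
# Project W, stub CHN: chains of elementary conjugations
-/

set_option autoImplicit false
set_option linter.unusedSectionVars false

namespace Pool.Agent.H81SSE

open Matrix

lemma chn_rows_cases {p q r s : ℤ} (hp : 0 ≤ p) (hq : 0 ≤ q) (hr : 0 ≤ r) (hs : 0 ≤ s)
    (hdet : p * s - q * r = 1 ∨ p * s - q * r = -1) :
    (r ≤ p ∧ s ≤ q) ∨ (p ≤ r ∧ q ≤ s) ∨ (p = 1 ∧ q = 0 ∧ r = 0 ∧ s = 1) ∨
      (p = 0 ∧ q = 1 ∧ r = 1 ∧ s = 0) := by
  by_cases h1 : r ≤ p
  · by_cases h2 : s ≤ q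
    · left; exact ⟨h1, h2⟩
    · push Not at h2
      by_cases h3 : p ≤ r
      · right; left; exact ⟨h3, h2.le⟩
      · push Not at h3
        right; right; left
        have h4 : (r + 1) * (q + 1) ≤ p * s := mul_le_mul (by omega) (by omega) (by omega) hp
        have h5 : r + q + 1 ≤ p * s - q * r := by nlinarith
        have h6 : r = 0 ∧ q = 0 := by rcases hdet with h | h <;> constructor <;> omega
        obtain ⟨rfl, rfl⟩ := h6
        have h7 : p * s = 1 := by rcases hdet with h | h <;> nlinarith
        rcases Int.mul_eq_one_iff_eq_one_or_neg_one.mp h7 with ⟨h8, h9⟩ | ⟨h8, h9⟩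
        · exact ⟨h8, rfl, rfl, h9⟩
        · omega
  · push Not at h1
    by_cases h2 : q ≤ s
    · right; left; exact ⟨h1.le, h2⟩
    · push Not at h2
      right; right; right
      have h4 : (p + 1) * (s + 1) ≤ r * q := mul_le_mul (by omega) (by omega) (by omega) hr
      have h5 : p * s - q * r ≤ -(p + s + 1) := by nlinarith
      have h6 : p = 0 ∧ s = 0 := by rcases hdet with h | h <;> constructor <;> omega
      obtain ⟨rfl, rfl⟩ := h6
      have h7 : q * r = 1 := by rcases hdet with h | h <;> nlinarith
      rcases Int.mul_eq_one_iff_eq_one_or_neg_one.mp h7 with ⟨h8, h9⟩ | ⟨h8, h9⟩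
      · exact ⟨rfl, h8, h9, rfl⟩
      · omega

lemma chn_nonneg {K : ℤ} :
    ∀ (N : ℕ) (p q r s : ℤ), 0 ≤ p → 0 ≤ q → 0 ≤ r → 0 ≤ s → p + q + r + s ≤ N →
      (p * s - q * r = 1 ∨ p * s - q * r = -1) →
      ∀ a b c d α β γ δ : ℤ, Cw K a b c d → Cw K α β γ δ →
      a * p + b * r = p * α + q * γ → a * q + b * s = p * β + q * δ →
      c * p + d * r = r * α + s * γ → c * q + d * s = r * β + s * δ →
      Relation.ReflTransGen (EStep K) !![a, b; c, d] !![α, β; γ, δ] := by
  intro N
  induction N with
  | zero =>
    intro p q r s hp hq hr hs hN hdet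
    have : p = 0 ∧ q = 0 := by constructor <;> push_cast at hN <;> omega
    obtain ⟨rfl, rfl⟩ := this
    rcases hdet with h | h <;> simp at h
  | succ N ih =>
    intro p q r s hp hq hr hs hN hdet a b c d α β γ δ hA hB e1 e2 e3 e4
    have fA1 : c * p ^ 2 + (d - a) * p * r - b * r ^ 2 = (p * s - q * r) * γ := by
      linear_combination p * e3 - r * e1
    have fA2 : c * q ^ 2 + (d - a) * q * s - b * s ^ 2 = -(p * s - q * r) * β := by
      linear_combination q * e4 - s * e2
    obtain ⟨a3, a4, a5⟩ := id hA
    obtain ⟨b3, b4, b5⟩ := id hB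
    push_cast at hN
    rcases chn_rows_cases hp hq hr hs hdet with ⟨h1, h2⟩ | ⟨h1, h2⟩ | ⟨rfl, rfl, rfl, rfl⟩ |
      ⟨rfl, rfl, rfl, rfl⟩
    · -- the first row is larger
      have hrs : 1 ≤ r + s := by
        by_contra hcon
        have : r = 0 ∧ s = 0 := by constructor <;> omega
        obtain ⟨rfl, rfl⟩ := this
        rcases hdet with h | h <;> simp at h
      have hb' : 0 < a + b - c - d := by
        by_contra hcon
        push Not at hcon
        have g1 : ∀ x y : ℤ, 0 ≤ y → y ≤ x → 0 ≤ c * x ^ 2 + (d - a) * x * y - b * y ^ 2 := by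
          intro x y hy hxy
          have hx : 0 ≤ x := hy.trans hxy
          have g2 : c * x ^ 2 + (d - a) * x * y - b * y ^ 2 =
              (x - y) * (c * x + b * y) + (c + d - a - b) * (x * y) := by ring
          rw [g2]
          have g3 : 0 ≤ (x - y) * (c * x + b * y) :=
            mul_nonneg (by linarith) (add_nonneg (mul_nonneg a4.le hx) (mul_nonneg a3.le hy))
          have g4 : 0 ≤ (c + d - a - b) * (x * y) := mul_nonneg (by linarith) (mul_nonneg hx hy)
          linarith
        have g5 := g1 p r hr h1
        have g6 := g1 q s hs h2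
        rw [fA1] at g5
        rw [fA2] at g6
        rcases hdet with h | h <;> rw [h] at g5 g6 <;> linarith
      have hA' : Cw K (a - c) (a + b - c - d) c (c + d) := by
        refine ⟨hb', a4, ?_⟩
        intro x y hxy
        have := a5 (x + y) y (by
          rintro ⟨h1, h2⟩
          exact hxy ⟨by omega, h2⟩)
        rw [show c * (x + y) ^ 2 + (d - a) * (x + y) * y - b * y ^ 2 =
          c * x ^ 2 + (c + d - (a - c)) * x * y - (a + b - c - d) * y ^ 2 by ring] at this
        exact this
      refine Relation.ReflTransGen.head ⟨a, b, c, d, _, _, _, _, rfl, rfl, hA, hA',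
        Or.inl ⟨rfl, rfl, rfl, rfl⟩⟩ ?_
      refine ih (p - r) (q - s) r s (by linarith) (by linarith) hr hs (by linarith) ?_ _ _ _ _
          _ _ _ _ hA' hB ?_ ?_ ?_ ?_
      · rcases hdet with h | h
        · left; linarith [h, show (p - r) * s - (q - s) * r = p * s - q * r by ring]
        · right; linarith [h, show (p - r) * s - (q - s) * r = p * s - q * r by ring]
      · linear_combination e1 - e3
      · linear_combination e2 - e4
      · linear_combination e3
      · linear_combination e4
    · -- the second row is larger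
      have hpq : 1 ≤ p + q := by
        by_contra hcon
        have : p = 0 ∧ q = 0 := by constructor <;> omega
        obtain ⟨rfl, rfl⟩ := this
        rcases hdet with h | h <;> simp at h
      have hc' : 0 < c + d - a - b := by
        by_contra hcon
        push Not at hcon
        have g1 : ∀ x y : ℤ, 0 ≤ x → x ≤ y → c * x ^ 2 + (d - a) * x * y - b * y ^ 2 ≤ 0 := by
          intro x y hx hxy
          have hy : 0 ≤ y := hx.trans hxy
          have g2 : c * x ^ 2 + (d - a) * x * y - b * y ^ 2 =
              -((y - x) * (b * y + c * x)) - (a + b - c - d) * (x * y) := by ring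
          rw [g2]
          have g3 : 0 ≤ (y - x) * (b * y + c * x) :=
            mul_nonneg (by linarith) (add_nonneg (mul_nonneg a3.le hy) (mul_nonneg a4.le hx))
          have g4 : 0 ≤ (a + b - c - d) * (x * y) := mul_nonneg (by linarith) (mul_nonneg hx hy)
          linarith
        have g5 := g1 p r hp h1
        have g6 := g1 q s hq h2
        rw [fA1] at g5
        rw [fA2] at g6
        rcases hdet with h | h <;> rw [h] at g5 g6 <;> linarith
      have hA' : Cw K (a + b) b (c + d - a - b) (d - b) := by
        refine ⟨a3, hc', ?_⟩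
        intro x y hxy
        have := a5 x (x + y) (by
          rintro ⟨h1, h2⟩
          exact hxy ⟨h1, by omega⟩)
        rw [show c * x ^ 2 + (d - a) * x * (x + y) - b * (x + y) ^ 2 =
          (c + d - a - b) * x ^ 2 + (d - b - (a + b)) * x * y - b * y ^ 2 by ring] at this
        exact this
      refine Relation.ReflTransGen.head ⟨a, b, c, d, _, _, _, _, rfl, rfl, hA, hA',
        Or.inr (Or.inl ⟨rfl, rfl, rfl, rfl⟩)⟩ ?_
      refine ih p q (r - p) (s - q) hp hq (by linarith) (by linarith) (by linarith) ?_ _ _ _ _
          _ _ _ _ hA' hB ?_ ?_ ?_ ?_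
      · rcases hdet with h | h
        · left; linarith [h, show p * (s - q) - q * (r - p) = p * s - q * r by ring]
        · right; linarith [h, show p * (s - q) - q * (r - p) = p * s - q * r by ring]
      · linear_combination e1
      · linear_combination e2
      · linear_combination e3 - e1
      · linear_combination e4 - e2
    · -- the identity
      have h1 : α = a := by linarith
      have h2 : β = b := by linarith
      have h3 : γ = c := by linarith
      have h4 : δ = d := by linarith
      subst h1 h2 h3 h4
      exact Relation.ReflTransGen.refl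
    · -- the swap
      exact Relation.ReflTransGen.single ⟨a, b, c, d, α, β, γ, δ, rfl, rfl, hA, hB,
        Or.inr (Or.inr ⟨by linarith, by linarith, by linarith, by linarith⟩)⟩

theorem CHN_holds : CHN := by
  intro K a b c d α β γ δ p q r s hA hβ0 hγ0 hdet e1 e2 e3 e4
  obtain ⟨hb0, hc0, hf⟩ := id hA
  have hB : Cw K α β γ δ := by
    refine ⟨hβ0, hγ0, ?_⟩
    intro x y hxy
    have key : c * (p * x + q * y) ^ 2 + (d - a) * (p * x + q * y) * (r * x + s * y) -
        b * (r * x + s * y) ^ 2 =
        (p * s - q * r) * (γ * x ^ 2 + (δ - α) * x * y - β * y ^ 2) := by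
      linear_combination (p * x + q * y) * x * e3 + (p * x + q * y) * y * e4 -
        (r * x + s * y) * x * e1 - (r * x + s * y) * y * e2
    have h1 := hf (p * x + q * y) (r * x + s * y) (by
      rintro ⟨h1, h2⟩
      apply hxy
      have h3 : (p * s - q * r) * x = 0 := by linear_combination s * h1 - q * h2
      have h4 : (p * s - q * r) * y = 0 := by linear_combination p * h2 - r * h1
      rcases hdet with h | h <;> rw [h] at h3 h4 <;> constructor <;> linarith)
    rw [key, abs_mul] at h1
    have h5 : |p * s - q * r| = 1 := by rcases hdet with h | h <;> rw [h] <;> simp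
    rw [h5, one_mul] at h1
    exact h1
  refine ⟨hB, ?_⟩
  -- the inverse intertwiner
  have f1 : α * s + β * (-r) = s * a + (-q) * c := by
    have h : (α * s + β * (-r)) * (p * s - q * r) = (s * a + (-q) * c) * (p * s - q * r) := by
      linear_combination (-(s ^ 2)) * e1 + q * s * e3 + r * s * e2 - q * r * e4
    rcases hdet with h' | h' <;> rw [h'] at h <;> linarith
  have f2 : α * (-q) + β * p = s * b + (-q) * d := by
    have h : (α * (-q) + β * p) * (p * s - q * r) = (s * b + (-q) * d) * (p * s - q * r) := by
      linear_combination (q * s) * e1 - q ^ 2 * e3 - p * s * e2 + p * q * e4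
    rcases hdet with h' | h' <;> rw [h'] at h <;> linarith
  have f3 : γ * s + δ * (-r) = (-r) * a + p * c := by
    have h : (γ * s + δ * (-r)) * (p * s - q * r) = ((-r) * a + p * c) * (p * s - q * r) := by
      linear_combination (r * s) * e1 - p * s * e3 - r ^ 2 * e2 + p * r * e4
    rcases hdet with h' | h' <;> rw [h'] at h <;> linarith
  have f4 : γ * (-q) + δ * p = (-r) * b + p * d := by
    have h : (γ * (-q) + δ * p) * (p * s - q * r) = ((-r) * b + p * d) * (p * s - q * r) := by
      linear_combination (-(q * r)) * e1 + p * q * e3 + p * r * e2 - p ^ 2 * e4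
    rcases hdet with h' | h' <;> rw [h'] at h <;> linarith
  rcases Pool.Agent.TH441.SSE2.sign_cases p q r s a b c d α β γ δ hb0 hc0 hβ0 hγ0 hdet
    (by linarith) (by linarith) (by linarith) (by linarith) with
    ⟨h1, h2, h3, h4⟩ | ⟨h1, h2, h3, h4⟩ | ⟨h1, h2, h3, h4⟩ | ⟨h1, h2, h3, h4⟩
  · exact Or.inl (chn_nonneg (p + q + r + s).toNat p q r s h1 h2 h3 h4
      (Int.self_le_toNat _) hdet a b c d α β γ δ hA hB e1 e2 e3 e4)
  · exact Or.inr (chn_nonneg (s + -q + -r + p).toNat s (-q) (-r) p
      h4 (by linarith) (by linarith) h1 (Int.self_le_toNat _) (by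
        have : s * p - -q * -r = p * s - q * r := by ring
        rw [this]; exact hdet) α β γ δ a b c d hB hA f1 f2 f3 f4)
  · exact Or.inr (chn_nonneg (-s + q + r + -p).toNat (-s) q r (-p)
      (by linarith) h2 h3 (by linarith) (Int.self_le_toNat _) (by
        have : -s * -p - q * r = p * s - q * r := by ring
        rw [this]; exact hdet) α β γ δ a b c d hB hA (by linear_combination -f1)
        (by linear_combination -f2) (by linear_combination -f3)
        (by linear_combination -f4))
  · exact Or.inl (chn_nonneg (-p + -q + -r + -s).toNat (-p) (-q) (-r)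
      (-s) (by linarith) (by linarith) (by linarith) (by linarith)
      (Int.self_le_toNat _) (by
        have : -p * -s - -q * -r = p * s - q * r := by ring
        rw [this]; exact hdet) a b c d α β γ δ hA hB (by linear_combination -e1)
        (by linear_combination -e2) (by linear_combination -e3) (by linear_combination -e4))

end Pool.Agent.H81SSE
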