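import Pool.Agent.H81SSE.W.Stm3

/-!
# Project W, stub CON3 (helper73)
-/

set_option autoImplicit false

namespace Pool.Agent.H81SSE

open Matrix

theorem CON3_holds : CON3 := by
  intro n m hnm
  refine connect (U3 n m) (!![1, -n, 0; 0, 1, 0] : Matrix (Fin 2) (Fin 3) ℤ) ?_
    (Matrix.of fun i _ => if i = 0 then m - n else 2 : Matrix (Fin 2) Unit ℤ) ?_
  · ext i j
    fin_cases i <;> fin_cases j <;> simp [U3, Matrix.mul_apply, Fin.sum_univ_three]
  · intro i
    fin_cases i <;> simp [U3, Matrix.mul_apply, Fin.sum_univ_two] <;> linarith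

end Pool.Agent.H81SSE
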