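import Pool.Agent.H81SSE.W.Stm

/-!
# Stub CRS: the crossing
-/

set_option autoImplicit false

namespace Pool.Agent.H81SSE

open Matrix

theorem CRS_holds (h1 : MOV) (h2 : TRN) (h3 : TOP) : CRS := by
  intro a b c d n₀ j m X Y hn₀ hj hL
  obtain ⟨hR, hA0, hS⟩ := hL
  have step : ∀ n : ℤ, n₀ ≤ n → n < j → ∀ x y : ℤ, Adm a b c d (n + 1) (m (n + 1)) x y →
      QQ (U3 (n + 1) (m (n + 1)) * W3 a b c d (n + 1) (m (n + 1)) x y)
        (U3 n (m n) * W3 a b c d n (m n) (X n) (Y n)) := by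
    intro n hn hnj x y hA
    obtain ⟨hm1, r1, r2, r3, r4⟩ := hR (n + 1) (by omega) (by omega)
    obtain ⟨-, hA2, hmm, hNN⟩ := hS n hn hnj
    have e1 := h1 a b c d (n + 1) (m (n + 1)) x y (X n) (Y n) (by omega) hA hA2 r1 r2 r3 r4
    have e2 := h2 a b c d (n + 1) (m (n + 1)) n (m n) (X n) (Y n) (by omega) hmm hNN
    exact e1.trans e2
  have key : ∀ k : ℕ, ∀ n : ℤ, n = j - 1 - k → n₀ ≤ n →
      QQ (Bk a b c d j) (U3 n (m n) * W3 a b c d n (m n) (X n) (Y n)) := by
    intro k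
    induction k with
    | zero =>
      intro n hn hn0
      have hnj : n + 1 = j := by rw [hn]; push_cast; ring
      subst hnj
      obtain ⟨hm1, -⟩ := hR (n + 1) (by omega) le_rfl
      have e0 := h3 a b c d (n + 1) (m (n + 1)) (by omega) hA0
      exact QQ.trans e0 (step n hn0 (by omega) 0 0 hA0)
    | succ k ih =>
      intro n hn hn0
      have e0 := ih (n + 1) (by rw [hn]; push_cast; ring) (by omega)
      have hnj : n + 1 < j := by rw [hn]; push_cast; omega
      exact e0.trans (step n hn0 (by omega) _ _ (hS (n + 1) (by omega) hnj).1)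
  exact key (j - 1 - n₀).toNat n₀ (by rw [Int.toNat_of_nonneg (by omega)]; ring) le_rfl

end Pool.Agent.H81SSE
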