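import Pool.Agent.H81SSE.W.Stm2

set_option autoImplicit false

namespace Pool.Agent.H81SSE

open Matrix

theorem DAT_holds : DAT := by
  intro k a b c d hk hb hc hs had hbc
  have hbR : (0 : ℝ) < b := by exact_mod_cast hb
  have hcR : (0 : ℝ) < c := by exact_mod_cast hc
  have hkR : (1 : ℝ) ≤ k := by exact_mod_cast hk
  have hsR : (0 : ℝ) < (a : ℝ) + d := by exact_mod_cast hs
  have hadR : (a : ℝ) * d < b * c := by exact_mod_cast had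
  have hbcR : (b : ℝ) * c - a * d ≤ k * ((a : ℝ) + d) ^ 2 := by exact_mod_cast hbc
  have hbcp : (0 : ℝ) < b * c := mul_pos hbR hcR
  set D : ℝ := ((a : ℝ) - d) ^ 2 + 4 * (b * c) with hD
  have hD0 : 0 ≤ D := by positivity
  obtain ⟨Δ, hΔ⟩ : ∃ Δ : ℝ, Δ = Real.sqrt D := ⟨_, rfl⟩
  have hΔ0 : 0 ≤ Δ := by rw [hΔ]; exact Real.sqrt_nonneg _
  have hΔ2 : Δ ^ 2 = D := by rw [hΔ]; exact Real.sq_sqrt hD0
  refine ⟨Δ, ((a : ℝ) - d + Δ) / (2 * c), ⟨?_, ?_⟩, ?_, ?_, ?_⟩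
  · field_simp
  · have h1 : ((a : ℝ) - d + Δ) / (2 * c) * (Δ - c * (((a : ℝ) - d + Δ) / (2 * c))) =
        (Δ ^ 2 - ((a : ℝ) - d) ^ 2) / (4 * c) := by
      field_simp
      ring
    rw [h1, hΔ2, hD]
    field_simp
    ring
  · refine div_pos ?_ (by positivity)
    have h2 : -((a : ℝ) - d) < Δ := by
      by_contra hcon
      push Not at hcon
      nlinarith
    linarith
  · have h3 : ((a : ℝ) + d) ^ 2 ≤ Δ ^ 2 := by
      rw [hΔ2, hD]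
      nlinarith
    exact (abs_le_of_sq_le_sq' h3 hΔ0).2
  · have h4 : Δ ^ 2 ≤ ((1 + 4 * (k : ℝ)) * ((a : ℝ) + d)) ^ 2 := by
      rw [hΔ2, hD]
      have h5 : ((a : ℝ) - d) ^ 2 + 4 * (b * c) = ((a : ℝ) + d) ^ 2 + 4 * (b * c - a * d) := by ring
      rw [h5]
      have h6 : ((a : ℝ) + d) ^ 2 + 4 * (b * c - a * d) ≤ (1 + 4 * (k : ℝ)) * ((a : ℝ) + d) ^ 2 := by
        nlinarith
      have h7 : (1 + 4 * (k : ℝ)) * ((a : ℝ) + d) ^ 2 ≤ ((1 + 4 * (k : ℝ)) * ((a : ℝ) + d)) ^ 2 := by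
        rw [mul_pow]
        have h8 : (1 + 4 * (k : ℝ)) ≤ (1 + 4 * (k : ℝ)) ^ 2 := by nlinarith
        exact mul_le_mul_of_nonneg_right h8 (sq_nonneg _)
      linarith
    have h9 : 0 ≤ (1 + 4 * (k : ℝ)) * ((a : ℝ) + d) := by positivity
    exact (abs_le_of_sq_le_sq' h4 h9).2

end Pool.Agent.H81SSE
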