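import Pool.Agent.H81SSE.W.Stm4

set_option autoImplicit false

namespace Pool.Agent.H81SSE

open Matrix

theorem END0_holds : END0 := by
  intro A₀ h00 hβ hγ hδ
  set β : ℝ := A₀ 0 1 with hβd
  set γ : ℝ := A₀ 1 0 with hγd
  set δ : ℝ := A₀ 1 1 with hδd
  obtain ⟨N', hN'⟩ := exists_nat_gt (2 * β / δ)
  obtain ⟨p', hp'⟩ := exists_nat_gt (10 * γ / δ)
  obtain ⟨N, hN1, hNδ⟩ : ∃ N : ℤ, 1 ≤ N ∧ 2 * β < N * δ := by
    refine ⟨(N' : ℤ) + 1, by omega, ?_⟩
    rw [div_lt_iff₀ hδ] at hN'
    push_cast
    nlinarith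
  obtain ⟨p, hp1, hpδ⟩ : ∃ p : ℤ, 1 ≤ p ∧ 10 * γ < p * δ := by
    refine ⟨(p' : ℤ) + 1, by omega, ?_⟩
    rw [div_lt_iff₀ hδ] at hp'
    push_cast
    nlinarith
  have hN1' : (1 : ℝ) ≤ N := by exact_mod_cast hN1
  have hp1' : (1 : ℝ) ≤ p := by exact_mod_cast hp1
  set D : M2Z := !![N + 1, -1; 1, p] with hD
  have hadj : D.adjugate = !![p, 1; -1, N + 1] := by
    rw [hD, Matrix.adjugate_fin_two_of]
    simp
  have hdet : D.det = (N + 1) * p + 1 := by
    rw [hD, Matrix.det_fin_two_of]
    ring
  have hD0 : 0 < D.det := by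
    rw [hdet]; positivity
  have hDR : cR D = !![(N : ℝ) + 1, -1; 1, (p : ℝ)] := by
    ext i j
    fin_cases i <;> fin_cases j <;> simp [cR, hD]
  refine ⟨D, ⟨?_, ?_⟩, ?_⟩
  · rw [hDR, Matrix.det_fin_two_of]
    nlinarith
  · have hA₀ : A₀ = !![0, β; γ, δ] := by
      ext i j
      fin_cases i <;> fin_cases j
      · simpa using h00
      · rfl
      · rfl
      · rfl
    have e : (cR D).adjugate * A₀ * cR D = !![p * β + (N + 1) * γ + δ, p * p * β + p * δ - γ;
        (N + 1) * ((N + 1) * γ + δ) - β, p * ((N + 1) * δ - β) - (N + 1) * γ] := by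
      rw [hDR, Matrix.adjugate_fin_two_of, hA₀]
      ext i j
      fin_cases i <;> fin_cases j <;> simp [Matrix.mul_apply, Fin.sum_univ_two] <;> ring
    have q1 : 0 < (p : ℝ) * β + (N + 1) * γ + δ := by positivity
    have q2 : 0 < (p : ℝ) * p * β + p * δ - γ := by
      have : 0 < (p : ℝ) * p * β := by positivity
      linarith
    have q3 : 0 < ((N : ℝ) + 1) * ((N + 1) * γ + δ) - β := by
      have : 0 < ((N : ℝ) + 1) * ((N + 1) * γ) := by positivity
      nlinarith
    have q4 : 0 < (p : ℝ) * ((N + 1) * δ - β) - (N + 1) * γ := by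
      have h1 : ((N : ℝ) + 1) * δ / 2 ≤ (N + 1) * δ - β := by nlinarith
      have h2 : (p : ℝ) * (((N : ℝ) + 1) * δ / 2) ≤ p * ((N + 1) * δ - β) :=
        mul_le_mul_of_nonneg_left h1 (by linarith)
      have h3 : ((N : ℝ) + 1) * (10 * γ) < (N + 1) * (p * δ) :=
        mul_lt_mul_of_pos_left hpδ (by linarith)
      have h4 : 0 < ((N : ℝ) + 1) * γ := by positivity
      nlinarith
    rw [e]
    intro i j
    fin_cases i <;> fin_cases j
    · simpa using q1
    · simpa using q2
    · simpa using q3
    · simpa using q4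
  · intro K
    obtain ⟨c, hc⟩ := ex D hD0 (max K 0)
    set m : ℤ := max c 0 with hm
    have hm0 : 0 ≤ m := le_max_right _ _
    have hcm : c ≤ m := le_max_left _ _
    have hm0' : (0 : ℝ) ≤ m := by exact_mod_cast hm0
    set ε : ℝ := min (min (β / (4 * N)) (γ / 4)) (δ / (8 * (N + 2))) with hε
    have hεpos : 0 < ε := by positivity
    have hε1 : ε * N ≤ β / 4 := by
      have : ε ≤ β / (4 * N) := (min_le_left _ _).trans (min_le_left _ _)
      calc ε * N ≤ β / (4 * N) * N := mul_le_mul_of_nonneg_right this (by linarith)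
        _ = β / 4 := by field_simp
    have hε2 : ε ≤ γ / 4 := (min_le_left _ _).trans (min_le_right _ _)
    have hε3 : ε * (N + 2) ≤ δ / 8 := by
      have : ε ≤ δ / (8 * (N + 2)) := min_le_right _ _
      calc ε * (N + 2) ≤ δ / (8 * (N + 2)) * (N + 2) :=
            mul_le_mul_of_nonneg_right this (by linarith)
        _ = δ / 8 := by field_simp
    set R : ℝ := N * (2 * m + 2) + m + 1 with hR
    have hRpos : 0 < R := by positivity
    refine ⟨ε, hεpos, R * (4 / β + 4 / γ + 8 / δ), ?_⟩
    rintro A ⟨τ, hT, hτ0, hA⟩ hNN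
    have t1 : 4 * R ≤ τ * β := by
      have : R * (4 / β) ≤ τ := by
        refine le_trans ?_ hT
        have : 0 ≤ R * (4 / γ + 8 / δ) := by positivity
        linarith
      calc 4 * R = R * (4 / β) * β := by field_simp
        _ ≤ τ * β := mul_le_mul_of_nonneg_right this hβ.le
    have t2 : 4 * R ≤ τ * γ := by
      have : R * (4 / γ) ≤ τ := by
        refine le_trans ?_ hT
        have : 0 ≤ R * (4 / β + 8 / δ) := by positivity
        linarith
      calc 4 * R = R * (4 / γ) * γ := by field_simp
        _ ≤ τ * γ := mul_le_mul_of_nonneg_right this hγ.le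
    have t3 : 8 * R ≤ τ * δ := by
      have : R * (8 / δ) ≤ τ := by
        refine le_trans ?_ hT
        have : 0 ≤ R * (4 / β + 4 / γ) := by positivity
        linarith
      calc 8 * R = R * (8 / δ) * δ := by field_simp
        _ ≤ τ * δ := mul_le_mul_of_nonneg_right this hδ.le
    set a : ℤ := A 0 0 with ha
    set b : ℤ := A 0 1 with hb
    set e : ℤ := A 1 0 with he
    set d : ℤ := A 1 1 with hd
    have ha0 : 0 ≤ a := hNN 0 0
    have ha0' : (0 : ℝ) ≤ a := by exact_mod_cast ha0
    set η : ℝ := ε * τ with hη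
    have hη0 : 0 ≤ η := by positivity
    have a1 : (a : ℝ) ≤ η := by
      have := (abs_le.mp (hA 0 0)).2
      rw [h00] at this
      linarith
    obtain ⟨b1, b2⟩ := abs_le.mp (hA 0 1)
    obtain ⟨e1, e2⟩ := abs_le.mp (hA 1 0)
    obtain ⟨d1, d2⟩ := abs_le.mp (hA 1 1)
    rw [← hβd, ← hb] at b1 b2
    rw [← hγd, ← he] at e1 e2
    rw [← hδd, ← hd] at d1 d2
    have g1 : η * N ≤ τ * β / 4 := by
      have := mul_le_mul_of_nonneg_right hε1 hτ0
      rw [hη]; linarith
    have g2 : η ≤ τ * γ / 4 := by
      have := mul_le_mul_of_nonneg_right hε2 hτ0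
      rw [hη]; linarith
    have g3 : η * (N + 2) ≤ τ * δ / 8 := by
      have := mul_le_mul_of_nonneg_right hε3 hτ0
      rw [hη]; linarith
    set q : ℤ := b / N with hq
    set r : ℤ := b % N with hr
    have hbqr : r + N * q = b := Int.emod_add_mul_ediv b N
    have hr0 : 0 ≤ r := Int.emod_nonneg _ (by omega)
    have hrN : r < N := Int.emod_lt_of_pos _ (by omega)
    have hbqr' : (r : ℝ) + N * q = b := by exact_mod_cast hbqr
    have hr0' : (0 : ℝ) ≤ r := by exact_mod_cast hr0
    have hrN' : (r : ℝ) < N := by exact_mod_cast hrN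
    have haN : (a : ℝ) * N ≤ η * N := mul_le_mul_of_nonneg_right a1 (by linarith)
    have hηN : η ≤ η * N := le_mul_of_one_le_right hη0 hN1'
    -- s2
    have hs2 : m ≤ q - a - m := by
      by_contra hcon
      push Not at hcon
      have h1 : q - a - 2 * m ≤ 0 := by omega
      have h1' : (q : ℝ) - a - 2 * m ≤ 0 := by exact_mod_cast h1
      have h2 : (N : ℝ) * (q - a - 2 * m) ≤ 0 :=
        mul_nonpos_of_nonneg_of_nonpos (by linarith) h1'
      rw [hR] at t1
      nlinarith
    -- u
    set u : ℤ := d - (q - a - m) - (r + N * (a + m)) with hu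
    have hqb : (q : ℝ) ≤ τ * δ / 2 + η := by
      have h1 : (N : ℝ) * q ≤ b := by linarith
      have h2 : (b : ℝ) ≤ τ * β + η := by linarith
      have h3 : τ * (2 * β) ≤ τ * (N * δ) := mul_le_mul_of_nonneg_left hNδ.le hτ0
      have h4 : (N : ℝ) * q ≤ N * (τ * δ / 2 + η) := by
        have e1 : (N : ℝ) * (τ * δ / 2 + η) = τ * (N * δ) / 2 + η * N := by ring
        rw [e1]
        linarith
      exact le_of_mul_le_mul_left h4 (by linarith)
    have hul : τ * δ / 4 ≤ u := by
      rw [hu]
      push_cast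
      have h1 : (N : ℝ) * (a + m) = a * N + N * m := by ring
      rw [hR] at t3
      nlinarith
    have hu0 : m ≤ u := by
      have : (m : ℝ) ≤ u := by
        rw [hR] at t3
        have : 0 ≤ (N : ℝ) * (2 * m + 2) := by positivity
        linarith
      exact_mod_cast this
    have hea : 0 ≤ e - a := by
      have : (0 : ℝ) ≤ e - a := by linarith
      exact_mod_cast this
    have hpu : m ≤ -(e - a) + p * u := by
      have h1 : τ * (10 * γ) ≤ τ * (p * δ) := mul_le_mul_of_nonneg_left hpδ.le hτ0
      have h2 : (p : ℝ) * (τ * δ / 4) ≤ p * u := mul_le_mul_of_nonneg_left hul (by linarith)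
      have h3 : (m : ℝ) ≤ -(e - a) + p * u := by
        rw [hR] at t2
        have : 0 ≤ (N : ℝ) * (2 * m + 2) := by positivity
        nlinarith
      exact_mod_cast h3
    set X : Matrix (Fin 2) (Fin 3) ℤ := !![0, N, 1; 1, 1, 1] with hX
    set α : Matrix (Fin 3) (Fin 2) ℤ :=
      !![e - a, u; 0, q - a - m; a, r + N * (a + m)] with hα
    have hXα : X * α = A := by
      ext i j
      fin_cases i <;> fin_cases j
      · simp [hX, hα, Matrix.mul_apply, Fin.sum_univ_three, ha]
      · simp only [hX, hα, Matrix.mul_apply, Fin.sum_univ_three]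
        simp
        rw [← hb, ← hbqr]
        ring
      · simp [hX, hα, Matrix.mul_apply, Fin.sum_univ_three, he]
      · simp only [hX, hα, Matrix.mul_apply, Fin.sum_univ_three]
        simp
        rw [← hd, hu]
        ring
    have hs3 : a + m ≤ r + N * (a + m) := by nlinarith
    have hαD : GE c (α * D) := by
      intro i j
      refine hcm.trans ?_
      fin_cases i <;> fin_cases j
      · simp only [hα, hD, Matrix.mul_apply, Fin.sum_univ_two]
        simp
        nlinarith
      · simp only [hα, hD, Matrix.mul_apply, Fin.sum_univ_two]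
        simp
        linarith
      · simp only [hα, hD, Matrix.mul_apply, Fin.sum_univ_two]
        simp
        linarith
      · simp only [hα, hD, Matrix.mul_apply, Fin.sum_univ_two]
        simp
        nlinarith
      · simp only [hα, hD, Matrix.mul_apply, Fin.sum_univ_two]
        simp
        nlinarith
      · simp only [hα, hD, Matrix.mul_apply, Fin.sum_univ_two]
        simp
        nlinarith
    have hNα : NN α := by
      intro i j
      fin_cases i <;> fin_cases j
      · simpa [hα] using hea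
      · simpa [hα] using hm0.trans hu0
      · simp [hα]
      · simp only [hα]
        simp
        linarith
      · simpa [hα] using ha0
      · simp only [hα]
        simp
        linarith
    have hNX : NN X := by
      intro i j
      fin_cases i <;> fin_cases j <;> simp [hX] <;> linarith
    have hUX : GE 1 (UU D * X) := by
      refine U_ge D hD0 X ?_
      rw [hadj]
      intro i j
      fin_cases i <;> fin_cases j
      · simp [hX, Matrix.mul_apply, Fin.sum_univ_two]
      · simp [hX, Matrix.mul_apply, Fin.sum_univ_two]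
        nlinarith
      · simp [hX, Matrix.mul_apply, Fin.sum_univ_two]
        linarith
      · simp [hX, Matrix.mul_apply, Fin.sum_univ_two]
        linarith
      · simp [hX, Matrix.mul_apply, Fin.sum_univ_two]
      · simp [hX, Matrix.mul_apply, Fin.sum_univ_two]
        linarith
    have hRP : RP (UU D * X) := ⟨hUX.nn (by norm_num), fun i => ⟨0, hUX i 0⟩⟩
    obtain ⟨α', ha', he'⟩ := hc α hαD
    have hNα' : NN α' := ha'.nn (le_max_right _ _)
    refine ⟨X * α', ?_, ?_, ?_⟩
    · rw [Matrix.mul_assoc, he', hXα]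
    · rw [← Matrix.mul_assoc]
      exact (hRP.mul_ge ha' (le_max_right _ _)).mono (le_max_left _ _)
    · have k1 : QQ (X * α) (α * X) := QQ.elem X α hNX hNα
      have k2 : QQ (α' * (UU D * X)) ((UU D * X) * α') := QQ.elem α' (UU D * X) hNα' hRP.1
      rw [hXα] at k1
      rw [← Matrix.mul_assoc, he'] at k2
      rw [← Matrix.mul_assoc]
      exact k1.trans k2

end Pool.Agent.H81SSE
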