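import Pool.Agent.H81SSE.W.Stm4

/-!
# Project W, stub ENDP: the ends of the chain (helper79)
-/

set_option autoImplicit false
set_option linter.unusedSectionVars false

namespace Pool.Agent.H81SSE

open Matrix

/-- Change of the cone and of the coordinates at the end. -/
lemma endp_change {A₀ : M2R} (hA : Pf A₀) (g gi D D' : M2Z) (hg : g * gi = 1)
    (hgN : ∀ A : M2Z, NN A → NN (gi * A * g) ∧ QQ A (gi * A * g))
    (hD : Val A₀ (cR D)) (hD' : Val (cR gi * A₀ * cR g) (cR D'))
    (hE : EndAt (cR gi * A₀ * cR g) D') : EndAt A₀ D := by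
  intro K
  have hdet : 0 < D'.det := by
    have := hD'.1
    rw [cR_det] at this
    exact_mod_cast this
  obtain ⟨K1, hK1⟩ := connectU D' hdet
  have e1 := relG_step hA g gi D D' hg hD hD' (max K K1)
  have e2 := Ev.conj A₀ g gi (hE (max K K1))
  refine (e1.and e2).mono ?_
  rintro A ⟨⟨W, W1, w1, w2, w3, w4, w5⟩, h⟩ hN
  obtain ⟨hN1, hQ⟩ := hgN A hN
  obtain ⟨W2, v1, v2, v3⟩ := h hN1
  refine ⟨W, w1, w3.mono (le_max_left _ _), ?_⟩
  exact hQ.trans (v3.trans ((hK1 W2 W1 (by rw [v1, w2]) (v2.mono (le_max_right _ _))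
    (w4.mono (le_max_right _ _))).trans w5.symm))

/-- Change of the cone. -/
lemma endp_cone {A₀ : M2R} (hA : Pf A₀) (D D' : M2Z) (hD : Val A₀ (cR D))
    (hD' : Val A₀ (cR D')) (hE : EndAt A₀ D') : EndAt A₀ D := by
  have e : cR (1 : M2Z) * A₀ * cR (1 : M2Z) = A₀ := by
    rw [cR_one, Matrix.one_mul, Matrix.mul_one]
  refine endp_change hA 1 1 D D' (mul_one _) ?_ hD (by rw [e]; exact hD') (by rw [e]; exact hE)
  intro A hN
  rw [Matrix.one_mul, Matrix.mul_one]
  refine ⟨hN, ?_⟩
  have := QQ.elem A (1 : M2Z) hN NN.one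
  rwa [Matrix.mul_one, Matrix.one_mul] at this

lemma endp_pos {A₀ : M2R} (h : ∀ i j, 0 < A₀ i j) : Val A₀ (cR (1 : M2Z)) ∧ EndAt A₀ 1 := by
  have hv : Val A₀ (cR (1 : M2Z)) := by
    rw [cR_one]
    refine ⟨by simp, ?_⟩
    intro i j
    rw [Matrix.adjugate_one, Matrix.one_mul, Matrix.mul_one]
    exact h i j
  refine ⟨hv, ?_⟩
  intro K
  obtain ⟨C, hC⟩ := endU (1 : M2Z) (by simp) K
  have b : Ev A₀ (fun A => GE C ((1 : M2Z).adjugate * A * 1)) := by
    refine Ev.big A₀ _ _ ?_ C
    rw [← cR_adj]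
    exact hv.2
  refine b.mono ?_
  intro A hA _
  obtain ⟨-, W, w1, w2, w3⟩ := hC A hA
  rw [Matrix.adjugate_one, Matrix.one_mul, Matrix.mul_one] at w3
  exact ⟨W, w1, w2, w3⟩

lemma endp_sw_sw : sw * sw = 1 := by
  unfold sw
  ext i j
  fin_cases i <;> fin_cases j <;> simp [Matrix.mul_apply, Fin.sum_univ_two]

lemma endp_sw_nn : NN sw := by
  intro i j
  unfold sw
  fin_cases i <;> fin_cases j <;> simp

lemma endp_sw_conj (A₀ : M2R) :
    cR sw * A₀ * cR sw = !![A₀ 1 1, A₀ 1 0; A₀ 0 1, A₀ 0 0] := by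
  ext i j
  fin_cases i <;> fin_cases j <;> simp [cR, sw, Matrix.mul_apply, Fin.sum_univ_two]

lemma endp_sw_conj' (A : M2Z) :
    sw * A * sw = !![A 1 1, A 1 0; A 0 1, A 0 0] := by
  have h : ∀ i j, (sw * A * sw) i j = ∑ k, (∑ l, sw i l * A l k) * sw k j := by
    intro i j
    rw [Matrix.mul_apply]
    rfl
  ext i j
  rw [h]
  fin_cases i <;> fin_cases j <;> simp [sw, Fin.sum_univ_two]

theorem ENDP_holds (h1 : END0) : ENDP := by
  intro A₀ hP h0 h01 h10 D hD
  rcases (h0 0 0).lt_or_eq with h00 | h00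
  · rcases (h0 1 1).lt_or_eq with h11 | h11
    · have hpos : ∀ i j, 0 < A₀ i j := by
        intro i j
        fin_cases i <;> fin_cases j
        · exact h00
        · exact h01
        · exact h10
        · exact h11
      obtain ⟨v, e⟩ := endp_pos hpos
      exact endp_cone hP D 1 hD v e
    · obtain ⟨D', v, e⟩ := h1 (cR sw * A₀ * cR sw) (by rw [endp_sw_conj]; simpa using h11.symm)
        (by rw [endp_sw_conj]; simpa using h10) (by rw [endp_sw_conj]; simpa using h01)
        (by rw [endp_sw_conj]; simpa using h00)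
      refine endp_change hP sw sw D D' endp_sw_sw ?_ hD v e
      intro A hN
      refine ⟨?_, ?_⟩
      · rw [endp_sw_conj']
        intro i j
        fin_cases i <;> fin_cases j
        · exact hN 1 1
        · exact hN 1 0
        · exact hN 0 1
        · exact hN 0 0
      · have hNs : NN (A * sw) := by
          intro i j
          rw [Matrix.mul_apply]
          exact Finset.sum_nonneg fun k _ => mul_nonneg (hN i k) (endp_sw_nn k j)
        have := QQ.elem (A * sw) sw hNs endp_sw_nn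
        rwa [Matrix.mul_assoc, endp_sw_sw, Matrix.mul_one, ← Matrix.mul_assoc] at this
  · have h11 : 0 < A₀ 1 1 := by
      have ht := hP.1
      rw [Matrix.trace_fin_two, ← h00] at ht
      linarith
    obtain ⟨D', v, e⟩ := h1 A₀ h00.symm h01 h10 h11
    exact endp_cone hP D D' hD v e

end Pool.Agent.H81SSE
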