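import Pool.Agent.H81SSE.W.Stm2

set_option autoImplicit false

namespace Pool.Agent.H81SSE

open Matrix

theorem yv_eq {a b c d : ℤ} {Δ ν : ℝ} (h : Dt a b c d Δ ν) (n : ℤ) :
    yv Δ ν c n = ((a : ℝ) + d) / 2 - (a + n * c) := by
  have h1 := h.1
  unfold yv
  linarith

theorem nu_le {a b c d κ : ℤ} {Δ ν : ℝ} (h : Dt a b c d Δ ν) (hν : 0 < ν)
    (hτ : (0 : ℝ) < (a : ℝ) + d) (hΔ : (a : ℝ) + d ≤ Δ) (hb : (b : ℝ) ≤ κ * ((a : ℝ) + d))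
    (ha : 5 * (a : ℝ) ≤ (a : ℝ) + d) (hκ : (1 : ℝ) ≤ κ) : ν ≤ 2 * κ := by
  have h1 := h.1
  have h2 := h.2
  have h3 : Δ - c * ν = (Δ - a + d) / 2 := by linarith
  rw [h3] at h2
  have h4 : 4 * ((a : ℝ) + d) / 5 ≤ (Δ - a + d) / 2 := by linarith
  have h5 : ν * (4 * ((a : ℝ) + d) / 5) ≤ κ * ((a : ℝ) + d) := by
    calc ν * (4 * ((a : ℝ) + d) / 5) ≤ ν * ((Δ - a + d) / 2) :=
          mul_le_mul_of_nonneg_left h4 hν.le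
      _ = b := h2.symm
      _ ≤ _ := hb
  have h6 : ν * (4 / 5) ≤ κ := by
    by_contra hc
    push Not at hc
    have := mul_lt_mul_of_pos_right hc hτ
    nlinarith
  linarith

theorem ph_nonneg {Δ ν τ : ℝ} {c n : ℤ} (hΔ : 0 < Δ) (hν : 0 < ν) (hn : (0 : ℝ) ≤ n)
    (hτ : 0 < τ) (hy : τ / 6 ≤ yv Δ ν c n) : 0 ≤ ph Δ ν c n := by
  unfold ph
  have : 0 < yv Δ ν c n := by linarith
  positivity

theorem ph_le {Δ ν τ q : ℝ} {c n : ℤ} (hΔ : 0 < Δ) (hν : 0 < ν) (hn : (0 : ℝ) ≤ n)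
    (hτ : 0 < τ) (hq : 0 < q) (hΔq : Δ ≤ q * τ) (hy : τ / 6 ≤ yv Δ ν c n) :
    ph Δ ν c n ≤ 3 * q * (n + ν) := by
  unfold ph
  have hy0 : 0 < yv Δ ν c n := by linarith
  rw [div_le_iff₀ (by positivity)]
  have h1 : 3 * q * (τ / 6) ≤ 3 * q * yv Δ ν c n :=
    mul_le_mul_of_nonneg_left hy (by positivity)
  have h2 : Δ ≤ 3 * q * (2 * yv Δ ν c n) := by nlinarith
  have h3 := mul_le_mul_of_nonneg_left h2 (show (0 : ℝ) ≤ n + ν by linarith)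
  nlinarith

theorem est_C {a b c d κ n₀ C Q : ℤ} {Δ ν : ℝ} (h : Dt a b c d Δ ν) (hν : 0 < ν)
    (hτ : (0 : ℝ) < (a : ℝ) + d) (hΔ : (a : ℝ) + d ≤ Δ) (hΔ2 : Δ ≤ Q * ((a : ℝ) + d))
    (hQ5 : (5 : ℝ) ≤ Q) (hκ : 1 ≤ κ) (hb : b ≤ κ * (a + d)) (ha : 5 * a ≤ a + d)
    (hn1 : 12500 ≤ n₀) (hy : ((a : ℝ) + d) / 6 ≤ yv Δ ν c n₀)
    (hC : C = 2 * κ + 3 * Q * (n₀ + 2 * κ) + 2) : mm Δ ν c n₀ ≤ C := by
  have hκR : (1 : ℝ) ≤ κ := by exact_mod_cast hκ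
  have hn0 : (0 : ℝ) ≤ n₀ := by
    have : 0 ≤ n₀ := by omega
    exact_mod_cast this
  have h1 : ν ≤ 2 * κ := nu_le h hν hτ hΔ (by exact_mod_cast hb) (by exact_mod_cast ha) hκR
  have h2 : ph Δ ν c n₀ ≤ 3 * Q * (n₀ + ν) :=
    ph_le (by linarith) hν hn0 hτ (by linarith) hΔ2 hy
  have h3 : 3 * (Q : ℝ) * (n₀ + ν) ≤ 3 * Q * (n₀ + 2 * κ) :=
    mul_le_mul_of_nonneg_left (by linarith) (by linarith)
  unfold mm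
  rw [Int.ceil_le]
  have hCR : (C : ℝ) = 2 * κ + 3 * Q * (n₀ + 2 * κ) + 2 := by rw [hC]; push_cast; ring
  rw [hCR]
  linarith

theorem est_main (h1 : G3) (h2 : G4) (h3 : DAT) (h5 : LEV) (h6 : TRS)
    (h7 : BOT) (k Q n₀ κ C K K₀ : ℤ) (hk : 1 ≤ k) (hQ : Q = 1 + 4 * k) (hn₀ : n₀ = 100 * Q ^ 3)
    (hκ : 1 ≤ κ) (hC : C = 2 * κ + 3 * Q * (n₀ + 2 * κ) + 2) (hK : 0 ≤ K)
    (hK₀ : K₀ = 320 * Q ^ 2 + K + 1000 * ((K + 1) * (n₀ + C + 1)) + 24)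
    (a b c d j : ℤ) (hKc : K₀ ≤ c) (hb : 0 < b)
    (hbκ : b ≤ κ * (a + d)) (hdet : a * d < b * c) (hdet2 : b * c - a * d ≤ k * (a + d) ^ 2)
    (hη : 21 * n₀ * c ≤ a + d) (h5a : 5 * a ≤ a + d) (hj4 : a + d ≤ 4 * (a + j * c))
    (hj3 : 3 * (a + j * c) ≤ a + d) :
    n₀ < j ∧ ∃ m X Y : ℤ → ℤ, Levels a b c d n₀ j m X Y ∧ 1 ≤ m n₀ ∧ m n₀ ≤ C ∧
      GE K (U3 n₀ (m n₀) * W3 a b c d n₀ (m n₀) (X n₀) (Y n₀)) ∧
      a + d ≤ 20 * (U3 n₀ (m n₀) * W3 a b c d n₀ (m n₀) (X n₀) (Y n₀)) 0 1 ∧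
      a + d ≤ 20 * (U3 n₀ (m n₀) * W3 a b c d n₀ (m n₀) (X n₀) (Y n₀)) 2 1 := by
  have hQ5 : 5 ≤ Q := by omega
  have hQ3 : 125 ≤ Q ^ 3 := by
    have : (5 : ℤ) ^ 3 ≤ Q ^ 3 := pow_le_pow_left₀ (by norm_num) hQ5 3
    norm_num at this
    exact this
  have hQ2 : 0 ≤ Q ^ 2 := by positivity
  have hn1 : 12500 ≤ n₀ := by omega
  have hC1 : 1 ≤ C := by
    have : 0 ≤ 3 * Q * (n₀ + 2 * κ) := by positivity
    omega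
  have hKC : 0 ≤ (K + 1) * (n₀ + C + 1) := by positivity
  have hc24 : 24 ≤ c := by omega
  have hKc' : K ≤ c := by omega
  have hc0 : 0 < c := by omega
  have hcτ' : 262500 * c ≤ a + d := by nlinarith
  have hτ0 : 0 < a + d := by omega
  have hcτ : c ≤ a + d := by omega
  have h100 : 100 * c ≤ a + d := by omega
  -- n₀ < j
  have hnj : n₀ < j := by
    by_contra hcon
    push Not at hcon
    have e1 : j * c ≤ n₀ * c := mul_le_mul_of_nonneg_right hcon hc0.le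
    nlinarith
  obtain ⟨Δ, ν, hDt, hν, hΔ1, hΔ2⟩ := h3 k a b c d hk hb hc0 hτ0 hdet hdet2
  have hτR : (0 : ℝ) < (a : ℝ) + d := by exact_mod_cast hτ0
  have hQR : (Q : ℝ) = 1 + 4 * k := by rw [hQ]; push_cast; ring
  rw [← hQR] at hΔ2
  have hQ5R : (5 : ℝ) ≤ Q := by exact_mod_cast hQ5
  have hc0R : (0 : ℝ) < c := by exact_mod_cast hc0
  have hΔ0 : 0 < Δ := by linarith
  have hLv : ∀ n : ℤ, n₀ ≤ n → n ≤ j → Lv Q ((a : ℝ) + d) Δ ν c n := by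
    intro n hn hn'
    refine ⟨hQ5R, hτR, hΔ1, hΔ2, hc0R, by exact_mod_cast h100, hν, ?_, ?_⟩
    · have : 100 * Q ^ 3 ≤ n := by omega
      exact_mod_cast this
    · rw [yv_eq hDt n]
      have e1 : n * c ≤ j * c := mul_le_mul_of_nonneg_right hn' hc0.le
      have e2 : 3 * (a + n * c) ≤ a + d := by linarith
      have e3 : 3 * ((a : ℝ) + n * c) ≤ (a : ℝ) + d := by exact_mod_cast e2
      linarith
  have h40 : ∀ n : ℤ, n₀ ≤ n → n ≤ j → 40 * (n + mm Δ ν c n) ≤ a + d := by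
    intro n hn hn'
    have e1 := h1 Q ((a : ℝ) + d) Δ ν c 40 n (hLv n hn hn') (by norm_num) (by
      have : 320 * Q ^ 2 ≤ c := by omega
      have e : (320 : ℝ) * (Q : ℝ) ^ 2 ≤ c := by exact_mod_cast this
      linarith)
    exact_mod_cast e1
  have h24 : 24 ≤ a + d := by omega
  have hm1 : ∀ n : ℤ, n₀ ≤ n → n ≤ j → 1 ≤ mm Δ ν c n := by
    intro n hn hn'
    have hL := hLv n hn hn'
    have e1 : 0 ≤ ph Δ ν c n :=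
      ph_nonneg hΔ0 hν (by have : 0 ≤ n := by omega
                           exact_mod_cast this) hτR hL.2.2.2.2.2.2.2.2
    unfold mm
    rw [Int.one_le_ceil_iff]
    linarith
  have hlev : ∀ n : ℤ, ∃ XY : ℤ × ℤ, n₀ ≤ n → n ≤ j →
      (Adm a b c d n (mm Δ ν c n) XY.1 XY.2 ∧
        Win ((a : ℝ) + d) Δ ν c n (mm Δ ν c n) XY.1 XY.2) := by
    intro n
    by_cases hn : n₀ ≤ n ∧ n ≤ j
    · obtain ⟨-, -, X, Y, hA, hW⟩ := h5 Q a b c d n Δ ν hDt (hLv n hn.1 hn.2) h24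
        (h40 n hn.1 hn.2)
      exact ⟨(X, Y), fun _ _ => ⟨hA, hW⟩⟩
    · exact ⟨(0, 0), fun e1 e2 => absurd ⟨e1, e2⟩ hn⟩
  choose XY hXY using hlev
  refine ⟨hnj, fun n => mm Δ ν c n, fun n => (XY n).1, fun n => (XY n).2, ⟨?_, ?_, ?_⟩, ?_, ?_, ?_⟩
  · intro n hn hn'
    exact ⟨hm1 n hn hn', (h5 Q a b c d n Δ ν hDt (hLv n hn hn') h24 (h40 n hn hn')).1⟩
  · exact (h5 Q a b c d j Δ ν hDt (hLv j hnj.le le_rfl) h24 (h40 j hnj.le le_rfl)).2.1 (by omega)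
  · intro n hn hn'
    have hA := hXY n hn hn'.le
    have hL := hLv n hn hn'.le
    have hL' := hLv (n + 1) (by omega) (by omega)
    have hT := h6 Q a b c d n (XY n).1 (XY n).2 Δ ν hDt hL hL' hA.1 hA.2
    exact ⟨hA.1, hT.1, (h2 Q ((a : ℝ) + d) Δ ν c n hL hL').1, hT.2⟩
  · exact hm1 n₀ le_rfl hnj.le
  · have hL := hLv n₀ le_rfl hnj.le
    exact est_C hDt hν hτR hΔ1 hΔ2 hQ5R hκ hbκ h5a hn1 hL.2.2.2.2.2.2.2.2 hC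
  · have hL := hLv n₀ le_rfl hnj.le
    have hA := hXY n₀ le_rfl hnj.le
    have hCC : mm Δ ν c n₀ ≤ C :=
      est_C hDt hν hτR hΔ1 hΔ2 hQ5R hκ hbκ h5a hn1 hL.2.2.2.2.2.2.2.2 hC
    have e1 : 1000 * ((K + 1) * (n₀ + C + 1)) ≤ a + d := by omega
    exact h7 Q a b c d n₀ (XY n₀).1 (XY n₀).2 K (n₀ + C) Δ ν hDt hL hA.1 hA.2 hK
      (by omega) e1 hKc'

theorem EST_holds (h1 : G3) (h2 : G4) (h3 : DAT) (h4 : IDS) (h5 : LEV) (h6 : TRS)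
    (h7 : BOT) : EST := by
  intro k hk
  have hQ5 : 5 ≤ 1 + 4 * k := by omega
  have hQ3 : 125 ≤ (1 + 4 * k) ^ 3 := by
    have : (5 : ℤ) ^ 3 ≤ (1 + 4 * k) ^ 3 := pow_le_pow_left₀ (by norm_num) hQ5 3
    norm_num at this
    exact this
  obtain ⟨n₀, hn₀⟩ : ∃ n₀ : ℤ, n₀ = 100 * (1 + 4 * k) ^ 3 := ⟨_, rfl⟩
  have hn1 : 12500 ≤ n₀ := by omega
  refine ⟨n₀, 21 * n₀, by omega, by omega, ?_⟩
  intro κ hκ
  obtain ⟨C, hC⟩ : ∃ C : ℤ, C = 2 * κ + 3 * (1 + 4 * k) * (n₀ + 2 * κ) + 2 := ⟨_, rfl⟩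
  have hC1 : 1 ≤ C := by
    have : 0 ≤ 3 * (1 + 4 * k) * (n₀ + 2 * κ) := by positivity
    omega
  refine ⟨C, hC1, ?_⟩
  intro K hK
  obtain ⟨K₀, hK₀⟩ : ∃ K₀ : ℤ,
    K₀ = 320 * (1 + 4 * k) ^ 2 + K + 1000 * ((K + 1) * (n₀ + C + 1)) + 24 := ⟨_, rfl⟩
  have hKC : 0 ≤ (K + 1) * (n₀ + C + 1) := by positivity
  have hQ2 : 0 ≤ (1 + 4 * k) ^ 2 := by positivity
  refine ⟨K₀, by omega, ?_⟩
  intro a b c d j e1 e2 e3 e4 e5 e6 e7 e8 e9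
  exact est_main h1 h2 h3 h5 h6 h7 k (1 + 4 * k) n₀ κ C K K₀ hk rfl hn₀ hκ hC hK hK₀ a b c d j
    e1 e2 e3 e4 e5 e6 e7 e8 e9

end Pool.Agent.H81SSE
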