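import Pool.Agent.H81SSE.W.Stm3

/-!
# Project W, stub EVH: the hat and large multiples
-/

set_option autoImplicit false

namespace Pool.Agent.H81SSE

open Matrix

lemma evh_hat (M : M2Z) : hat M = !![M 1 1, M 0 1; M 1 0, M 0 0] := by
  unfold hat sw
  rw [Matrix.eta_fin_two (Mᵀ), Matrix.mul_fin_two, Matrix.mul_fin_two]
  simp [Matrix.transpose_apply]

lemma evh_sw : cR sw = !![(0 : ℝ), 1; 1, 0] := by
  unfold cR sw
  ext i j
  fin_cases i <;> fin_cases j <;> simp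

lemma evh_hatR (M : M2R) : hatR M = !![M 1 1, M 0 1; M 1 0, M 0 0] := by
  unfold hatR
  rw [evh_sw, Matrix.eta_fin_two (Mᵀ), Matrix.mul_fin_two, Matrix.mul_fin_two]
  simp [Matrix.transpose_apply]

theorem EVH_holds : EVH := by
  intro A₀ p h
  obtain ⟨ε, hε, T, hT⟩ := h
  refine ⟨ε, hε, T, fun A hA => hT _ ?_⟩
  obtain ⟨τ, h1, h2, h3⟩ := hA
  refine ⟨τ, h1, h2, fun i j => ?_⟩
  have h00 := h3 0 0
  have h01 := h3 0 1
  have h10 := h3 1 0
  have h11 := h3 1 1
  rw [evh_hat, evh_hatR]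
  fin_cases i <;> fin_cases j
  · exact h11
  · exact h01
  · exact h10
  · exact h00

end Pool.Agent.H81SSE
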