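import Pool.Agent.H81SSE.W.Stm3

set_option autoImplicit false

/-! EX3: rows that are large on the cone `D3 n m` are combinations of the rows of `U3 n m` with large
coefficients. -/

namespace Pool.Agent.H81SSE

open Matrix

theorem EX3_holds : EX3 := by
  intro n m h K
  refine ⟨(n + m + 1) * K, ?_⟩
  intro r _ Y hY
  refine ⟨Matrix.of fun i j => ![Y i 0 + max K (K - Y i 0),
    (Y i 1 - n * Y i 0) - (n + m) * max K (K - Y i 0), max K (K - Y i 0)] j, ?_, ?_⟩
  · intro i j
    have h0 := hY i 0
    have h1 := hY i 1
    simp only [D3, Matrix.mul_apply, Fin.sum_univ_two, Matrix.of_apply, Matrix.cons_val', Matrix.cons_val_zero,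
      Matrix.cons_val_one, Matrix.cons_val_fin_one] at h0 h1
    have h2 := le_max_left K (K - Y i 0)
    have h3 := le_max_right K (K - Y i 0)
    fin_cases j
    · simp only [Matrix.of_apply, Fin.zero_eta, Matrix.cons_val_zero]
      linarith
    · simp only [Matrix.of_apply, Fin.mk_one, Matrix.cons_val_one, Matrix.cons_val_zero]
      rcases max_choice K (K - Y i 0) with h4 | h4
      · rw [h4]
        linarith
      · rw [h4]
        have e : (n + m) * (K - Y i 0) = (n + m) * K - n * Y i 0 - m * Y i 0 := by ring
        rw [e]
        linarith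
    · simp only [Matrix.of_apply, Fin.reduceFinMk, Matrix.cons_val]
      exact h2
  · ext i j
    simp only [U3, Matrix.mul_apply, Fin.sum_univ_three, Matrix.of_apply]
    fin_cases j
    · simp
    · simp
      ring

end Pool.Agent.H81SSE
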