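import Pool.Agent.H81SSE.W.Stm3

/-!
# Stub FAC
-/

set_option autoImplicit false

namespace Pool.Agent.H81SSE

open Matrix

theorem FAC_holds : FAC := by
  intro D E y hD hE k1 y1 c hc1
  obtain ⟨d, hd1, hd⟩ := exists_bd D
  obtain ⟨δ, hδ1, hδ⟩ := exists_bd D.adjugate
  obtain ⟨y0, hy01, hy0⟩ := exists_bd y
  obtain ⟨q, hq1, hq⟩ := exists_bd E.adjugate
  set N0 : ℤ := 1 + δ with hN0
  have hN01 : 1 ≤ N0 := by rw [hN0]; linarith
  set ν : ℤ := (Fintype.card (Fin 2) : ℤ) with hν
  have hν0 : 0 ≤ ν := by rw [hν]; exact Int.natCast_nonneg _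
  set M : ℤ := c * E.det with hM
  have hM0 : 0 < M := mul_pos (by linarith) hE
  set s : ℤ := c + ν * (M * d) with hs
  have hs0 : 0 ≤ s := by positivity
  set f : ℤ := M + s * y0 with hf
  have hf0 : 0 ≤ f := by positivity
  set g : ℤ := ν * (ν * (1 * f) * d) with hg
  have hg0 : 0 ≤ g := by positivity
  set g' : ℤ := ν * (ν * (q * f) * d) with hg'
  have hg'0 : 0 ≤ g' := by positivity
  refine ⟨M * (c + N0 * g) + g', ?_⟩
  intro A hAD
  set A' : M2Z := Matrix.of fun i j => (A i j - s * y i j) / M with hA'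
  set V : M2Z := Matrix.of fun i j => (A i j - s * y i j) % M with hV
  set F : M2Z := V + s • y with hF
  have eA : A = M • A' + F := by
    ext i j
    simp only [hA', hF, hV, Matrix.add_apply, Matrix.smul_apply, Matrix.of_apply, smul_eq_mul]
    have := Int.emod_add_mul_ediv (A i j - s * y i j) M
    linarith
  have hV0 : ∀ i j, 0 ≤ V i j := fun i j => Int.emod_nonneg _ hM0.ne'
  have hVM : ∀ i j, V i j ≤ M := fun i j => (Int.emod_lt_of_pos _ hM0).le
  have hVabs : ∀ i j, |V i j| ≤ M := fun i j => by rw [abs_of_nonneg (hV0 i j)]; exact hVM i j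
  have hFabs : ∀ i j, |F i j| ≤ f := by
    intro i j
    simp only [hF, Matrix.add_apply, Matrix.smul_apply, smul_eq_mul]
    refine (abs_add_le _ _).trans ?_
    rw [abs_mul, abs_of_nonneg hs0]
    exact add_le_add (hVabs i j) (mul_le_mul_of_nonneg_left (hy0 i j) hs0)
  -- the rows of `F`
  have hFD : GE c (F * D) := by
    intro i j
    have e1 : (F * D) i j = (V * D) i j + s * (y * D) i j := by
      rw [hF, Matrix.add_mul, Matrix.smul_mul]; rfl
    have e2 : |(V * D) i j| ≤ ν * (M * d) := abs_mul_le hVabs hd i j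
    have e3 := (abs_le.mp e2).1
    have e4 : s * 1 ≤ s * (y * D) i j := mul_le_mul_of_nonneg_left (y1 i j) hs0
    rw [e1]; linarith
  -- the rows of the first block
  set B : M2Z := E.adjugate * A' - N0 • (Jn (Fin 2) * F) with hB
  have hBD : GE c (B * D) := by
    intro i j
    have e1 : (E.adjugate * A * D) i j = M * (E.adjugate * A' * D) i j +
        (E.adjugate * F * D) i j := by
      rw [eA, Matrix.mul_add, Matrix.add_mul, Matrix.mul_smul, Matrix.smul_mul]; rfl
    have e2 : |(E.adjugate * F * D) i j| ≤ g' :=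
      abs_mul_le (abs_mul_le' hq hFabs) hd i j
    have e3 : |(Jn (Fin 2) * F * D) i j| ≤ g :=
      abs_mul_le (abs_mul_le' (fun i j => by simp [Jn]) hFabs) hd i j
    have e4 : (B * D) i j = (E.adjugate * A' * D) i j - N0 * (Jn (Fin 2) * F * D) i j := by
      rw [hB, Matrix.sub_mul, Matrix.smul_mul]; rfl
    have e5 := hAD i j
    rw [e1] at e5
    have e6 := (abs_le.mp e2).2
    have e7 := (abs_le.mp e3).2
    have e8 : M * (c + N0 * g) ≤ M * (E.adjugate * A' * D) i j := by linarith
    have e9 := le_of_mul_le_mul_left e8 hM0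
    have e10 : N0 * (Jn (Fin 2) * F * D) i j ≤ N0 * g := mul_le_mul_of_nonneg_left e7 (by linarith)
    rw [e4]; linarith
  refine ⟨Matrix.fromCols (c • E) (N0 • (c • (E * Jn (Fin 2))) + 1), Matrix.fromRows B F, ?_, ?_, ?_⟩
  · rw [Matrix.fromCols_mul_fromRows, hB, Matrix.mul_sub, Matrix.smul_mul, ← Matrix.mul_assoc,
      Matrix.mul_adjugate, Matrix.smul_mul, Matrix.one_mul, Matrix.add_mul, Matrix.one_mul,
      Matrix.mul_smul, Matrix.smul_mul, Matrix.smul_mul, Matrix.smul_mul, Matrix.mul_assoc, smul_smul, ← hM]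
    conv_rhs => rw [eA]
    abel
  · rw [Matrix.mul_fromCols]
    have hge : ∀ i j, 1 ≤ (D.adjugate * E) i j := k1
    rintro i (j | j)
    · rw [Matrix.fromCols_apply_inl, Matrix.mul_smul]
      simp only [Matrix.smul_apply, smul_eq_mul]
      have := hge i j
      nlinarith
    · rw [Matrix.fromCols_apply_inr, Matrix.mul_add, Matrix.mul_one, Matrix.mul_smul, Matrix.mul_smul, ← Matrix.mul_assoc]
      simp only [Matrix.add_apply, Matrix.smul_apply, smul_eq_mul]
      have g3 : 1 ≤ (D.adjugate * E * Jn (Fin 2)) i j := by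
        rw [Matrix.mul_apply, Fin.sum_univ_two]
        simp only [Jn, Matrix.of_apply, mul_one]
        have a1 := hge i 0
        have a2 := hge i 1
        linarith
      have g6 := (abs_le.mp (hδ i j)).1
      have g7 : N0 * c ≤ N0 * (c * (D.adjugate * E * Jn (Fin 2)) i j) := by
        refine mul_le_mul_of_nonneg_left ?_ (by linarith)
        nlinarith
      have g8 : N0 * c = c + δ * c := by rw [hN0]; ring
      have g9 : δ * 1 ≤ δ * c := mul_le_mul_of_nonneg_left hc1 (by linarith)
      linarith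
  · rw [Matrix.fromRows_mul]
    rintro (i | i) j
    · exact hBD i j
    · exact hFD i j

end Pool.Agent.H81SSE
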