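import Pool.Agent.H81SSE.W.Stm2

/-!
# Project W, stub G12: the estimates at one level (helper79)
-/

set_option autoImplicit false

namespace Pool.Agent.H81SSE

theorem G12_holds : G12 := by
  intro q τ Δ ν c n hL
  obtain ⟨hq, hτ, hτΔ, hΔq, hc, hcτ, hν, hn, hy⟩ := hL
  have hΔ : 0 < Δ := lt_of_lt_of_le hτ hτΔ
  have hq3 : 50 * q ≤ 100 * q ^ 3 := by
    have h1 : (1 : ℝ) ≤ q ^ 2 := by nlinarith
    nlinarith [mul_le_mul_of_nonneg_left h1 (by linarith : (0 : ℝ) ≤ q)]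
  have hn0 : (0 : ℝ) < n := by nlinarith
  obtain ⟨y, hyd⟩ : ∃ y, y = yv Δ ν c n := ⟨_, rfl⟩
  obtain ⟨φ, hφd⟩ : ∃ φ, φ = ph Δ ν c n := ⟨_, rfl⟩
  obtain ⟨m, hmd⟩ : ∃ m, m = mm Δ ν c n := ⟨_, rfl⟩
  rw [← hyd] at hy
  rw [← hyd, ← hmd]
  have hy0 : 0 < y := by linarith
  have hyx : y = Δ / 2 - c * (n + ν) := by rw [hyd]; rfl
  have hφ2 : φ * (2 * y) = (n + ν) * Δ := by
    rw [hφd]
    unfold ph
    rw [← hyd]
    field_simp
  have hφ1 : φ * y = (n + ν) * Δ / 2 := by linarith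
  have hφ0 : 0 < φ := by
    have : 0 < φ * (2 * y) := by rw [hφ2]; positivity
    exact pos_of_mul_pos_left this (by positivity)
  have hmd' : m = ⌈ν + φ⌉ := by rw [hmd, hφd]; rfl
  have hm1 : ν + φ ≤ m := by rw [hmd']; exact Int.le_ceil _
  have hm2 : (m : ℝ) < ν + φ + 1 := by rw [hmd']; exact Int.ceil_lt_add_one _
  have hm0 : 0 < m := by
    have : (0 : ℝ) < m := by linarith
    exact_mod_cast this
  have hp0 : 0 < (n : ℝ) + ν := by linarith
  have hx0 : 0 < c * ((n : ℝ) + ν) := by positivity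
  have hyΔ : y ≤ q * τ / 2 := by linarith
  refine ⟨by linarith, by omega, ?_, ?_, ?_⟩
  · have h1 : (n + ν) * (Δ - c * (n + ν)) = ((n + ν) + φ) * y := by
      have : c * ((n : ℝ) + ν) = Δ / 2 - y := by linarith
      rw [this]
      linarith
    rw [h1]
    have h2 : y ≤ ((n : ℝ) + m) * (τ / 100) := by
      have h3 : 50 * q ≤ (n : ℝ) + m := by linarith
      have h4 := mul_le_mul_of_nonneg_right h3 (by positivity : (0 : ℝ) ≤ τ / 100)
      nlinarith
    have h5 : ((n : ℝ) + m) * y ≤ ((n + ν) + φ + 1) * y :=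
      mul_le_mul_of_nonneg_right (by linarith) hy0.le
    nlinarith
  · have h1 : φ * y ≤ (m - ν) * y := mul_le_mul_of_nonneg_right (by linarith) hy0.le
    have h2 : ((m : ℝ) - ν) * ((τ + Δ) / 2 - c * (n + ν)) = (m - ν) * (τ / 2 + y) := by
      rw [hyx]; ring
    rw [h2]
    nlinarith
  · have h1 : c * φ * (2 * y) = (Δ / 2 - y) * Δ := by
      have : c * ((n : ℝ) + ν) = Δ / 2 - y := by linarith
      calc c * φ * (2 * y) = c * (φ * (2 * y)) := by ring
        _ = (c * (n + ν)) * Δ := by rw [hφ2]; ring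
        _ = _ := by rw [this]
    have h2 : c * φ * (τ / 3) ≤ c * φ * (2 * y) :=
      mul_le_mul_of_nonneg_left (by linarith) (by positivity)
    have h3 : (Δ / 2 - y) * Δ ≤ (q * τ) * (q * τ) / 2 := by
      have : Δ * Δ ≤ (q * τ) * (q * τ) := mul_le_mul hΔq hΔq hΔ.le (by positivity)
      nlinarith [mul_pos hy0 hΔ]
    have h4 : c * φ ≤ 3 / 2 * q ^ 2 * τ := by
      have h5 : c * φ * (τ / 3) ≤ (3 / 2 * q ^ 2 * τ) * (τ / 3) := by
        calc c * φ * (τ / 3) ≤ (q * τ) * (q * τ) / 2 := by linarith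
          _ = _ := by ring
      exact le_of_mul_le_mul_right h5 (by positivity)
    have h6 : c * (m - ν) ≤ c * (φ + 1) := mul_le_mul_of_nonneg_left (by linarith) hc.le
    have h7 : τ ≤ q ^ 2 * τ := by nlinarith [mul_pos hτ hτ]
    nlinarith

end Pool.Agent.H81SSE
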