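import Pool.Agent.H81SSE.W.Stm2

set_option autoImplicit false

/-! G3: the number of levels. -/

namespace Pool.Agent.H81SSE

theorem G3_holds : G3 := by
  intro q τ Δ ν c M n h hM hc8
  obtain ⟨hq, hτ, h1, h2, hc, h3, hν, h4, hy⟩ := h
  have y0 : 0 < yv Δ ν c n := by linarith
  have hΔ : 0 < Δ := by linarith
  have hn : (0 : ℝ) ≤ n := le_trans (by positivity) h4
  have hp : 0 < (n : ℝ) + ν := by linarith
  have hyd : yv Δ ν c n = Δ / 2 - c * (n + ν) := rfl
  have hcp : c * (n + ν) < Δ / 2 := by linarith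
  have k4 := Int.ceil_lt_add_one (ν + ph Δ ν c n)
  have e1 : (n : ℝ) + ν + ph Δ ν c n = (n + ν) * (Δ - c * (n + ν)) / yv Δ ν c n := by
    unfold ph
    rw [eq_div_iff y0.ne', add_mul]
    have : (n + ν) * Δ / (2 * yv Δ ν c n) * yv Δ ν c n = (n + ν) * Δ / 2 := by
      field_simp
    rw [this, hyd]
    ring
  have k1 : (n + ν) * (Δ - c * (n + ν)) / yv Δ ν c n ≤ 3 * q ^ 2 * τ / c := by
    rw [div_le_div_iff₀ y0 hc]
    have a1 : (n + ν) * (Δ - c * (n + ν)) * c ≤ Δ / 2 * Δ := by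
      have b1 : (n + ν) * (Δ - c * (n + ν)) * c = (c * (n + ν)) * (Δ - c * (n + ν)) := by ring
      rw [b1]
      exact mul_le_mul hcp.le (by have := mul_pos hc hp; linarith) (by linarith) (by linarith)
    have a2 : Δ / 2 * Δ ≤ (q * τ) / 2 * (q * τ) :=
      mul_le_mul (by linarith) h2 hΔ.le (by positivity)
    have a3 : 3 * q ^ 2 * τ * (τ / 6) ≤ 3 * q ^ 2 * τ * yv Δ ν c n :=
      mul_le_mul_of_nonneg_left hy (by positivity)
    nlinarith
  have k2 : (n : ℝ) + mm Δ ν c n ≤ 3 * q ^ 2 * τ / c + 1 := by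
    unfold mm
    linarith
  have k3 : M * ((n : ℝ) + mm Δ ν c n) ≤ M * (3 * q ^ 2 * τ / c + 1) :=
    mul_le_mul_of_nonneg_left k2 (by linarith)
  have k5 : M * (3 * q ^ 2 * τ / c) ≤ 3 * τ / 8 := by
    rw [mul_div_assoc', div_le_div_iff₀ hc (by norm_num)]
    have := mul_le_mul_of_nonneg_right hc8 (by positivity : (0 : ℝ) ≤ 3 * τ)
    nlinarith
  have k6 : M ≤ c := by
    have : (1 : ℝ) ≤ 8 * q ^ 2 := by nlinarith
    calc M = 1 * M := (one_mul M).symm
      _ ≤ 8 * q ^ 2 * M := mul_le_mul_of_nonneg_right this (by linarith)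
      _ ≤ c := hc8
  have k7 : M * (3 * q ^ 2 * τ / c + 1) = M * (3 * q ^ 2 * τ / c) + M := by ring
  linarith

end Pool.Agent.H81SSE
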