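import Pool.Agent.H81SSE.W.Stm2

set_option autoImplicit false

/-! G4: the levels `n` and `n + 1`. -/

namespace Pool.Agent.H81SSE

lemma ph_diff {Δ ν c : ℝ} {n : ℤ} (hy : 0 < yv Δ ν c n) (hy' : 0 < yv Δ ν c (n + 1)) :
    ph Δ ν c (n + 1) - ph Δ ν c n = Δ ^ 2 / (4 * yv Δ ν c n * yv Δ ν c (n + 1)) := by
  unfold ph
  rw [div_sub_div _ _ (by positivity) (by positivity), div_eq_div_iff (by positivity) (by positivity)]
  have e1 : yv Δ ν c (n + 1) = yv Δ ν c n - c := by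
    unfold yv
    push_cast
    ring
  have e2 : Δ = 2 * (yv Δ ν c n + c * (n + ν)) := by
    unfold yv
    ring
  push_cast
  rw [e1]
  generalize yv Δ ν c n = y at e2 ⊢
  rw [e2]
  ring

theorem G4_holds : G4 := by
  intro q τ Δ ν c n h h'
  obtain ⟨hq, hτ, h1, h2, hc, h3, hν, h4, hy⟩ := h
  obtain ⟨-, -, -, -, -, -, -, -, hy'⟩ := h'
  have y0 : 0 < yv Δ ν c n := by linarith
  have y0' : 0 < yv Δ ν c (n + 1) := by linarith
  have hd := ph_diff y0 y0'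
  have hΔ : 0 < Δ := by linarith
  have hnn : 0 ≤ Δ ^ 2 / (4 * yv Δ ν c n * yv Δ ν c (n + 1)) := by positivity
  have hle : Δ ^ 2 / (4 * yv Δ ν c n * yv Δ ν c (n + 1)) ≤ 9 * q ^ 2 := by
    rw [div_le_iff₀ (by positivity)]
    have k1 : (τ / 6) * (τ / 6) ≤ yv Δ ν c n * yv Δ ν c (n + 1) :=
      mul_le_mul hy hy' (by positivity) y0.le
    have k2 : Δ ^ 2 ≤ (q * τ) ^ 2 := pow_le_pow_left₀ hΔ.le h2 2
    have k3 : 9 * q ^ 2 * (4 * ((τ / 6) * (τ / 6))) ≤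
        9 * q ^ 2 * (4 * (yv Δ ν c n * yv Δ ν c (n + 1))) := by
      apply mul_le_mul_of_nonneg_left _ (by positivity)
      linarith
    nlinarith
  refine ⟨Int.ceil_mono (by linarith), ?_⟩
  have k4 := Int.ceil_lt_add_one (ν + ph Δ ν c (n + 1))
  have k5 := Int.le_ceil (ν + ph Δ ν c n)
  unfold mm
  nlinarith

end Pool.Agent.H81SSE
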