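import Pool.Agent.H81SSE.W.Stm3

/-!
# Project W, stub HTA: computations with the swap
-/

set_option autoImplicit false
set_option linter.unusedSimpArgs false

namespace Pool.Agent.H81SSE

open Matrix

lemma hta_hat (M : M2Z) : hat M = !![M 1 1, M 0 1; M 1 0, M 0 0] := by
  unfold hat sw
  rw [Matrix.eta_fin_two (Mᵀ), Matrix.mul_fin_two, Matrix.mul_fin_two]
  simp [Matrix.transpose_apply]

lemma hta_sw : cR sw = !![(0 : ℝ), 1; 1, 0] := by
  unfold cR sw
  ext i j
  fin_cases i <;> fin_cases j <;> simp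

lemma hta_hatR (M : M2R) : hatR M = !![M 1 1, M 0 1; M 1 0, M 0 0] := by
  unfold hatR
  rw [hta_sw, Matrix.eta_fin_two (Mᵀ), Matrix.mul_fin_two, Matrix.mul_fin_two]
  simp [Matrix.transpose_apply]

theorem HTA_holds : HTA := by
  refine ⟨?_, ?_, ?_, ?_, ?_, ?_, ?_, ?_, ?_, ?_, ?_⟩
  · intro a b c d
    rw [hta_hat]
    simp
  · intro M M'
    rw [hta_hat, hta_hat, hta_hat, Matrix.mul_fin_two]
    ext i j
    fin_cases i <;> fin_cases j <;> simp [Matrix.mul_apply, Fin.sum_univ_two] <;> ring
  · intro M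
    rw [hta_hat, hta_hat]
    ext i j
    fin_cases i <;> fin_cases j <;> simp
  · intro M
    rw [hta_hat, Matrix.det_fin_two, Matrix.det_fin_two]
    simp
    ring
  · intro M
    rw [hta_hat, Matrix.trace_fin_two, Matrix.trace_fin_two]
    simp
    ring
  · intro M
    rw [hta_hat, hta_hat, Matrix.adjugate_fin_two, Matrix.adjugate_fin_two]
    ext i j
    fin_cases i <;> fin_cases j <;> simp
  · intro M
    rw [hta_hat, hta_hatR]
    ext i j
    fin_cases i <;> fin_cases j <;> simp [cR]
  · intro M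
    rw [hta_hatR, Matrix.det_fin_two, Matrix.det_fin_two]
    simp
    ring
  · intro M
    rw [hta_hatR, Matrix.trace_fin_two, Matrix.trace_fin_two]
    simp
    ring
  · intro M h i j
    rw [hta_hatR]
    fin_cases i <;> fin_cases j <;> simp [h]
  · intro M M'
    rw [hta_hatR, hta_hatR, hta_hatR, Matrix.mul_fin_two]
    ext i j
    fin_cases i <;> fin_cases j <;> simp [Matrix.mul_apply, Fin.sum_univ_two] <;> ring

end Pool.Agent.H81SSE
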