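import Pool.Agent.H81SSE.W.Stm2

set_option autoImplicit false

namespace Pool.Agent.H81SSE

open Matrix

theorem lev_yv {a b c d : ℤ} {Δ ν : ℝ} (h : Dt a b c d Δ ν) (n : ℤ) :
    ((a + n * c : ℤ) : ℝ) = ((a : ℝ) + d) / 2 - yv Δ ν c n := by
  have h1 := h.1
  unfold yv
  push_cast
  linarith

theorem LEV_holds (h1 : G12) (h2 : ZCH) (h3 : IDS) : LEV := by
  intro q a b c d n Δ ν hDt hLv h24 h40
  obtain ⟨g1, g2, g3, g4, g5⟩ := h1 q ((a : ℝ) + d) Δ ν c n hLv
  obtain ⟨i1, i2, i3, i4, i5⟩ := h3 a b c d n (mm Δ ν c n) Δ ν hDt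
  obtain ⟨hq, hτ, hΔ1, hΔ2, hc, hcτ, hν, hn, hy⟩ := hLv
  have hyv := lev_yv hDt n
  rw [← i3] at g3
  rw [← i4] at g4
  generalize hm : mm Δ ν c n = m at *
  generalize hyy : yv Δ ν c n = y at *
  generalize hβ : b - n * a + n * (d - n * c) = β at *
  generalize hβ' : -(b - n * a) + m * (d - n * c) = β' at *
  generalize hA : a + n * c = A at *
  have hB0 : (0 : ℝ) ≤ ((-a + m * c : ℤ) : ℝ) := by
    rw [i5]
    have : 0 ≤ (c : ℝ) * (m - ν) := mul_nonneg hc.le (by linarith)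
    linarith
  have hB0' : 0 ≤ -a + m * c := by exact_mod_cast hB0
  have hq3 : (0 : ℝ) ≤ 100 * q ^ 3 := by positivity
  have hn0 : (0 : ℝ) ≤ n := by linarith
  have hn0' : 0 ≤ n := by exact_mod_cast hn0
  have hN1 : 1 ≤ n + m := by omega
  have hN1R : (1 : ℝ) ≤ (n : ℝ) + m := by exact_mod_cast hN1
  have h40R : 40 * ((n : ℝ) + m) ≤ (a : ℝ) + d := by exact_mod_cast h40
  have h24R : (24 : ℝ) ≤ (a : ℝ) + d := by exact_mod_cast h24
  have hN0 : (0 : ℝ) ≤ (n : ℝ) + m := by linarith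
  generalize hτ' : (a : ℝ) + d = τ at *
  have hmul : ∀ u v : ℝ, u ≤ v → ((n : ℝ) + m) * u ≤ ((n : ℝ) + m) * v :=
    fun u v huv => mul_le_mul_of_nonneg_left huv hN0
  refine ⟨⟨?_, ?_, ?_, ?_⟩, ?_, ?_⟩
  · rw [hβ]
    have e : ((n : ℝ) + m) * (2 * ((n : ℝ) + m)) ≤ β :=
      (hmul _ _ (by linarith)).trans g3
    exact_mod_cast e
  · rw [hβ, hA]
    have e : ((n : ℝ) + m) * (-(A : ℝ) + 2 * ((n : ℝ) + m)) ≤ β :=
      (hmul _ _ (by linarith)).trans g3
    exact_mod_cast e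
  · rw [hβ']
    have e : ((n : ℝ) + m) * (2 * ((n : ℝ) + m)) ≤ β' :=
      (hmul _ _ (by linarith)).trans g4
    exact_mod_cast e
  · rw [hβ']
    have e0 : (a : ℝ) - m * c ≤ 0 := by
      have : a - m * c ≤ 0 := by omega
      exact_mod_cast this
    have e : ((n : ℝ) + m) * (((a : ℝ) - m * c) + 2 * ((n : ℝ) + m)) ≤ β' :=
      (hmul _ _ (by linarith)).trans g4
    exact_mod_cast e
  · intro hA0
    have eβ : (0 : ℝ) ≤ β := by
      have : 0 ≤ ((n : ℝ) + m) * (y - τ / 100) := mul_nonneg hN0 (by linarith)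
      linarith
    have eβ' : (0 : ℝ) ≤ β' := by
      have : 0 ≤ ((n : ℝ) + m) * (τ / 2) := mul_nonneg hN0 (by linarith)
      linarith
    have eβi : 0 ≤ β := by exact_mod_cast eβ
    have eβi' : 0 ≤ β' := by exact_mod_cast eβ'
    refine ⟨by simp, by simp, ?_, ?_, ?_, ?_⟩
    · rw [hA]; simpa using hA0
    · simpa using hB0'
    · rw [hβ]; simpa using eβi
    · rw [hβ']; simpa using eβi'
  · obtain ⟨s, t, ⟨Y, hY⟩, hs1, hs2, ht1, ht2⟩ := h2 (n + m) (y - τ / 12) (τ / 4) hN1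
    push_cast at ht2
    have es : (s - n * Y) + n * Y = s := by ring
    have et : -(s - n * Y) + m * Y = t := by
      have : t = (n + m) * Y - s := by linarith
      rw [this]; ring
    refine ⟨s - n * Y, Y, ⟨?_, ?_, ?_, ?_, ?_, ?_⟩, ⟨?_, ?_, ?_, ?_⟩⟩
    · rw [es]
      have : (0 : ℝ) ≤ s := by linarith
      exact_mod_cast this
    · rw [et]
      have : (0 : ℝ) ≤ t := by linarith
      exact_mod_cast this
    · rw [es, hA]
      have : (0 : ℝ) ≤ (A : ℝ) + s := by linarith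
      exact_mod_cast this
    · rw [et]
      have : (0 : ℝ) ≤ t := by linarith
      have : 0 ≤ t := by exact_mod_cast this
      omega
    · rw [es, hβ]
      have e : ((n : ℝ) + m) * s ≤ β := (hmul _ _ (by linarith)).trans g3
      exact_mod_cast e
    · rw [et, hβ']
      have e : ((n : ℝ) + m) * t ≤ β' := (hmul _ _ (by linarith)).trans g4
      exact_mod_cast e
    · rw [es, hyy]; exact hs1
    · rw [es, hyy]; exact hs2
    · rw [et]; exact ht1
    · rw [et]; linarith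

end Pool.Agent.H81SSE
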