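import Pool.Agent.H81SSE.W.Stm3

/-!
# LNK3: link of the lift over `U3` with the lifts over the cones
-/

set_option autoImplicit false

namespace Pool.Agent.H81SSE

open Matrix

lemma LNK3_first (h1 : TR3) (A₀ : M2R) (n m : ℤ) (hnm : 1 ≤ n + m)
    (hV : Val A₀ (cR (D3 n m))) (K : ℤ) : Ev A₀ (fun A =>
    ∃ (W : Matrix (Fin 2) (Fin 3) ℤ) (W' : Matrix (Fin 2) (Fin 2 ⊕ (Fin 2 ⊕ Fin 2)) ℤ),
      W * U3 n m = A ∧ W' * UU (D3 n m) = A ∧ GE K (U3 n m * W) ∧ GE K (UU (D3 n m) * W') ∧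
      QQ (U3 n m * W) (UU (D3 n m) * W')) := by
  obtain ⟨G, -, hG⟩ := exists_good_inner A₀ (cR (D3 n m)) hV.1 hV.2 Set.univ isOpen_univ
    (Set.mem_univ _)
  obtain ⟨E, hE1⟩ := exists_int {G | Good A₀ (cR (D3 n m)) G}
    (isOpen_good_right _ _) (fun M hM t ht => Good.smul_right hM ht) G hG
  obtain ⟨a1, b1, c1, d1⟩ := hE1
  have hD1 : 0 < (D3 n m).det := by rw [cR_det] at a1; exact_mod_cast a1
  have hE : 0 < E.det := by rw [cR_det] at b1; exact_mod_cast b1
  have k1 : GE 1 ((D3 n m).adjugate * E) := by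
    apply ge_one_of_pos
    rw [cR_mul, ← cR_adj]; exact c1
  obtain ⟨A1, hA1⟩ := exists_int
    {A : M2R | ∀ i j : Fin 2, 0 < ((cR E).adjugate * A * cR (D3 n m)) i j}
    (by
      simp only [Set.ofPred_forall]
      refine isOpen_iInter_of_finite fun i => isOpen_iInter_of_finite fun j => ?_
      exact isOpen_lt continuous_const
        (((continuous_const.matrix_mul continuous_id).matrix_mul
          continuous_const).matrix_elem i j))
    (by
      intro M hM t ht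
      intro i j
      rw [Matrix.mul_smul, Matrix.smul_mul, Matrix.smul_apply, smul_eq_mul]
      exact mul_pos ht (hM i j)) A₀ d1
  have y1 : GE 1 (E.adjugate * A1 * D3 n m) := by
    apply ge_one_of_pos
    rw [cR_mul, cR_mul, ← cR_adj]; exact hA1
  obtain ⟨C, hC⟩ := h1 n m (D3 n m) E (E.adjugate * A1) hnm hD1 hE k1 k1 y1 y1 K
  refine (Ev.big A₀ E.adjugate (D3 n m) ?_ C).mono ?_
  · rw [← cR_adj]; exact d1
  · intro A g1
    exact hC A g1 g1

theorem LNK3_holds (h1 : TR3) : LNK3 := by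
  intro A₀ hPf n m hnm hV3 D hV K
  have hD1 : 0 < (D3 n m).det := by
    have := hV3.1
    rw [cR_det] at this; exact_mod_cast this
  have hstep : RelG A₀ 1 1 (D3 n m) D := by
    refine relG_step hPf 1 1 (D3 n m) D (mul_one _) hV3 ?_
    rw [cR_one, Matrix.one_mul, Matrix.mul_one]
    exact hV
  obtain ⟨K1, hK1⟩ := connectU (D3 n m) hD1
  refine ((LNK3_first h1 A₀ n m hnm hV3 (max K K1)).and (hstep (max K K1))).mono ?_
  rintro A ⟨⟨W, W1, e1, e2, e3, e4, e5⟩, ⟨W2, W', k1, k2, k3, k4, k5⟩⟩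
  rw [Matrix.one_mul, Matrix.mul_one] at k2
  refine ⟨W, W', e1, k2, e3.mono (le_max_left _ _), k4.mono (le_max_left _ _), ?_⟩
  exact e5.trans ((hK1 W1 W2 (by rw [e2, k1]) (e4.mono (le_max_right _ _))
    (k3.mono (le_max_right _ _))).trans k5)

end Pool.Agent.H81SSE
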