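import Pool.Agent.H81SSE.W.Stm

/-!
# Stub MOV: two admissible lifts of one level are equivalent, if the rectangle is large
-/

set_option autoImplicit false

namespace Pool.Agent.H81SSE

open Matrix

/-- The basic move. -/
lemma mov_step (h : ADM) (a b c d n m x y i : ℤ) (hN : 1 ≤ n + m) (hi : 0 ≤ i) (hi' : i ≤ n + m)
    (h1 : Adm a b c d n m x y) (h2 : Adm a b c d n m (x + (i - n)) (y + 1)) :
    QQ (U3 n m * W3 a b c d n m x y) (U3 n m * W3 a b c d n m (x + (i - n)) (y + 1)) := by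
  have k1 := h a b c d n m x y hN h1
  have k2 := h a b c d n m (x + (i - n)) (y + 1) hN h2
  set X : Matrix (Fin 2) (Fin 4) ℤ :=
    !![a + x, b - n * (a + (x + (i - n))) - m * (x + (i - n)), x, i - n;
      c + y, d - n * (c + (y + 1)) - m * (y + 1), y, 1] with hX
  set α : Matrix (Fin 4) (Fin 3) ℤ := !![1, 0, 0; 0, 1, 0; 0, 0, 1; 0, n + m, 0] with hα
  set α' : Matrix (Fin 4) (Fin 3) ℤ := !![1, 0, 0; 0, 1, 0; 0, 0, 1; 1, 0, 1] with hα'
  have e1 : X * α = W3 a b c d n m x y := by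
    rw [hX, hα, W3]
    ext p q
    fin_cases p <;> fin_cases q <;>
      simp [Matrix.mul_apply, Fin.sum_univ_succ] <;> ring
  have e2 : X * α' = W3 a b c d n m (x + (i - n)) (y + 1) := by
    rw [hX, hα', W3]
    ext p q
    fin_cases p <;> fin_cases q <;>
      simp [Matrix.mul_apply, Fin.sum_univ_succ] <;> ring
  have e3 : α * U3 n m = α' * U3 n m := by
    rw [hα, hα', U3]
    ext p q
    fin_cases p <;> fin_cases q <;>
      simp [Matrix.mul_apply, Fin.sum_univ_succ]
  have n1 : NN α := by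
    rw [hα]
    intro p q
    fin_cases p <;> fin_cases q <;> simp <;> linarith
  have n2 : NN α' := by
    rw [hα']
    intro p q
    fin_cases p <;> fin_cases q <;> simp
  have n3 : NN (U3 n m * X) := by
    intro p q
    have q0 : q = 0 ∨ q = 1 ∨ q = 2 ∨ q = 3 := by
      fin_cases q <;> simp
    rcases q0 with rfl | rfl | rfl | rfl
    · have : (U3 n m * X) p 0 = (U3 n m * W3 a b c d n m x y) p 0 := by
        rw [Matrix.mul_apply, Matrix.mul_apply]
        simp [hX, W3, Fin.sum_univ_succ]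
      rw [this]; exact k1 p 0
    · have : (U3 n m * X) p 1 = (U3 n m * W3 a b c d n m (x + (i - n)) (y + 1)) p 1 := by
        rw [Matrix.mul_apply, Matrix.mul_apply]
        simp [hX, W3, Fin.sum_univ_succ]
      rw [this]; exact k2 p 1
    · have : (U3 n m * X) p 2 = (U3 n m * W3 a b c d n m x y) p 2 := by
        rw [Matrix.mul_apply, Matrix.mul_apply]
        simp [hX, W3, Fin.sum_univ_succ]
      rw [this]; exact k1 p 2
    · rw [Matrix.mul_apply]
      fin_cases p
      · simp [hX, U3, Fin.sum_univ_succ]; linarith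
      · simp [hX, U3, Fin.sum_univ_succ]
      · simp [hX, U3, Fin.sum_univ_succ]; linarith
  have key := bl (U3 n m) (U3 n m) X α α' n3 n3 n1 n2 e3
  rwa [Matrix.mul_assoc, Matrix.mul_assoc, e1, e2] at key

/-- Connectivity of a rectangle. -/
lemma mov_conn (N lo0 h0 lo1 h1 : ℤ) (hN : 1 ≤ N) (r1 : lo1 + 2 * N ≤ h1)
    (R : ℤ → ℤ → ℤ → ℤ → Prop)
    (hsymm : ∀ s y s' y', R s y s' y' → R s' y' s y)
    (htrans : ∀ s y s' y' s'' y'', R s y s' y' → R s' y' s'' y'' → R s y s'' y'')
    (hrefl : ∀ s y, lo0 ≤ s → s ≤ h0 → lo1 ≤ N * y - s → N * y - s ≤ h1 → R s y s y)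
    (hmove : ∀ s y i, 0 ≤ i → i ≤ N → lo0 ≤ s → s ≤ h0 → lo1 ≤ N * y - s → N * y - s ≤ h1 →
      lo0 ≤ s + i → s + i ≤ h0 → lo1 ≤ N * (y + 1) - (s + i) → N * (y + 1) - (s + i) ≤ h1 →
      R s y (s + i) (y + 1)) :
    ∀ s y s' y', lo0 ≤ s → s ≤ h0 → lo1 ≤ N * y - s → N * y - s ≤ h1 →
      lo0 ≤ s' → s' ≤ h0 → lo1 ≤ N * y' - s' → N * y' - s' ≤ h1 → R s y s' y' := by
  have A1 : ∀ y s, lo0 ≤ s → s + 1 ≤ h0 → lo1 ≤ N * y - (s + 1) → N * y - s ≤ h1 →
      R s y (s + 1) y := by
    intro y s g1 g2 g3 g4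
    by_cases hc : lo1 ≤ N * y - s - N
    · have ey : N * (y - 1) = N * y - N := by ring
      have ey' : y - 1 + 1 = y := by ring
      have m0 := hmove s (y - 1) 0 le_rfl (by omega) g1 (by omega) (by omega) (by omega)
        (by omega) (by omega) (by rw [ey']; omega) (by rw [ey']; omega)
      have m1 := hmove s (y - 1) 1 (by omega) (by omega) g1 (by omega) (by omega) (by omega)
        (by omega) (by omega) (by rw [ey']; omega) (by rw [ey']; omega)
      rw [ey', add_zero] at m0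
      rw [ey'] at m1
      exact htrans _ _ _ _ _ _ (hsymm _ _ _ _ m0) m1
    · have ey : N * (y + 1) = N * y + N := by ring
      have m1 := hmove s y 1 (by omega) (by omega) g1 (by omega) (by omega) (by omega)
        (by omega) (by omega) (by omega) (by omega)
      have m0 := hmove (s + 1) y 0 (by omega) (by omega) (by omega) (by omega) (by omega)
        (by omega) (by omega) (by omega) (by omega) (by omega)
      rw [add_zero] at m0
      exact htrans _ _ _ _ _ _ m1 (hsymm _ _ _ _ m0)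
  have A2 : ∀ (k : ℕ) y s, lo0 ≤ s → s + k ≤ h0 → lo1 ≤ N * y - (s + k) → N * y - s ≤ h1 →
      R s y (s + k) y := by
    intro k
    induction k with
    | zero =>
      intro y s g1 g2 g3 g4
      have := hrefl s y g1 (by simpa using g2) (by simpa using g3) g4
      simpa using this
    | succ k ih =>
      intro y s g1 g2 g3 g4
      push_cast at g2 g3 ⊢
      have i1 := ih y s g1 (by omega) (by omega) g4
      have i2 := A1 y (s + k) (by omega) (by omega) (by omega) (by omega)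
      have e : s + (k : ℤ) + 1 = s + (k + 1) := by ring
      rw [e] at i2
      exact htrans _ _ _ _ _ _ i1 i2
  have A3 : ∀ y s s', lo0 ≤ s → s ≤ h0 → lo1 ≤ N * y - s → N * y - s ≤ h1 →
      lo0 ≤ s' → s' ≤ h0 → lo1 ≤ N * y - s' → N * y - s' ≤ h1 → R s y s' y := by
    intro y s s' g1 g2 g3 g4 g5 g6 g7 g8
    rcases le_total s s' with hs | hs
    · obtain ⟨k, hk⟩ := Int.eq_ofNat_of_zero_le (sub_nonneg.mpr hs)
      have e : s' = s + (k : ℤ) := by
        have : s' - s = (k : ℤ) := hk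
        omega
      subst e
      exact A2 k y s g1 g6 g7 g4
    · obtain ⟨k, hk⟩ := Int.eq_ofNat_of_zero_le (sub_nonneg.mpr hs)
      have e : s = s' + (k : ℤ) := by
        have : s - s' = (k : ℤ) := hk
        omega
      subst e
      exact hsymm _ _ _ _ (A2 k y s' g5 g2 g3 g8)
  have A4 : ∀ (k : ℕ) y s s', lo0 ≤ s → s ≤ h0 → lo1 ≤ N * y - s → N * y - s ≤ h1 →
      lo0 ≤ s' → s' ≤ h0 → lo1 ≤ N * (y + k) - s' → N * (y + k) - s' ≤ h1 →
      R s y s' (y + k) := by
    intro k
    induction k with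
    | zero =>
      intro y s s' g1 g2 g3 g4 g5 g6 g7 g8
      have e : y + ((0 : ℕ) : ℤ) = y := by simp
      rw [e] at g7 g8 ⊢
      exact A3 y s s' g1 g2 g3 g4 g5 g6 g7 g8
    | succ k ih =>
      intro y s s' g1 g2 g3 g4 g5 g6 g7 g8
      have e : y + ((k + 1 : ℕ) : ℤ) = (y + 1) + k := by push_cast; ring
      rw [e] at g7 g8 ⊢
      have ey : N * (y + 1) = N * y + N := by ring
      have ek : N * (y + 1 + (k : ℤ)) = N * y + N + N * k := by ring
      have hk : 0 ≤ N * (k : ℤ) := mul_nonneg (by omega) (by omega)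
      -- a step upwards
      have : ∃ i, 0 ≤ i ∧ i ≤ N ∧ s + i ≤ h0 ∧ N * y + N - (s + i) ≤ h1 := by
        by_cases hc : N ≤ h0 - s
        · exact ⟨N, by omega, le_rfl, by omega, by omega⟩
        · exact ⟨h0 - s, by omega, by omega, by omega, by omega⟩
      obtain ⟨i, i1, i2, i3, i4⟩ := this
      have m1 := hmove s y i i1 i2 g1 g2 g3 g4 (by omega) i3 (by omega) (by omega)
      have m2 := ih (y + 1) (s + i) s' (by omega) i3 (by omega) (by omega) g5 g6 g7 g8
      exact htrans _ _ _ _ _ _ m1 m2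
  intro s y s' y' g1 g2 g3 g4 g5 g6 g7 g8
  rcases le_total y y' with hy | hy
  · obtain ⟨k, hk⟩ := Int.eq_ofNat_of_zero_le (sub_nonneg.mpr hy)
    have e : y' = y + (k : ℤ) := by
      have : y' - y = (k : ℤ) := hk
      omega
    subst e
    exact A4 k y s s' g1 g2 g3 g4 g5 g6 g7 g8
  · obtain ⟨k, hk⟩ := Int.eq_ofNat_of_zero_le (sub_nonneg.mpr hy)
    have e : y = y' + (k : ℤ) := by
      have : y - y' = (k : ℤ) := hk
      omega
    subst e
    exact hsymm _ _ _ _ (A4 k y' s' s g5 g6 g7 g8 g1 g2 g3 g4)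

/-- The stub MOV, from ADM. -/
theorem MOV_holds (h : ADM) : MOV := by
  intro a b c d n m x y x' y' hN hz hz' r1 r2 r3 r4
  set N : ℤ := n + m with hNd
  set β : ℤ := b - n * a + n * (d - n * c) with hβ
  set β' : ℤ := -(b - n * a) + m * (d - n * c) with hβ'
  set lo0 : ℤ := max 0 (-(a + n * c)) with hlo0
  set lo1 : ℤ := max 0 (a - m * c) with hlo1
  have hN0 : 0 < N := by omega
  -- admissibility in the new coordinates
  have adm : ∀ x y : ℤ, Adm a b c d n m x y ↔
      (lo0 ≤ x + n * y ∧ x + n * y ≤ β / N ∧ lo1 ≤ N * y - (x + n * y) ∧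
        N * y - (x + n * y) ≤ β' / N) := by
    intro x y
    have e : N * y - (x + n * y) = -x + m * y := by rw [hNd]; ring
    rw [e, Int.le_ediv_iff_mul_le hN0, Int.le_ediv_iff_mul_le hN0, hlo0, hlo1, max_le_iff,
      max_le_iff, Adm]
    constructor
    · rintro ⟨a1, a2, a3, a4, a5, a6⟩
      refine ⟨⟨a1, by linarith⟩, ?_, ⟨a2, by linarith⟩, ?_⟩
      · rw [mul_comm]; exact a5
      · rw [mul_comm]; exact a6
    · rintro ⟨⟨a1, a2⟩, a3, ⟨a4, a5⟩, a6⟩
      refine ⟨a1, a4, by linarith, by linarith, ?_, ?_⟩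
      · rw [mul_comm] at a3; exact a3
      · rw [mul_comm] at a6; exact a6
  have b1 : lo1 + 2 * N ≤ β' / N := by
    rw [Int.le_ediv_iff_mul_le hN0, mul_comm]
    rcases max_cases 0 (a - m * c) with ⟨hh, _⟩ | ⟨hh, _⟩
    · rw [hlo1, hh, zero_add]; exact r3
    · rw [hlo1, hh]; exact r4
  have key := mov_conn N lo0 (β / N) lo1 (β' / N) hN b1
    (fun s y s' y' => QQ (U3 n m * W3 a b c d n m (s - n * y) y)
      (U3 n m * W3 a b c d n m (s' - n * y') y'))
    (fun s y s' y' hq => hq.symm)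
    (fun s y s' y' s'' y'' hq hq' => hq.trans hq')
    (fun s y g1 g2 g3 g4 => by
      refine QQ.refl _ (h a b c d n m (s - n * y) y hN ((adm _ _).mpr ?_))
      have e : s - n * y + n * y = s := by ring
      rw [e]
      exact ⟨g1, g2, g3, g4⟩)
    (fun s y i i1 i2 g1 g2 g3 g4 g5 g6 g7 g8 => by
      have e1 : s + i - n * (y + 1) = s - n * y + (i - n) := by ring
      simp only [e1]
      refine mov_step h a b c d n m (s - n * y) y i hN i1 i2 ((adm _ _).mpr ?_)
        ((adm _ _).mpr ?_)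
      · have e : s - n * y + n * y = s := by ring
        rw [e]
        exact ⟨g1, g2, g3, g4⟩
      · have e : s - n * y + (i - n) + n * (y + 1) = s + i := by ring
        rw [e]
        exact ⟨g5, g6, g7, g8⟩)
  obtain ⟨p1, p2, p3, p4⟩ := (adm x y).mp hz
  obtain ⟨q1, q2, q3, q4⟩ := (adm x' y').mp hz'
  have fin := key (x + n * y) y (x' + n * y') y' p1 p2 p3 p4 q1 q2 q3 q4
  have e1 : x + n * y - n * y = x := by ring
  have e2 : x' + n * y' - n * y' = x' := by ring
  simp only [e1, e2] at fin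
  exact fin

end Pool.Agent.H81SSE
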