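import Pool.Agent.H81SSE.W.Stm3

/-!
# Project W: the net
-/

set_option autoImplicit false
set_option linter.unusedSectionVars false

namespace Pool.Agent.H81SSE

open Matrix

lemma net_cR_hat (M : M2Z) : cR (hat M) = hatR (cR M) := by
  unfold hat hatR
  rw [cR_mul, cR_mul]
  congr 2

lemma net_hatR_smul (a : ℝ) (M : M2R) : hatR (a • M) = a • hatR M := by
  unfold hatR
  rw [Matrix.transpose_smul, Matrix.mul_smul, Matrix.smul_mul]

lemma net_hatR_cont : Continuous hatR := by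
  unfold hatR
  exact (continuous_const.matrix_mul continuous_id.matrix_transpose).matrix_mul continuous_const

lemma net_D3_det (n m : ℤ) : (D3 n m).det = n + m := by
  unfold D3
  rw [Matrix.det_fin_two_of]
  ring

theorem NET_holds (h1 : LNK3) (h2 : TT) (h3 : CON3) : NET := by
  classical
  intro k n₀ C hk5 hn₀ hC1
  have hk : 0 < k := by linarith
  have hC := isCompact_Cset k
  have hbox : ∀ A ∈ Cset k, ∃ (D : M2Z) (r : ℝ), 0 < r ∧
      ∀ B : M2R, (∀ i j, |B i j - A i j| ≤ r) → Val B (cR D) :=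
    fun A hA => exists_val_box (Cset_pf hk hA)
  choose! D r hr hval using hbox
  obtain ⟨t, ht, hcover⟩ := hC.elim_nhds_subcover
    (fun A => {B : M2R | ∀ i j, |B i j - A i j| < r A}) (by
      intro A hA
      have hopen : IsOpen {B : M2R | ∀ i j, |B i j - A i j| < r A} := by
        simp only [Set.ofPred_forall]
        refine isOpen_iInter_of_finite fun i => isOpen_iInter_of_finite fun j => ?_
        exact isOpen_lt (((continuous_id.matrix_elem i j).sub continuous_const).abs)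
          continuous_const
      refine hopen.mem_nhds ?_
      intro i j
      simpa using hr A hA)
  have hDdet : ∀ c ∈ t, 0 < (D c).det := by
    intro c hc
    have h := (hval c (ht c hc) c (by intro i j; simpa using (hr c (ht c hc)).le)).1
    rw [cR_det] at h; exact_mod_cast h
  have hKc : ∀ c ∈ t, ∃ K : ℤ, ∀ W W' : Matrix (Fin 2) (Fin 2 ⊕ (Fin 2 ⊕ Fin 2)) ℤ,
      W * UU (D c) = W' * UU (D c) → GE K (UU (D c) * W) → GE K (UU (D c) * W') →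
      QQ (UU (D c) * W) (UU (D c) * W') := fun c hc => connectU (D c) (hDdet c hc)
  choose! Kc hKc using hKc
  obtain ⟨K1, hK1⟩ := connectU (1 : M2Z) (by simp)
  have hKm : ∀ m ∈ Finset.Icc (1 : ℤ) C, ∃ K : ℤ, ∀ W W' : Matrix (Fin 2) (Fin 3) ℤ,
      W * U3 n₀ m = W' * U3 n₀ m → GE K (U3 n₀ m * W) → GE K (U3 n₀ m * W') →
      QQ (U3 n₀ m * W) (U3 n₀ m * W') := by
    intro m hm
    rw [Finset.mem_Icc] at hm
    exact h3 n₀ m (by omega)
  choose! Km hKm using hKm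
  set K : ℤ := max (max 0 K1) (max (∑ c ∈ t, |Kc c|) (∑ m ∈ Finset.Icc (1 : ℤ) C, |Km m|))
    with hKdef
  have hKK : ∀ c ∈ t, Kc c ≤ K := by
    intro c hc
    have h3 : |Kc c| ≤ ∑ c ∈ t, |Kc c| :=
      Finset.single_le_sum (f := fun c => |Kc c|) (fun _ _ => abs_nonneg _) hc
    exact (le_abs_self _).trans (h3.trans ((le_max_left _ _).trans (le_max_right _ _)))
  have hKKm : ∀ m ∈ Finset.Icc (1 : ℤ) C, Km m ≤ K := by
    intro m hm
    have h3 : |Km m| ≤ ∑ m ∈ Finset.Icc (1 : ℤ) C, |Km m| :=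
      Finset.single_le_sum (f := fun m => |Km m|) (fun _ _ => abs_nonneg _) hm
    exact (le_abs_self _).trans (h3.trans ((le_max_right _ _).trans (le_max_right _ _)))
  have hK1K : K1 ≤ K := (le_max_right _ _).trans (le_max_left _ _)
  have hK0 : 0 ≤ K := (le_max_left _ _).trans (le_max_left _ _)
  obtain ⟨C1, hC1'⟩ := endU (1 : M2Z) (by simp) K
  -- compact pieces
  have hclosed : ∀ (c : M2R) (ρ : ℝ) (f : M2R → M2R), Continuous f →
      IsClosed {B : M2R | ∀ i j, |f B i j - c i j| ≤ ρ} := by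
    intro c ρ f hf
    simp only [Set.ofPred_forall]
    refine isClosed_iInter fun i => isClosed_iInter fun j => ?_
    exact isClosed_le (((hf.matrix_elem i j).sub continuous_const).abs) continuous_const
  have hposf : ∀ (a : ℝ) (f : M2R → M2R), Continuous f →
      IsClosed {B : M2R | ∀ i j, a ≤ f B i j} := by
    intro a f hf
    simp only [Set.ofPred_forall]
    refine isClosed_iInter fun i => isClosed_iInter fun j => ?_
    exact isClosed_le continuous_const (hf.matrix_elem i j)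
  have hpos : IsClosed {B : M2R | ∀ i j, 1 / k ≤ B i j} := hposf (1 / k) id continuous_id
  -- positive directions
  have hval1 : ∀ A : M2R, (∀ i j, 1 / k ≤ A i j) → Val A (cR (1 : M2Z)) := by
    intro A hA
    rw [cR_one]
    refine ⟨by simp, ?_⟩
    intro i j
    rw [Matrix.adjugate_one, Matrix.one_mul, Matrix.mul_one]
    exact lt_of_lt_of_le (by positivity) (hA i j)
  have hP1 : ∃ T : ℝ, ∀ τ, T ≤ τ → ∀ c ∈ t, ∀ c' ∈ t,
      ∀ g ∈ ({!![1, 1; 0, 1], !![1, 0; 1, 1], sw, 1} : Finset M2Z), ∀ M : M2Z,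
      τ⁻¹ • cR M ∈ Cset k → (∀ i j, |(τ⁻¹ • cR M) i j - c i j| ≤ r c) →
      (∀ i j, |(τ⁻¹ • cR (uinv g * M * g)) i j - c' i j| ≤ r c') →
      ∃ W W' : Matrix (Fin 2) (Fin 2 ⊕ (Fin 2 ⊕ Fin 2)) ℤ, W * UU (D c) = M ∧
        W' * UU (D c') = uinv g * M * g ∧ GE K (UU (D c) * W) ∧ GE K (UU (D c') * W') ∧
        QQ (UU (D c) * W) (UU (D c') * W') := by
    refine fin_unif t _ fun c hc => fin_unif t _ fun c' hc' => fin_unif _ _ fun g hg => ?_
    have hgd : g.det = 1 ∨ g.det = -1 := by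
      simp only [Finset.mem_insert, Finset.mem_singleton] at hg
      rcases hg with rfl | rfl | rfl | rfl
      · left; rw [Matrix.det_fin_two_of]; norm_num
      · left; rw [Matrix.det_fin_two_of]; norm_num
      · right; unfold sw; rw [Matrix.det_fin_two_of]; norm_num
      · left; simp
    have hcomp : IsCompact (Cset k ∩ ({B : M2R | ∀ i j, |B i j - c i j| ≤ r c} ∩
          {B : M2R | ∀ i j, |(cR (uinv g) * B * cR g) i j - c' i j| ≤ r c'})) := by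
        refine hC.of_isClosed_subset ?_ Set.inter_subset_left
        refine (isClosed_Cset k).inter ((hclosed c (r c) id continuous_id).inter
          (hclosed c' (r c') (fun B => cR (uinv g) * B * cR g)
            ((continuous_const.matrix_mul continuous_id).matrix_mul continuous_const)))
    obtain ⟨T, hT0, hT⟩ := compact_ev _ hcomp
        (fun M => ∃ W W' : Matrix (Fin 2) (Fin 2 ⊕ (Fin 2 ⊕ Fin 2)) ℤ, W * UU (D c) = M ∧
          W' * UU (D c') = uinv g * M * g ∧ GE K (UU (D c) * W) ∧ GE K (UU (D c') * W') ∧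
          QQ (UU (D c) * W) (UU (D c') * W')) (by
        rintro A₀ ⟨hA1, hA2, hA3⟩
        exact relG_step (Cset_pf hk hA1) g (uinv g) (D c) (D c') (mul_uinv hgd)
          (hval c (ht c hc) A₀ hA2) (hval c' (ht c' hc') _ hA3) K)
    refine ⟨T, fun τ hτ M e1 e2 e3 => hT τ hτ M ⟨e1, e2, ?_⟩⟩
    have e : cR (uinv g) * (τ⁻¹ • cR M) * cR g = τ⁻¹ • cR (uinv g * M * g) := by
      rw [cR_mul3, Matrix.mul_smul, Matrix.smul_mul]
    simp only [Set.mem_ofPred_eq]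
    rw [e]
    exact e3
  have hP2 : ∃ T : ℝ, ∀ τ, T ≤ τ → ∀ c ∈ t, ∀ M : M2Z,
      τ⁻¹ • cR M ∈ Cset k → (∀ i j, 1 / k ≤ (τ⁻¹ • cR M) i j) →
      (∀ i j, |(τ⁻¹ • cR M) i j - c i j| ≤ r c) →
      ∃ W W' : Matrix (Fin 2) (Fin 2 ⊕ (Fin 2 ⊕ Fin 2)) ℤ, W * UU (1 : M2Z) = M ∧
        W' * UU (D c) = M ∧ GE K (UU (1 : M2Z) * W) ∧ GE K (UU (D c) * W') ∧
        QQ (UU (1 : M2Z) * W) (UU (D c) * W') := by
    refine fin_unif t _ fun c hc => ?_
    have hcomp : IsCompact (Cset k ∩ ({B : M2R | ∀ i j, 1 / k ≤ B i j} ∩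
        {B : M2R | ∀ i j, |B i j - c i j| ≤ r c})) := by
      refine hC.of_isClosed_subset ?_ Set.inter_subset_left
      exact (isClosed_Cset k).inter (hpos.inter (hclosed c (r c) id continuous_id))
    obtain ⟨T, hT0, hT⟩ := compact_ev _ hcomp
      (fun M => ∃ W W' : Matrix (Fin 2) (Fin 2 ⊕ (Fin 2 ⊕ Fin 2)) ℤ, W * UU (1 : M2Z) = M ∧
        W' * UU (D c) = M ∧ GE K (UU (1 : M2Z) * W) ∧ GE K (UU (D c) * W') ∧
        QQ (UU (1 : M2Z) * W) (UU (D c) * W')) (by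
      rintro A₀ ⟨hA1, hA2, hA3⟩
      have h1 := relG_step (Cset_pf hk hA1) 1 1 1 (D c) (mul_one _)
        (hval1 A₀ hA2) (by
          rw [cR_one, Matrix.one_mul, Matrix.mul_one]
          exact hval c (ht c hc) A₀ hA3) K
      refine h1.mono ?_
      rintro M ⟨W, W', w1, w2, w3, w4, w5⟩
      rw [Matrix.one_mul, Matrix.mul_one] at w2
      exact ⟨W, W', w1, w2, w3, w4, w5⟩)
    exact ⟨T, fun τ hτ M h1 h2 h3 => hT τ hτ M ⟨h1, h2, h3⟩⟩
  have hP3 : ∃ T : ℝ, ∀ τ, T ≤ τ → ∀ M : M2Z,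
      τ⁻¹ • cR M ∈ Cset k → (∀ i j, 1 / k ≤ (τ⁻¹ • cR M) i j) →
      ∃ W : Matrix (Fin 2) (Fin 2 ⊕ (Fin 2 ⊕ Fin 2)) ℤ, W * UU (1 : M2Z) = M ∧
        GE K (UU (1 : M2Z) * W) ∧ QQ M (UU (1 : M2Z) * W) := by
    have hcomp : IsCompact (Cset k ∩ {B : M2R | ∀ i j, 1 / k ≤ B i j}) := by
      refine hC.of_isClosed_subset ?_ Set.inter_subset_left
      exact (isClosed_Cset k).inter hpos
    obtain ⟨T, hT0, hT⟩ := compact_ev _ hcomp
      (fun M => GE C1 ((1 : M2Z).adjugate * M * 1)) (by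
      rintro A₀ ⟨hA1, hA2⟩
      refine Ev.big A₀ _ _ ?_ C1
      rw [← cR_adj]
      exact (hval1 A₀ hA2).2)
    refine ⟨T, fun τ hτ M h1 h2 => ?_⟩
    obtain ⟨-, W, w1, w2, w3⟩ := hC1' M (hT τ hτ M ⟨h1, h2⟩)
    rw [Matrix.adjugate_one, Matrix.one_mul, Matrix.mul_one] at w3
    exact ⟨W, w1, w2, w3⟩
  have hP4 : ∃ T : ℝ, ∀ τ, T ≤ τ → ∀ c ∈ t, ∀ m ∈ Finset.Icc (1 : ℤ) C, ∀ M : M2Z,
      τ⁻¹ • cR M ∈ Cset k → (∀ i j, |(τ⁻¹ • cR M) i j - c i j| ≤ r c) →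
      (∀ i j, 1 / 20 ≤ (cR (D3 n₀ m).adjugate * (τ⁻¹ • cR M) * cR (D3 n₀ m)) i j) →
      ∃ (W : Matrix (Fin 2) (Fin 3) ℤ) (W' : Matrix (Fin 2) (Fin 2 ⊕ (Fin 2 ⊕ Fin 2)) ℤ),
        W * U3 n₀ m = M ∧ W' * UU (D c) = M ∧ GE K (U3 n₀ m * W) ∧ GE K (UU (D c) * W') ∧
        QQ (U3 n₀ m * W) (UU (D c) * W') := by
    refine fin_unif t _ fun c hc => fin_unif _ _ fun m hm => ?_
    rw [Finset.mem_Icc] at hm
    have hcomp : IsCompact (Cset k ∩ ({B : M2R | ∀ i j, |B i j - c i j| ≤ r c} ∩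
        {B : M2R | ∀ i j, 1 / 20 ≤ (cR (D3 n₀ m).adjugate * B * cR (D3 n₀ m)) i j})) := by
      refine hC.of_isClosed_subset ?_ Set.inter_subset_left
      refine (isClosed_Cset k).inter ((hclosed c (r c) id continuous_id).inter
        (hposf (1 / 20) (fun B => cR (D3 n₀ m).adjugate * B * cR (D3 n₀ m))
          ((continuous_const.matrix_mul continuous_id).matrix_mul continuous_const)))
    obtain ⟨T, hT0, hT⟩ := compact_ev _ hcomp
      (fun M => ∃ (W : Matrix (Fin 2) (Fin 3) ℤ) (W' : Matrix (Fin 2) (Fin 2 ⊕ (Fin 2 ⊕ Fin 2)) ℤ),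
        W * U3 n₀ m = M ∧ W' * UU (D c) = M ∧ GE K (U3 n₀ m * W) ∧ GE K (UU (D c) * W') ∧
        QQ (U3 n₀ m * W) (UU (D c) * W')) (by
      rintro A₀ ⟨hA1, hA2, hA3⟩
      refine h1 A₀ (Cset_pf hk hA1) n₀ m (by omega) ⟨?_, ?_⟩ (D c) (hval c (ht c hc) A₀ hA2) K
      · rw [cR_det, net_D3_det]
        have : 0 < n₀ + m := by omega
        exact_mod_cast this
      · intro i j
        rw [cR_adj]
        exact lt_of_lt_of_le (by norm_num) (hA3 i j))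
    exact ⟨T, fun τ hτ M e1 e2 e3 => hT τ hτ M ⟨e1, e2, e3⟩⟩
  have hP5 : ∃ T : ℝ, ∀ τ, T ≤ τ → ∀ c ∈ t, ∀ c' ∈ t, ∀ M : M2Z, τ⁻¹ • cR M ∈ Cset k →
      (∀ i j, |(τ⁻¹ • cR M) i j - c i j| ≤ r c) →
      (∀ i j, |(τ⁻¹ • cR (hat M)) i j - c' i j| ≤ r c') →
      ∃ W W' : Matrix (Fin 2) (Fin 2 ⊕ (Fin 2 ⊕ Fin 2)) ℤ, W * UU (D c) = M ∧
        W' * UU (D c') = hat M ∧ GE K (UU (D c) * W) ∧ GE K (UU (D c') * W') ∧
        QQ (UU (D c) * W) ((UU (D c') * W')ᵀ) := by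
    refine fin_unif t _ fun c hc => fin_unif t _ fun c' hc' => ?_
    have hcomp : IsCompact (Cset k ∩ ({B : M2R | ∀ i j, |B i j - c i j| ≤ r c} ∩
        {B : M2R | ∀ i j, |hatR B i j - c' i j| ≤ r c'})) := by
      refine hC.of_isClosed_subset ?_ Set.inter_subset_left
      refine (isClosed_Cset k).inter ((hclosed c (r c) id continuous_id).inter
        (hclosed c' (r c') hatR net_hatR_cont))
    obtain ⟨T, hT0, hT⟩ := compact_ev _ hcomp
      (fun M => ∃ W W' : Matrix (Fin 2) (Fin 2 ⊕ (Fin 2 ⊕ Fin 2)) ℤ, W * UU (D c) = M ∧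
        W' * UU (D c') = hat M ∧ GE K (UU (D c) * W) ∧ GE K (UU (D c') * W') ∧
        QQ (UU (D c) * W) ((UU (D c') * W')ᵀ)) (by
      rintro A₀ ⟨hA1, hA2, hA3⟩
      exact h2 A₀ (Cset_pf hk hA1) (D c) (D c') (hval c (ht c hc) A₀ hA2)
        (hval c' (ht c' hc') _ hA3) K)
    refine ⟨T, fun τ hτ M e1 e2 e3 => hT τ hτ M ⟨e1, e2, ?_⟩⟩
    simp only [Set.mem_ofPred_eq]
    rw [net_hatR_smul, ← net_cR_hat]
    exact e3
  obtain ⟨T1, hT1⟩ := hP1
  obtain ⟨T2, hT2⟩ := hP2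
  obtain ⟨T3, hT3⟩ := hP3
  obtain ⟨T4, hT4⟩ := hP4
  obtain ⟨T5, hT5⟩ := hP5
  have hbig : ∀ τ, max 1 (max T1 (max T2 (max T3 (max T4 T5)))) ≤ τ →
      T1 ≤ τ ∧ T2 ≤ τ ∧ T3 ≤ τ ∧ T4 ≤ τ ∧ T5 ≤ τ := by
    intro τ hτ
    simp only [max_le_iff] at hτ
    exact ⟨hτ.2.1, hτ.2.2.1, hτ.2.2.2.1, hτ.2.2.2.2.1, hτ.2.2.2.2.2⟩
  refine ⟨t, D, r, K, max 1 (max T1 (max T2 (max T3 (max T4 T5)))), by positivity, hK0,
    ?_, ?_, ?_, ?_, ?_, ?_, ?_⟩
  · intro A hA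
    have h := hcover hA
    simp only [Set.mem_iUnion, Set.mem_ofPred_eq] at h
    obtain ⟨c, hc, h2⟩ := h
    exact ⟨c, hc, fun i j => (h2 i j).le⟩
  · intro c hc W W' h1 h2 h3
    exact hKc c hc W W' h1 (h2.mono (hKK c hc)) (h3.mono (hKK c hc))
  · intro m hm1 hm2 W W' e1 e2 e3
    have hm : m ∈ Finset.Icc (1 : ℤ) C := by rw [Finset.mem_Icc]; exact ⟨hm1, hm2⟩
    exact hKm m hm W W' e1 (e2.mono (hKKm m hm)) (e3.mono (hKKm m hm))
  · intro τ hτ c hc c' hc' g hg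
    refine hT1 τ (hbig τ hτ).1 c hc c' hc' g ?_
    simp only [Finset.mem_insert, Finset.mem_singleton]
    exact hg
  · intro τ hτ c hc M e1 e2 e3
    obtain ⟨W, W', w1, w2, w3, w4, w5⟩ := hT2 τ (hbig τ hτ).2.1 c hc M e1 e2 e3
    obtain ⟨V, v1, v2, v3⟩ := hT3 τ (hbig τ hτ).2.2.1 M e1 e2
    refine ⟨W', w2, w4, v3.trans ((hK1 V W ?_ (v2.mono hK1K) (w3.mono hK1K)).trans w5)⟩
    rw [v1, w1]
  · intro τ hτ c hc m hm1 hm2
    have hm : m ∈ Finset.Icc (1 : ℤ) C := by rw [Finset.mem_Icc]; exact ⟨hm1, hm2⟩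
    exact hT4 τ (hbig τ hτ).2.2.2.1 c hc m hm
  · intro τ hτ
    exact hT5 τ (hbig τ hτ).2.2.2.2

end Pool.Agent.H81SSE
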