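import Pool.Agent.H81SSE.W.Stm

/-!
# SWP: simultaneous permutation of rows and columns
-/

set_option autoImplicit false

namespace Pool.Agent.H81SSE

open Matrix

theorem SWP_holds : SWP := by
  intro a b c d ha hb hc hd
  have h := QQ.elem (!![0, 1; 1, 0] : M2Z) (!![c, d; a, b] : M2Z)
    (by intro i j; fin_cases i <;> fin_cases j <;> simp)
    (by intro i j; fin_cases i <;> fin_cases j <;> simp [ha, hb, hc, hd])
  have h1 : (!![0, 1; 1, 0] : M2Z) * (!![c, d; a, b] : M2Z) = !![a, b; c, d] := by
    ext i j; fin_cases i <;> fin_cases j <;> simp [Matrix.mul_apply, Fin.sum_univ_two]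
  have h2 : (!![c, d; a, b] : M2Z) * (!![0, 1; 1, 0] : M2Z) = !![d, c; b, a] := by
    ext i j; fin_cases i <;> fin_cases j <;> simp [Matrix.mul_apply, Fin.sum_univ_two]
  rw [h1, h2] at h
  exact h

end Pool.Agent.H81SSE
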