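import Pool.Agent.H81SSE.W.Stm

set_option autoImplicit false

namespace Pool.Agent.H81SSE

open Matrix

theorem TOP_holds : TOP := by
  intro a b c d n m hnm ⟨_, _, h3, h4, h5, h6⟩
  set R : Matrix (Fin 3) (Fin 2) ℤ :=
    !![a + n * c, b - n * a + n * (d - n * c); c, d - n * c;
      -a + m * c, -(b - n * a) + m * (d - n * c)] with hR
  set S : Matrix (Fin 2) (Fin 3) ℤ := !![1, 0, 0; 0, 1, 0] with hS
  have e1 : R * S = U3 n m * W3 a b c d n m 0 0 := by
    ext i j
    fin_cases i <;> fin_cases j <;>
      simp [hR, hS, U3, W3, Matrix.mul_apply, Fin.sum_univ_succ] <;> ring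
  have e2 : S * R = !![a + n * c, b - n * a + n * (d - n * c); c, d - n * c] := by
    ext i j
    fin_cases i <;> fin_cases j <;>
      simp [hR, hS, Matrix.mul_apply, Fin.sum_univ_succ]
  have hc : 0 ≤ c := by
    by_contra hc
    push Not at hc
    have : (n + m) * c < 0 := mul_neg_of_pos_of_neg (by linarith) hc
    nlinarith
  have hd : 0 ≤ d - n * c := by
    by_contra hd
    push Not at hd
    have : (n + m) * (d - n * c) < 0 := mul_neg_of_pos_of_neg (by linarith) hd
    nlinarith
  have hRn : NN R := by
    intro i j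
    fin_cases i <;> fin_cases j <;> simp [hR] <;> nlinarith
  have hSn : NN S := by
    intro i j
    fin_cases i <;> fin_cases j <;> simp [hS]
  have := QQ.elem R S hRn hSn
  rw [e1, e2] at this
  exact this.symm

end Pool.Agent.H81SSE
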