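import Pool.Agent.H81SSE.W.Stm3

set_option autoImplicit false
set_option linter.unusedSectionVars false

namespace Pool.Agent.H81SSE

open Matrix

lemma U3_ge (n m : ℤ) (h : 1 ≤ n + m) (E : M2Z) (hE : GE 1 ((D3 n m).adjugate * E)) :
    GE 1 (U3 n m * E) := by
  have e : (D3 n m).adjugate = !![1, n; -1, m] := by
    unfold D3
    rw [Matrix.adjugate_fin_two_of]
    simp
  rw [e] at hE
  intro i j
  have h0 := hE 0 j
  have h1 := hE 1 j
  simp only [Matrix.mul_apply, Fin.sum_univ_two, Matrix.of_apply, Matrix.cons_val', Matrix.cons_val_zero,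
    Matrix.cons_val_one, Matrix.cons_val_fin_one] at h0 h1
  have h2 : (n + m) * E 1 j ≥ 2 := by linarith
  have h3 : 1 ≤ E 1 j := by
    by_contra hcon
    push Not at hcon
    have : E 1 j ≤ 0 := by omega
    have := mul_nonpos_of_nonneg_of_nonpos (by linarith : (0:ℤ) ≤ n + m) this
    linarith
  fin_cases i
  · simp [U3, Matrix.mul_apply, Fin.sum_univ_two]
    linarith
  · simp [U3, Matrix.mul_apply, Fin.sum_univ_two]
    linarith
  · simp [U3, Matrix.mul_apply, Fin.sum_univ_two]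
    linarith

theorem TR3_holds (hEX : EX3) : TR3 := by
  intro m1 m2 D2 E y hnm h2 hE k1 k2 y1 y2 K
  obtain ⟨c1, hc1⟩ := hEX m1 m2 hnm (max K 0)
  obtain ⟨c2, hc2⟩ := ex D2 h2 (max K 0)
  obtain ⟨d1, hd11, hd1⟩ := exists_bd (D3 m1 m2)
  obtain ⟨d2, hd21, hd2⟩ := exists_bd D2
  obtain ⟨u1, hu11, hu1⟩ := exists_bd (U3 m1 m2)
  obtain ⟨u2, hu21, hu2⟩ := exists_bd (UU D2)
  obtain ⟨y0, hy01, hy0⟩ := exists_bd y
  obtain ⟨q, hq1, hq⟩ := exists_bd E.adjugate
  set d : ℤ := max d1 d2 with hd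
  have hd1' : ∀ i j, |D3 m1 m2 i j| ≤ d := fun i j => (hd1 i j).trans (le_max_left _ _)
  have hd2' : ∀ i j, |D2 i j| ≤ d := fun i j => (hd2 i j).trans (le_max_right _ _)
  have hd0 : 1 ≤ d := hd11.trans (le_max_left _ _)
  set N0 : ℤ := max u1 u2 with hN0
  have hN01 : 1 ≤ N0 := hu11.trans (le_max_left _ _)
  set c : ℤ := max (max c1 c2) 0 with hc
  have hc0 : 0 ≤ c := le_max_right _ _
  have hcc1 : c1 ≤ c := (le_max_left _ _).trans (le_max_left _ _)
  have hcc2 : c2 ≤ c := (le_max_right _ _).trans (le_max_left _ _)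
  set ν : ℤ := (Fintype.card (Fin 2) : ℤ) with hν
  have hν0 : 0 ≤ ν := by rw [hν]; exact Int.natCast_nonneg _
  set M : ℤ := E.det with hM
  set s : ℤ := c + ν * (M * d) with hs
  have hs0 : 0 ≤ s := by positivity
  set f : ℤ := M + s * y0 with hf
  have hf0 : 0 ≤ f := by positivity
  set g : ℤ := ν * (ν * (1 * f) * d) with hg
  have hg0 : 0 ≤ g := by positivity
  set g' : ℤ := ν * (ν * (q * f) * d) with hg'
  have hg'0 : 0 ≤ g' := by positivity
  refine ⟨M * (c + N0 * g) + g', ?_⟩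
  intro A hA1 hA2
  set A' : Matrix (Fin 2) (Fin 2) ℤ := Matrix.of fun i j => (A i j - s * y i j) / M with hA'
  set V : Matrix (Fin 2) (Fin 2) ℤ := Matrix.of fun i j => (A i j - s * y i j) % M with hV
  set F : Matrix (Fin 2) (Fin 2) ℤ := V + s • y with hF
  have eA : A = M • A' + F := by
    ext i j
    simp only [hA', hF, hV, Matrix.add_apply, Matrix.smul_apply, Matrix.of_apply, smul_eq_mul]
    have := Int.emod_add_mul_ediv (A i j - s * y i j) M
    linarith
  have hV0 : ∀ i j, 0 ≤ V i j := fun i j => Int.emod_nonneg _ hE.ne'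
  have hVM : ∀ i j, V i j ≤ M := fun i j => (Int.emod_lt_of_pos _ hE).le
  have hVabs : ∀ i j, |V i j| ≤ M := fun i j => by rw [abs_of_nonneg (hV0 i j)]; exact hVM i j
  have hFabs : ∀ i j, |F i j| ≤ f := by
    intro i j
    simp only [hF, Matrix.add_apply, Matrix.smul_apply, smul_eq_mul]
    refine (abs_add_le _ _).trans ?_
    rw [abs_mul, abs_of_nonneg hs0]
    exact add_le_add (hVabs i j) (mul_le_mul_of_nonneg_left (hy0 i j) hs0)
  -- the rows of `F`
  have hFD : ∀ D : Matrix (Fin 2) (Fin 2) ℤ, (∀ i j, |D i j| ≤ d) → GE 1 (y * D) → GE c (F * D) := by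
    intro D hDd hyD i j
    have e1 : (F * D) i j = (V * D) i j + s * (y * D) i j := by
      rw [hF, Matrix.add_mul, Matrix.smul_mul]; rfl
    have e2 : |(V * D) i j| ≤ ν * (M * d) := abs_mul_le hVabs hDd i j
    have e3 := (abs_le.mp e2).1
    have e4 : s * 1 ≤ s * (y * D) i j := mul_le_mul_of_nonneg_left (hyD i j) hs0
    rw [e1]; linarith
  -- the rows of the first block
  set B : Matrix (Fin 2) (Fin 2) ℤ := E.adjugate * A' - N0 • (Jn (Fin 2) * F) with hB
  have hBD : ∀ D : Matrix (Fin 2) (Fin 2) ℤ, (∀ i j, |D i j| ≤ d) →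
      GE (M * (c + N0 * g) + g') (E.adjugate * A * D) → GE c (B * D) := by
    intro D hDd hAD i j
    have e1 : (E.adjugate * A * D) i j = M * (E.adjugate * A' * D) i j +
        (E.adjugate * F * D) i j := by
      rw [eA, Matrix.mul_add, Matrix.add_mul, Matrix.mul_smul, Matrix.smul_mul]; rfl
    have e2 : |(E.adjugate * F * D) i j| ≤ g' :=
      abs_mul_le (abs_mul_le' hq hFabs) hDd i j
    have e3 : |(Jn (Fin 2) * F * D) i j| ≤ g :=
      abs_mul_le (abs_mul_le' (fun i j => by simp [Jn]) hFabs) hDd i j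
    have e4 : (B * D) i j = (E.adjugate * A' * D) i j - N0 * (Jn (Fin 2) * F * D) i j := by
      rw [hB, Matrix.sub_mul, Matrix.smul_mul]; rfl
    have e5 := hAD i j
    rw [e1] at e5
    have e6 := (abs_le.mp e2).2
    have e7 := (abs_le.mp e3).2
    have e8 : M * (c + N0 * g) ≤ M * (E.adjugate * A' * D) i j := by linarith
    have e9 := le_of_mul_le_mul_left e8 hE
    have e10 : N0 * (Jn (Fin 2) * F * D) i j ≤ N0 * g := mul_le_mul_of_nonneg_left e7 (by linarith)
    rw [e4]; linarith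
  set Y : Matrix (Fin 2 ⊕ Fin 2) (Fin 2) ℤ := Matrix.fromRows B F with hY
  have hYD : ∀ D : Matrix (Fin 2) (Fin 2) ℤ, (∀ i j, |D i j| ≤ d) → GE 1 (y * D) →
      GE (M * (c + N0 * g) + g') (E.adjugate * A * D) → GE c (Y * D) := by
    intro D hDd hyD hAD
    rw [hY, Matrix.fromRows_mul]
    rintro (i | i) j
    · exact hBD D hDd hAD i j
    · exact hFD D hDd hyD i j
  obtain ⟨α1, ha1, he1⟩ := hc1 Y ((hYD (D3 m1 m2) hd1' y1 hA1).mono hcc1)
  obtain ⟨α2, ha2, he2⟩ := hc2 Y ((hYD D2 hd2' y2 hA2).mono hcc2)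
  set X : Matrix (Fin 2) (Fin 2 ⊕ Fin 2) ℤ := Matrix.fromCols E (N0 • (E * Jn (Fin 2)) + 1) with hX
  have hXY : X * Y = A := by
    rw [hX, hY, Matrix.fromCols_mul_fromRows, hB, Matrix.mul_sub, ← Matrix.mul_assoc,
      Matrix.mul_adjugate, Matrix.smul_mul, Matrix.one_mul, Matrix.add_mul, Matrix.one_mul,
      Matrix.mul_smul, Matrix.smul_mul, Matrix.mul_assoc, eA]
    abel
  have hUX : ∀ {a : Type} (U : Matrix a (Fin 2) ℤ), GE 1 (U * E) →
      (∀ i j, |U i j| ≤ N0) → RP (U * X) := by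
    intro a U g1 hu
    have g2 : NN (U * (N0 • (E * Jn (Fin 2)) + 1)) := by
      intro i j
      rw [Matrix.mul_add, Matrix.mul_one, Matrix.mul_smul, ← Matrix.mul_assoc]
      simp only [Matrix.add_apply, Matrix.smul_apply, smul_eq_mul]
      have g3 : 1 ≤ (U * E * Jn (Fin 2)) i j := by
        rw [Matrix.mul_apply]
        obtain ⟨k⟩ := (inferInstance : Nonempty (Fin 2))
        have g4 : (U * E) i k * Jn (Fin 2) k j ≤ ∑ l, (U * E) i l * Jn (Fin 2) l j :=
          Finset.single_le_sum (f := fun l => (U * E) i l * Jn (Fin 2) l j)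
            (fun l _ => mul_nonneg ((by norm_num : (0:ℤ) ≤ 1).trans (g1 i l))
              (by simp [Jn])) (Finset.mem_univ k)
        have g5 := g1 i k
        simp only [Jn, Matrix.of_apply, mul_one] at g4 ⊢
        linarith
      have g6 := (abs_le.mp (hu i j)).1
      nlinarith
    rw [hX, Matrix.mul_fromCols]
    refine ⟨(g1.nn (by norm_num)).fromCols g2, ?_⟩
    intro i
    obtain ⟨k⟩ := (inferInstance : Nonempty (Fin 2))
    exact ⟨Sum.inl k, g1 i k⟩
  have r1 := hUX (U3 m1 m2) (U3_ge m1 m2 hnm E k1) (fun i j => (hu1 i j).trans (le_max_left _ _))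
  have r2 := hUX (UU D2) (U_ge D2 h2 E k2) (fun i j => (hu2 i j).trans (le_max_right _ _))
  refine ⟨X * α1, X * α2, ?_, ?_, ?_, ?_, ?_⟩
  · rw [Matrix.mul_assoc, he1, hXY]
  · rw [Matrix.mul_assoc, he2, hXY]
  · rw [← Matrix.mul_assoc]
    exact (r1.mul_ge ha1 (le_max_right _ _)).mono (le_max_left _ _)
  · rw [← Matrix.mul_assoc]
    exact (r2.mul_ge ha2 (le_max_right _ _)).mono (le_max_left _ _)
  · rw [← Matrix.mul_assoc, ← Matrix.mul_assoc]
    exact bl _ _ X α1 α2 r1.1 r2.1 (ha1.nn (le_max_right _ _)) (ha2.nn (le_max_right _ _))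
      (by rw [he1, he2])


end Pool.Agent.H81SSE
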