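import Pool.Agent.H81SSE.W.Stm

set_option autoImplicit false

namespace Pool.Agent.H81SSE

open Matrix

/-- The transpose of a square matrix of any size. -/
def tp (X : Σ n : ℕ, Matrix (Fin n) (Fin n) ℕ) : Σ n : ℕ, Matrix (Fin n) (Fin n) ℕ :=
  ⟨X.1, X.2ᵀ⟩

lemma elem_tp {X Y : Σ n : ℕ, Matrix (Fin n) (Fin n) ℕ} (h : Elem X Y) :
    Elem (tp X) (tp Y) := by
  obtain ⟨R, S, h1, h2⟩ := h
  refine ⟨Sᵀ, Rᵀ, ?_, ?_⟩
  · show X.2ᵀ = Sᵀ * Rᵀ
    rw [h1, Matrix.transpose_mul]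
  · show Y.2ᵀ = Rᵀ * Sᵀ
    rw [h2, Matrix.transpose_mul]

lemma transGen_tp {X Y : Σ n : ℕ, Matrix (Fin n) (Fin n) ℕ} (h : Relation.TransGen Elem X Y) :
    Relation.TransGen Elem (tp X) (tp Y) := by
  induction h with
  | single h => exact Relation.TransGen.single (elem_tp h)
  | tail _ h2 ih => exact Relation.TransGen.tail ih (elem_tp h2)

theorem TRA_holds : TRA := fun _ _ _ _ _ _ h => transGen_tp h

end Pool.Agent.H81SSE
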