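import Pool.Agent.H81SSE.W.Stm

set_option autoImplicit false

namespace Pool.Agent.H81SSE

open Matrix

theorem TRN_holds : TRN := by
  intro a b c d n m n' m' x y hn hm hN
  set T : Matrix (Fin 3) (Fin 3) ℤ := !![1, n - n', 0; 0, 1, 0; 0, m - m', 1] with hT
  have e1 : T * U3 n' m' = U3 n m := by
    ext i j
    fin_cases i <;> fin_cases j <;>
      simp [hT, U3, Matrix.mul_apply, Fin.sum_univ_succ]
  have e2 : W3 a b c d n m x y * T = W3 a b c d n' m' x y := by
    ext i j
    fin_cases i <;> fin_cases j <;>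
      simp [hT, W3, Matrix.mul_apply, Fin.sum_univ_succ] <;> ring
  have hTn : NN T := by
    intro i j
    fin_cases i <;> fin_cases j <;> simp [hT] <;> linarith
  have := QQ.elem T (U3 n' m' * W3 a b c d n m x y) hTn hN
  rw [← Matrix.mul_assoc, e1, Matrix.mul_assoc (U3 n' m'), e2] at this
  exact this

end Pool.Agent.H81SSE
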