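import Pool.Agent.H81SSE.W.Stm2

/-!
# TRS: transport of the parameter from level `n` to level `n + 1`
-/

set_option autoImplicit false

namespace Pool.Agent.H81SSE

open Matrix

theorem TRS_holds (h1 : G12) (h2 : G4) (h3 : IDS) : TRS := by
  intro q a b c d n X Y Δ ν hD hL hL' hA hW
  obtain ⟨hm1, hm2, hm3, hm4, hm5⟩ := h1 q _ Δ ν c n hL
  obtain ⟨hm1', hm2', hm3', hm4', hm5'⟩ := h1 q _ Δ ν c (n + 1) hL'
  obtain ⟨hg1, hg2⟩ := h2 q _ Δ ν c n hL hL'
  generalize hm : mm Δ ν c n = m at *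
  generalize hm' : mm Δ ν c (n + 1) = m' at *
  obtain ⟨i1, i2, i3, i4, i5⟩ := h3 a b c d n m Δ ν hD
  obtain ⟨j1, j2, j3, j4, j5⟩ := h3 a b c d (n + 1) m' Δ ν hD
  obtain ⟨q5, τ0, τΔ, Δq, c0, c100, ν0, nq, hy⟩ := hL
  obtain ⟨-, -, -, -, -, -, -, nq', hy'⟩ := hL'
  obtain ⟨a1, a2, a3, a4, a5, a6⟩ := hA
  obtain ⟨w1, w2, w3, w4⟩ := hW
  have a1r : ((0 : ℤ) : ℝ) ≤ ((X + n * Y : ℤ) : ℝ) := Int.cast_le.mpr a1
  have a2r : ((0 : ℤ) : ℝ) ≤ ((-X + m * Y : ℤ) : ℝ) := Int.cast_le.mpr a2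
  have a3r : ((0 : ℤ) : ℝ) ≤ (((a + n * c) + (X + n * Y) : ℤ) : ℝ) := Int.cast_le.mpr a3
  have a4r : ((0 : ℤ) : ℝ) ≤ (((-a + m * c) + (-X + m * Y) : ℤ) : ℝ) := Int.cast_le.mpr a4
  have hmm : (m : ℝ) ≤ m' := by exact_mod_cast hg1
  have hm1r : (1 : ℝ) ≤ m := by exact_mod_cast hm2
  have hm1r' : (1 : ℝ) ≤ m' := by exact_mod_cast hm2'
  simp only [yv] at hy hy' hm3 hm3' w1 w2
  push_cast at i1 i2 i3 i4 i5 j1 j2 j3 j4 j5 w1 w2 w3 w4 a1r a2r a3r a4r hm3' hm4' hy' nq' hg2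
  -- abbreviations
  obtain ⟨τ, hτ⟩ : ∃ τ : ℝ, τ = (a : ℝ) + d := ⟨_, rfl⟩
  obtain ⟨y, hyd⟩ : ∃ y : ℝ, y = Δ / 2 - c * (n + ν) := ⟨_, rfl⟩
  obtain ⟨s, hs⟩ : ∃ s : ℝ, s = (X : ℝ) + n * Y := ⟨_, rfl⟩
  obtain ⟨t, ht⟩ : ∃ t : ℝ, t = -(X : ℝ) + m * Y := ⟨_, rfl⟩
  obtain ⟨N, hN⟩ : ∃ N : ℝ, N = (n : ℝ) + m := ⟨_, rfl⟩
  have hy2 : Δ / 2 - (c : ℝ) * (n + 1 + ν) = y - c := by rw [hyd]; ring
  rw [hy2] at hy' hm3'
  rw [← hyd] at hy hm3 w1 w2
  rw [← hs] at w1 w2 a1r a3r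
  rw [← ht] at w3 w4 a2r a4r
  rw [← hN] at hm3 hm4 w4
  rw [← hτ] at i1 i2 i4 i5 j1 j2 j4 j5 τ0 τΔ Δq c100 hy hy' hm3 hm3' hm4 hm4' hm5 hm5' w1 w2 w3 w4
  have q0 : 0 < q := by linarith
  have q2 : 0 < q ^ 2 := by positivity
  have q3 : 0 < q ^ 3 := by positivity
  have n0 : (0 : ℝ) < n := by linarith
  have hNn : 100 * q ^ 3 ≤ N := by rw [hN]; linarith
  have hNpos : 0 < N := by linarith
  have hx0 : 0 < (c : ℝ) * (n + ν) := mul_pos c0 (by linarith)
  have hyq : y ≤ q * τ / 2 := by rw [hyd]; linarith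
  have hNY : N * Y = s + t := by rw [hN, hs, ht]; ring
  have hY0 : (0 : ℝ) ≤ Y := by
    by_contra hneg
    have h4 : N * Y < 0 := mul_neg_of_pos_of_neg hNpos (not_le.mp hneg)
    linarith
  have hqτ : τ ≤ q * τ / 5 := by nlinarith
  have hst : s + t ≤ q * τ := by linarith
  have hYq : 100 * q ^ 2 * Y ≤ τ := by
    have h4 : 100 * q ^ 3 * Y ≤ N * Y := mul_le_mul_of_nonneg_right hNn hY0
    have h5 : q * (100 * q ^ 2 * Y) ≤ q * τ := by
      calc q * (100 * q ^ 2 * Y) = 100 * q ^ 3 * Y := by ring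
        _ ≤ N * Y := h4
        _ ≤ q * τ := by rw [hNY]; exact hst
    exact le_of_mul_le_mul_left h5 q0
  have hq25 : 25 ≤ q ^ 2 := by nlinarith
  have hY2 : (Y : ℝ) ≤ τ / 2500 := by
    have h4 : 25 * (100 * (Y : ℝ)) ≤ q ^ 2 * (100 * Y) :=
      mul_le_mul_of_nonneg_right hq25 (by positivity)
    linarith
  have hmd : ((m' : ℝ) - m) * Y ≤ τ / 10 := by
    have h4 : ((m' : ℝ) - m) * Y ≤ 10 * q ^ 2 * Y :=
      mul_le_mul_of_nonneg_right (by linarith) hY0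
    linarith
  have hmd0 : 0 ≤ ((m' : ℝ) - m) * Y := mul_nonneg (by linarith) hY0
  have hmc0 : 0 ≤ ((m' : ℝ) - m) * c := mul_nonneg (by linarith) c0.le
  have hN'pos : 0 < (n : ℝ) + 1 + m' := by linarith
  -- the two large inequalities
  have hs0 : 0 ≤ s := a1r
  have ht0 : 0 ≤ t := a2r
  have e1 : ((m' : ℝ) - m) * s ≤ 5 * q ^ 3 * τ := by
    have h4 : ((m' : ℝ) - m) * s ≤ 10 * q ^ 2 * s :=
      mul_le_mul_of_nonneg_right (by linarith) hs0
    have h5 : 10 * q ^ 2 * s ≤ 10 * q ^ 2 * (q * τ / 2) :=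
      mul_le_mul_of_nonneg_left (by linarith) (by positivity)
    calc _ ≤ _ := h4
      _ ≤ _ := h5
      _ = 5 * q ^ 3 * τ := by ring
  have e2 : ((m' : ℝ) - m) * t ≤ 5 / 2 * q ^ 2 * τ := by
    have h4 : ((m' : ℝ) - m) * t ≤ 10 * q ^ 2 * t :=
      mul_le_mul_of_nonneg_right (by linarith) ht0
    have h5 : 10 * q ^ 2 * t ≤ 10 * q ^ 2 * (τ / 4) :=
      mul_le_mul_of_nonneg_left w3 (by positivity)
    calc _ ≤ _ := h4
      _ ≤ _ := h5
      _ = 5 / 2 * q ^ 2 * τ := by ring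
  have e3 : 100 * q ^ 3 * τ ≤ N * τ := mul_le_mul_of_nonneg_right hNn τ0.le
  have e4 : N * s ≤ N * (y - τ / 12) := mul_le_mul_of_nonneg_left w1 hNpos.le
  have e5 : N * t ≤ N * (τ / 4) := mul_le_mul_of_nonneg_left w3 hNpos.le
  have e6 : q ^ 2 * τ * 5 ≤ q ^ 3 * τ := by
    have h4 : q ^ 2 * τ * 5 ≤ q ^ 2 * τ * q := mul_le_mul_of_nonneg_left q5 (by positivity)
    calc _ ≤ _ := h4
      _ = q ^ 3 * τ := by ring
  have e7 : q * τ * 5 ≤ q ^ 2 * τ := by
    have h4 : q * τ * 5 ≤ q * τ * q := mul_le_mul_of_nonneg_left q5 (by positivity)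
    calc _ ≤ _ := h4
      _ = q ^ 2 * τ := by ring
  have hrow0 : 0 ≤ ((b : ℝ) - n * a + n * (d - n * c)) - (a + n * c) - (n + 1 + m') * s := by
    rw [i3, i1]
    have h4 : (n + 1 + m') * s = N * s + s + ((m' : ℝ) - m) * s := by rw [hN]; ring
    rw [h4]
    have h5 : (c : ℝ) * (n + ν) = Δ / 2 - y := by rw [hyd]; ring
    have h6 : N * (y - τ / 100) = N * y - N * τ / 100 := by ring
    have h7 : N * (y - τ / 12) = N * y - N * τ / 12 := by ring
    rw [h6] at hm3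
    rw [h7] at e4
    linarith
  have hrow2 : 0 ≤ (-((b : ℝ) - n * a) + m * (d - n * c)) - (-a + m * c) - (n + 1 + m') * t := by
    rw [i4, i5]
    have h4 : (n + 1 + m') * t = N * t + t + ((m' : ℝ) - m) * t := by rw [hN]; ring
    rw [h4]
    have h6 : N * (τ / 2) = N * τ / 2 := by ring
    have h7 : N * (τ / 4) = N * τ / 4 := by ring
    rw [h6] at hm4
    rw [h7] at e5
    have h8 : 2 * q ^ 2 * τ = 2 * (q ^ 2 * τ) := by ring
    have h9 : 5 / 2 * q ^ 2 * τ = 5 / 2 * (q ^ 2 * τ) := by ring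
    have h10 : 100 * q ^ 3 * τ = 100 * (q ^ 3 * τ) := by ring
    linarith
  constructor
  · refine ⟨?_, ?_, ?_, ?_, ?_, ?_⟩
    · have h4 : (0 : ℝ) ≤ ((X + (n + 1) * Y : ℤ) : ℝ) := by
        push_cast
        have : (X : ℝ) + (n + 1) * Y = s + Y := by rw [hs]; ring
        rw [this]; linarith
      exact_mod_cast h4
    · have h4 : (0 : ℝ) ≤ ((-X + m' * Y : ℤ) : ℝ) := by
        push_cast
        have : -(X : ℝ) + m' * Y = t + ((m' : ℝ) - m) * Y := by rw [ht]; ring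
        rw [this]; linarith
      exact_mod_cast h4
    · have h4 : (0 : ℝ) ≤ (((a + (n + 1) * c) + (X + (n + 1) * Y) : ℤ) : ℝ) := by
        push_cast
        have : (a : ℝ) + (n + 1) * c + (X + (n + 1) * Y) = (a + n * c + s) + c + Y := by
          rw [hs]; ring
        rw [this]; linarith
      exact_mod_cast h4
    · have h4 : (0 : ℝ) ≤ (((-a + m' * c) + (-X + m' * Y) : ℤ) : ℝ) := by
        push_cast
        have : -(a : ℝ) + m' * c + (-X + m' * Y) =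
            (-a + m * c + t) + ((m' : ℝ) - m) * c + ((m' : ℝ) - m) * Y := by
          rw [ht]; ring
        rw [this]; linarith
      exact_mod_cast h4
    · have h4 : (((n + 1 + m') * (X + (n + 1) * Y) : ℤ) : ℝ) ≤
          ((b - (n + 1) * a + (n + 1) * (d - (n + 1) * c) : ℤ) : ℝ) := by
        push_cast
        rw [j3]
        refine le_trans ?_ hm3'
        refine mul_le_mul_of_nonneg_left ?_ hN'pos.le
        have : (X : ℝ) + (n + 1) * Y = s + Y := by rw [hs]; ring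
        rw [this]; linarith
      exact_mod_cast h4
    · have h4 : (((n + 1 + m') * (-X + m' * Y) : ℤ) : ℝ) ≤
          ((-(b - (n + 1) * a) + m' * (d - (n + 1) * c) : ℤ) : ℝ) := by
        push_cast
        rw [j4]
        refine le_trans ?_ hm4'
        refine mul_le_mul_of_nonneg_left ?_ hN'pos.le
        have : -(X : ℝ) + m' * Y = t + ((m' : ℝ) - m) * Y := by rw [ht]; ring
        rw [this]; linarith
      exact_mod_cast h4
  · have hr0 : (0 : ℤ) ≤ (b - n * a + n * (d - n * c)) - (a + n * c) -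
        (n + 1 + m') * (X + n * Y) := by
      have h4 : ((0 : ℤ) : ℝ) ≤ (((b - n * a + n * (d - n * c)) - (a + n * c) -
        (n + 1 + m') * (X + n * Y) : ℤ) : ℝ) := by
        push_cast
        rw [← hs]
        exact hrow0
      exact_mod_cast h4
    have hr2 : (0 : ℤ) ≤ (-(b - n * a) + m * (d - n * c)) - (-a + m * c) -
        (n + 1 + m') * (-X + m * Y) := by
      have h4 : ((0 : ℤ) : ℝ) ≤ (((-(b - n * a) + m * (d - n * c)) - (-a + m * c) -
        (n + 1 + m') * (-X + m * Y) : ℤ) : ℝ) := by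
        push_cast
        rw [← ht]
        exact hrow2
      exact_mod_cast h4
    have hYz : 0 ≤ Y := by exact_mod_cast hY0
    have hcz : 0 < c := by exact_mod_cast c0
    have hNz : 0 < n + m := by
      have : (0 : ℝ) < ((n + m : ℤ) : ℝ) := by push_cast; rw [← hN]; exact hNpos
      exact_mod_cast this
    have hr1 : 0 ≤ d - (n + 1) * (c + Y) - m' * Y := by
      have h4 : 0 ≤ (n + m) * (d - (n + 1) * (c + Y) - m' * Y) := by
        have h5 : (n + m) * (d - (n + 1) * (c + Y) - m' * Y) =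
            ((b - n * a + n * (d - n * c)) - (a + n * c) - (n + 1 + m') * (X + n * Y)) +
            ((-(b - n * a) + m * (d - n * c)) - (-a + m * c) - (n + 1 + m') * (-X + m * Y)) := by
          ring
        rw [h5]
        exact add_nonneg hr0 hr2
      exact nonneg_of_mul_nonneg_right h4 hNz
    intro i j
    fin_cases i <;> fin_cases j <;>
      simp [U3, W3, Matrix.mul_apply, Fin.sum_univ_two]
    · linarith
    · linarith
    · linarith
    · linarith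
    · linarith
    · linarith
    · linarith
    · linarith
    · linarith

end Pool.Agent.H81SSE
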