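import Pool.Agent.H81SSE.W.Stm3

set_option autoImplicit false

namespace Pool.Agent.H81SSE

open Matrix

theorem TT_holds (h1 : TTD) (h2 : TRA) (h3 : HTA) (h4 : EVH) : TT := by
  intro A₀ hA₀ D D' hD hD' K
  obtain ⟨-, -, -, a4, -, a6, a7, a8, a9, a10, a11⟩ := h3
  have hDdet : 0 < D.det := by
    have := hD.1
    rw [cR_det] at this; exact_mod_cast this
  -- the direction `hatR A₀`
  have hP : Pf (hatR A₀) := by
    unfold Pf
    rw [a8, a9]
    exact hA₀
  have hdet1 : (hat D.adjugate).det = D.det := by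
    rw [a4, Matrix.det_adjugate, Fintype.card_fin]
    simp
  have hadj1 : D.adjugate.adjugate = D := by
    have := Matrix.adjugate_adjugate D (by simp)
    simpa using this
  have hV : Val (hatR A₀) (cR (hat D.adjugate)) := by
    constructor
    · rw [cR_det, hdet1]
      exact_mod_cast hDdet
    · have e1 : (cR (hat D.adjugate)).adjugate = hatR (cR D) := by
        rw [cR_adj, a6, hadj1, a7]
      have e2 : cR (hat D.adjugate) = hatR ((cR D).adjugate) := by
        rw [a7, cR_adj]
      rw [e1, e2, ← a11, ← a11]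
      apply a10
      rw [← Matrix.mul_assoc]
      exact hD.2
  have hR : RelG (hatR A₀) 1 1 (hat D.adjugate) D' := by
    refine relG_step hP 1 1 _ D' (by simp) hV ?_
    rw [cR_one, Matrix.one_mul, Matrix.mul_one]
    exact hD'
  obtain ⟨K1, hK1⟩ := connectU (hat D.adjugate) (by rw [hdet1]; exact hDdet)
  refine ((h1 A₀ hA₀ D hD (max K K1)).and (h4 A₀ _ (hR (max K K1)))).mono ?_
  rintro A ⟨⟨W, W1, w1, w2, w3, w4, w5⟩, ⟨W2, W', v1, v2, v3, v4, v5⟩⟩
  refine ⟨W, W', w1, ?_, w3.mono (le_max_left _ _), v4.mono (le_max_left _ _), ?_⟩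
  · rw [v2, Matrix.one_mul, Matrix.mul_one]
  · have h5 : QQ (UU (hat D.adjugate) * W1) (UU (hat D.adjugate) * W2) :=
      hK1 W1 W2 (by rw [w2, v1]) (w4.mono (le_max_right _ _)) (v3.mono (le_max_right _ _))
    exact w5.trans (h2 _ _ _ _ (h5.trans v5))

end Pool.Agent.H81SSE
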