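import Pool.Agent.H81SSE.W.Stm3

/-!
# Stub TTD of project W (proof by helper85)
-/

set_option autoImplicit false
set_option linter.unusedSectionVars false

namespace Pool.Agent.H81SSE

open Matrix

namespace TTDaux

lemma sw_sw : sw * sw = (1 : M2Z) := by
  ext i j
  fin_cases i <;> fin_cases j <;> simp [sw, Matrix.mul_apply, Fin.sum_univ_two]

lemma ge_mul_sw {α : Type} {c : ℤ} {M : Matrix α (Fin 2) ℤ} (h : GE c M) : GE c (M * sw) := by
  intro i j
  rw [Matrix.mul_apply, Fin.sum_univ_two]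
  fin_cases j
  · simpa [sw] using h i 1
  · simpa [sw] using h i 0

lemma ge_sw_mul {α : Type} {c : ℤ} {M : Matrix (Fin 2) α ℤ} (h : GE c M) : GE c (sw * M) := by
  intro i j
  rw [Matrix.mul_apply, Fin.sum_univ_two]
  fin_cases i
  · simpa [sw] using h 1 j
  · simpa [sw] using h 0 j

lemma rp_of_ge {α β : Type} [Nonempty β] {M : Matrix α β ℤ} (h : GE 1 M) : RP M := by
  refine ⟨h.nn (by norm_num), fun i => ?_⟩
  obtain ⟨j⟩ := (inferInstance : Nonempty β)
  exact ⟨j, h i j⟩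

end TTDaux

open TTDaux

theorem TTD_holds (h1 : FAC) (h2 : TRA) (h3 : HTA) : TTD := by
  intro A₀ _ D hD K
  obtain ⟨-, -, -, hdet, -, hadj, -, -, -, -, -⟩ := h3
  obtain ⟨G, hGO, hG⟩ := exists_good_inner A₀ (cR D) hD.1 hD.2 Set.univ isOpen_univ trivial
  obtain ⟨E, hE1⟩ := exists_int {G | Good A₀ (cR D) G} (isOpen_good_right _ _)
    (fun M hM t ht => Good.smul_right hM ht) G hG
  obtain ⟨a1, b1, c1, d1⟩ := hE1
  have hDd : 0 < D.det := by rw [cR_det] at a1; exact_mod_cast a1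
  have hE : 0 < E.det := by rw [cR_det] at b1; exact_mod_cast b1
  have k1 : GE 1 (D.adjugate * E) := by
    apply ge_one_of_pos
    rw [cR_mul, ← cR_adj]; exact c1
  obtain ⟨A1, hA1⟩ := exists_int
    {A : Matrix (Fin 2) (Fin 2) ℝ | ∀ i j : Fin 2, 0 < ((cR E).adjugate * A * cR D) i j}
    (by
      simp only [Set.ofPred_forall]
      refine isOpen_iInter_of_finite fun i => isOpen_iInter_of_finite fun j => ?_
      exact isOpen_lt continuous_const
        (((continuous_const.matrix_mul continuous_id).matrix_mul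
          continuous_const).matrix_elem i j))
    (by
      intro M hM1 t ht i j
      rw [Matrix.mul_smul, Matrix.smul_mul, Matrix.smul_apply, smul_eq_mul]
      exact mul_pos ht (hM1 i j)) A₀ d1
  have y1 : GE 1 (E.adjugate * A1 * D) := by
    apply ge_one_of_pos
    rw [cR_mul, cR_mul, ← cR_adj]; exact hA1
  set D' : M2Z := hat D.adjugate with hD'
  have hD'det : 0 < D'.det := by
    rw [hD', hdet, Matrix.det_adjugate]
    simpa using hDd
  have hD'adj : D'.adjugate = hat D := by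
    rw [hD', hadj, Matrix.adjugate_adjugate' D]
    simp
  obtain ⟨e1, he1⟩ := ex D hDd (max K 0)
  obtain ⟨e2, he2⟩ := ex D' hD'det (max K 0)
  obtain ⟨C, hC⟩ := h1 D E (E.adjugate * A1) hDd hE k1 y1 (max 1 (max e1 e2)) (le_max_left _ _)
  refine (Ev.big A₀ E.adjugate D (by rw [← cR_adj]; exact d1) C).mono ?_
  intro A hA
  obtain ⟨X, Y, hXY, hX, hY⟩ := hC A hA
  obtain ⟨α, ha, hae⟩ := he1 Y (hY.mono ((le_max_left _ _).trans (le_max_right _ _)))
  set X' : Matrix (Fin 2) (Fin 2 ⊕ Fin 2) ℤ := sw * Yᵀ with hX'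
  set Y' : Matrix (Fin 2 ⊕ Fin 2) (Fin 2) ℤ := Xᵀ * sw with hY'
  have hX'Y' : X' * Y' = hat A := by
    rw [hX', hY', hat, ← hXY, Matrix.transpose_mul]
    simp only [Matrix.mul_assoc]
  have hY'X' : Y' * X' = (Y * X)ᵀ := by
    rw [hX', hY', Matrix.transpose_mul, Matrix.mul_assoc, ← Matrix.mul_assoc sw, sw_sw,
      Matrix.one_mul]
  have hY'D : Y' * D' = (D.adjugate * X)ᵀ * sw := by
    rw [hY', hD', hat, Matrix.transpose_mul, Matrix.mul_assoc Xᵀ sw, ← Matrix.mul_assoc sw,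
      ← Matrix.mul_assoc sw, sw_sw, Matrix.one_mul, ← Matrix.mul_assoc]
  have hDX' : D'.adjugate * X' = sw * (Y * D)ᵀ := by
    rw [hD'adj, hX', hat, Matrix.transpose_mul, Matrix.mul_assoc, Matrix.mul_assoc,
      ← Matrix.mul_assoc sw sw, sw_sw, Matrix.one_mul]
  have hXt : GE (max 1 (max e1 e2)) ((D.adjugate * X)ᵀ) := fun i j => hX j i
  have hYt : GE (max 1 (max e1 e2)) ((Y * D)ᵀ) := fun i j => hY j i
  obtain ⟨α', ha', hae'⟩ := he2 Y' (by
    rw [hY'D]
    exact (ge_mul_sw hXt).mono ((le_max_right _ _).trans (le_max_right _ _)))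
  have r1 : RP (UU D * X) := rp_of_ge (U_ge D hDd X (hX.mono (le_max_left _ _)))
  have r2 : RP (UU D' * X') := rp_of_ge (U_ge D' hD'det X' (by
    rw [hDX']
    exact (ge_sw_mul hYt).mono (le_max_left _ _)))
  refine ⟨X * α, X' * α', ?_, ?_, ?_, ?_, ?_⟩
  · rw [Matrix.mul_assoc, hae, hXY]
  · rw [Matrix.mul_assoc, hae', hX'Y']
  · rw [← Matrix.mul_assoc]
    exact (r1.mul_ge ha (le_max_right _ _)).mono (le_max_left _ _)
  · rw [← Matrix.mul_assoc]
    exact (r2.mul_ge ha' (le_max_right _ _)).mono (le_max_left _ _)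
  · have q1 : QQ (UU D * X * α) (Y * X) := by
      have := QQ.elem (UU D * X) α r1.1 (ha.nn (le_max_right _ _))
      rwa [← Matrix.mul_assoc α (UU D) X, hae] at this
    have q2 : QQ (UU D' * X' * α') ((Y * X)ᵀ) := by
      have := QQ.elem (UU D' * X') α' r2.1 (ha'.nn (le_max_right _ _))
      rwa [← Matrix.mul_assoc α' (UU D') X', hae', hY'X'] at this
    have q3 := h2 _ _ _ _ q2
    rw [Matrix.transpose_transpose] at q3
    rw [← Matrix.mul_assoc, ← Matrix.mul_assoc]
    exact q1.trans q3.symm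

end Pool.Agent.H81SSE
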