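import Pool.Agent.H81SSE.W.Stm

set_option autoImplicit false

namespace Pool.Agent.H81SSE

open Matrix

theorem W3U_holds : W3U := by
  intro a b c d n m x y
  ext i j
  fin_cases i <;> fin_cases j <;> simp [W3, U3, Matrix.mul_apply, Fin.sum_univ_three] <;> ring

end Pool.Agent.H81SSE
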