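import Pool.Agent.H81SSE.W.Stm2

/-! Stub ZCH of project W. -/

set_option autoImplicit false

namespace Pool.Agent.H81SSE

theorem ZCH_holds : ZCH := by
  intro N S T hN
  refine ⟨⌊S⌋, ⌊T⌋ - (⌊S⌋ + ⌊T⌋) % N, ?_, Int.floor_le S, Int.lt_floor_add_one S, ?_, ?_⟩
  · have h1 := Int.emod_add_mul_ediv (⌊S⌋ + ⌊T⌋) N
    refine ⟨(⌊S⌋ + ⌊T⌋) / N, ?_⟩
    linarith
  · have h1 : 0 ≤ (⌊S⌋ + ⌊T⌋) % N := Int.emod_nonneg _ (by omega)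
    have h2 : ((⌊T⌋ - (⌊S⌋ + ⌊T⌋) % N : ℤ) : ℝ) ≤ (⌊T⌋ : ℝ) := by
      exact_mod_cast (by omega : ⌊T⌋ - (⌊S⌋ + ⌊T⌋) % N ≤ ⌊T⌋)
    exact h2.trans (Int.floor_le T)
  · have h1 : (⌊S⌋ + ⌊T⌋) % N < N := Int.emod_lt_of_pos _ (by omega)
    have h2 : ((⌊T⌋ : ℤ) : ℝ) ≤ ((⌊T⌋ - (⌊S⌋ + ⌊T⌋) % N + N : ℤ) : ℝ) := by
      exact_mod_cast (by omega : ⌊T⌋ ≤ ⌊T⌋ - (⌊S⌋ + ⌊T⌋) % N + N)
    have h3 := Int.lt_floor_add_one T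
    push_cast at h2 ⊢
    linarith

end Pool.Agent.H81SSE
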