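import Pool.Agent.H81SSE.W.Glob3
import Pool.Agent.H81SSE.W.ADM
import Pool.Agent.H81SSE.W.BOT
import Pool.Agent.H81SSE.W.CHN
import Pool.Agent.H81SSE.W.CON3
import Pool.Agent.H81SSE.W.CRS
import Pool.Agent.H81SSE.W.DAT
import Pool.Agent.H81SSE.W.EST
import Pool.Agent.H81SSE.W.EVH
import Pool.Agent.H81SSE.W.EX3
import Pool.Agent.H81SSE.W.FAC
import Pool.Agent.H81SSE.W.G12
import Pool.Agent.H81SSE.W.G3
import Pool.Agent.H81SSE.W.G4
import Pool.Agent.H81SSE.W.HTA
import Pool.Agent.H81SSE.W.IDS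
import Pool.Agent.H81SSE.W.LEV
import Pool.Agent.H81SSE.W.LNK3
import Pool.Agent.H81SSE.W.MOV
import Pool.Agent.H81SSE.W.NET
import Pool.Agent.H81SSE.W.SWP
import Pool.Agent.H81SSE.W.TOP
import Pool.Agent.H81SSE.W.TR3
import Pool.Agent.H81SSE.W.TRA
import Pool.Agent.H81SSE.W.TRN
import Pool.Agent.H81SSE.W.TRS
import Pool.Agent.H81SSE.W.TT
import Pool.Agent.H81SSE.W.TTD
import Pool.Agent.H81SSE.W.W3U
import Pool.Agent.H81SSE.W.ZCH

/-!
# Project W: the final theorem over the integers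
-/

set_option autoImplicit false

namespace Pool.Agent.H81SSE

theorem WTH_holds : WTH :=
  have hLEV : LEV := LEV_holds G12_holds ZCH_holds IDS_holds
  have hTRS : TRS := TRS_holds G12_holds G4_holds IDS_holds
  have hBOT : BOT := BOT_holds G12_holds IDS_holds
  have hEST : EST := EST_holds G3_holds G4_holds DAT_holds IDS_holds hLEV hTRS hBOT
  have hCRS : CRS := CRS_holds (MOV_holds ADM_holds) TRN_holds TOP_holds
  have hTTD : TTD := TTD_holds FAC_holds TRA_holds HTA_holds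
  have hNET : NET := NET_holds (LNK3_holds (TR3_holds EX3_holds))
    (TT_holds hTTD TRA_holds HTA_holds EVH_holds) CON3_holds
  glob hEST hCRS W3U_holds hNET TRA_holds SWP_holds CHN_holds

end Pool.Agent.H81SSE
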