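import Pool.Agent.H81SSE.W.Stm

/-!
# Project W, second batch: the estimates

Real numbers: `τ` the trace, `Δ` the difference of the eigenvalues, `ν` the slope of the Perron
vector, `p = n + ν`, `x = c p`, `y = Δ / 2 - x`, `φ = p Δ / (2 y)`, `m = ⌈ν + φ⌉`, `q = m - ν`
(so `φ ≤ q < φ + 1`), `N = n + m = p + q`. Note `p + φ = p (Δ - x) / y` as
`Δ - x = (Δ + 2 y) / 2`.
-/

set_option autoImplicit false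

namespace Pool.Agent.H81SSE

open Matrix

noncomputable def yv (Δ ν c : ℝ) (n : ℤ) : ℝ := Δ / 2 - c * (n + ν)
noncomputable def ph (Δ ν c : ℝ) (n : ℤ) : ℝ := (n + ν) * Δ / (2 * yv Δ ν c n)
noncomputable def mm (Δ ν c : ℝ) (n : ℤ) : ℤ := ⌈ν + ph Δ ν c n⌉

/-- The standing hypotheses at level `n`. -/
def Lv (q τ Δ ν c : ℝ) (n : ℤ) : Prop :=
  5 ≤ q ∧ 0 < τ ∧ τ ≤ Δ ∧ Δ ≤ q * τ ∧ 0 < c ∧ 100 * c ≤ τ ∧ 0 < ν ∧ 100 * q ^ 3 ≤ n ∧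
    τ / 6 ≤ yv Δ ν c n

/-- STUB G12. Let `N = n + m`, `y, φ, p, x` as above; `0 < x`, so `y < Δ/2 ≤ q τ / 2`.
First: `β = p (Δ - x) = (p + φ) y`, so `β - N (y - τ/100) = N τ/100 - (m - ν - φ) y ≥ N τ/100 - y`,
and `N ≥ n ≥ 100 q^3 ≥ 50 q`. Second: `β' - N τ/2 = (m - ν) y - p Δ/2 ≥ φ y - p Δ/2 = 0`.
Third: `c (m - ν) ≤ c φ + c = x Δ/(2 y) + c ≤ (Δ/2) Δ (3/τ) + c ≤ 2 q^2 τ`. -/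
def G12 : Prop := ∀ (q τ Δ ν c : ℝ) (n : ℤ), Lv q τ Δ ν c n →
  ν ≤ mm Δ ν c n ∧ 1 ≤ mm Δ ν c n ∧
  ((n : ℝ) + mm Δ ν c n) * (yv Δ ν c n - τ / 100) ≤ (n + ν) * (Δ - c * (n + ν)) ∧
  ((n : ℝ) + mm Δ ν c n) * (τ / 2) ≤
    (mm Δ ν c n - ν) * ((τ + Δ) / 2 - c * (n + ν)) - (n + ν) * ((Δ - τ) / 2) ∧
  c * (mm Δ ν c n - ν) ≤ 2 * q ^ 2 * τ

/-- STUB G3. `N < p + φ + 1 = p (Δ - x) / y + 1 ≤ 6 p Δ / τ + 1`, and `p = x / c ≤ Δ / (2 c)`, so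
`N ≤ 3 Δ^2 / (c τ) + 1 ≤ 3 q^2 τ / c + 1`; and `M ≤ c / (8 q^2)`, `100 c ≤ τ`. -/
def G3 : Prop := ∀ (q τ Δ ν c M : ℝ) (n : ℤ), Lv q τ Δ ν c n → 1 ≤ M → 8 * q ^ 2 * M ≤ c →
  M * ((n : ℝ) + mm Δ ν c n) ≤ τ

/-- STUB G4. With `y' = yv (n+1) = y - c`: `φ(n+1) - φ(n) = Δ^2 / (4 y y')`, which lies between `0`
and `9 q^2`; and `⌈u + v⌉ ≤ ⌈u⌉ + v + 1`. -/
def G4 : Prop := ∀ (q τ Δ ν c : ℝ) (n : ℤ), Lv q τ Δ ν c n → Lv q τ Δ ν c (n + 1) →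
  mm Δ ν c n ≤ mm Δ ν c (n + 1) ∧
    ((mm Δ ν c (n + 1) : ℤ) : ℝ) ≤ mm Δ ν c n + 10 * q ^ 2

/-- STUB ZCH. `s = ⌊S⌋`, `t = ⌊T⌋ - ((⌊S⌋ + ⌊T⌋) % N)`. -/
def ZCH : Prop := ∀ (N : ℤ) (S T : ℝ), 1 ≤ N →
  ∃ s t : ℤ, N ∣ s + t ∧ (s : ℝ) ≤ S ∧ S < s + 1 ∧ (t : ℝ) ≤ T ∧ T < t + 1 + N

/-- Relation between the matrix and the real data. -/
def Dt (a b c d : ℤ) (Δ ν : ℝ) : Prop :=
  2 * (c * ν) = a - d + Δ ∧ (b : ℝ) = ν * (Δ - c * ν)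

/-- STUB DAT. `Δ = √((a-d)^2 + 4 b c)`, `ν = (a - d + Δ) / (2 c)`; `Δ > |a - d|` as `b c > 0`;
`(a+d)^2 < Δ^2 ≤ (1 + 4 k)(a+d)^2 ≤ ((1 + 4 k)(a+d))^2`;
`ν (Δ - c ν) = (Δ + a - d)(Δ - a + d) / (4 c) = b`. -/
def DAT : Prop := ∀ k a b c d : ℤ, 1 ≤ k → 0 < b → 0 < c → 0 < a + d → a * d < b * c →
  b * c - a * d ≤ k * (a + d) ^ 2 →
  ∃ Δ ν : ℝ, Dt a b c d Δ ν ∧ 0 < ν ∧ ((a : ℝ) + d) ≤ Δ ∧ Δ ≤ (1 + 4 * k) * ((a : ℝ) + d)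

/-- The window of the parameter at level `n`: `s = X + n Y`, `t = -X + m Y`. -/
def Win (τ Δ ν : ℝ) (c n m X Y : ℤ) : Prop :=
  ((X + n * Y : ℤ) : ℝ) ≤ yv Δ ν c n - τ / 12 ∧ yv Δ ν c n - τ / 12 < ((X + n * Y : ℤ) : ℝ) + 1 ∧
  ((-X + m * Y : ℤ) : ℝ) ≤ τ / 4 ∧ τ / 4 < ((-X + m * Y : ℤ) : ℝ) + 1 + (n + m)

/-- STUB IDS. From `Dt` (linear_combination): with `x = c (n + ν)`:
`a + n c = x - (Δ - (a+d))/2`, `d - n c = ((a+d) + Δ)/2 - x`,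
`b - n a + n (d - n c) = (n + ν)(Δ - x)`,
`-(b - n a) + m (d - n c) = (m - ν)(((a+d)+Δ)/2 - x) - (n + ν)(Δ - (a+d))/2`,
`-a + m c = c (m - ν) + (Δ - (a+d))/2`. -/
def IDS : Prop := ∀ (a b c d n m : ℤ) (Δ ν : ℝ), Dt a b c d Δ ν →
  ((a + n * c : ℤ) : ℝ) = c * (n + ν) - (Δ - (a + d)) / 2 ∧
  ((d - n * c : ℤ) : ℝ) = ((a + d) + Δ) / 2 - c * (n + ν) ∧
  ((b - n * a + n * (d - n * c) : ℤ) : ℝ) = (n + ν) * (Δ - c * (n + ν)) ∧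
  ((-(b - n * a) + m * (d - n * c) : ℤ) : ℝ) =
    (m - ν) * (((a + d) + Δ) / 2 - c * (n + ν)) - (n + ν) * ((Δ - (a + d)) / 2) ∧
  ((-a + m * c : ℤ) : ℝ) = c * (m - ν) + (Δ - (a + d)) / 2

/-- STUB LEV (from G12, ZCH, IDS). `τ = a + d`, `N = n + m ≤ τ/40`, `m = mm Δ ν c n`. Choose `s, t` by
ZCH with `S = y - τ/12`, `T = τ/4`, `Y = (s + t)/N`, `X = s - n Y`. `Adm`: `s > τ/12 - 1 ≥ 0`;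
`t > τ/4 - 1 - N ≥ 0`; `(a + n c) + s > x - (Δ-τ)/2 + y - τ/12 - 1 = τ/2 - τ/12 - 1`;
`-a + m c ≥ 0`; `N s ≤ N (y - τ/100) ≤ β` and `N t ≤ N τ/2 ≤ β'` by G12. `Room`: `-(a + n c) = y - τ/2`,
`β ≥ N (y - τ/100)`, `β' ≥ N τ/2`, `y ≥ τ/6`, `2 N ≤ τ/20`, `a - m c ≤ 0`. Also
`Adm .. 0 0` if `0 ≤ a + n c`. -/
def LEV : Prop := ∀ (q : ℝ) (a b c d n : ℤ) (Δ ν : ℝ), Dt a b c d Δ ν →
  Lv q ((a : ℝ) + d) Δ ν c n → 24 ≤ a + d → 40 * (n + mm Δ ν c n) ≤ a + d →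
  Room a b c d n (mm Δ ν c n) ∧ (0 ≤ a + n * c → Adm a b c d n (mm Δ ν c n) 0 0) ∧
  ∃ X Y : ℤ, Adm a b c d n (mm Δ ν c n) X Y ∧
    Win ((a : ℝ) + d) Δ ν c n (mm Δ ν c n) X Y

/-- STUB TRS (from G12, G4, IDS). `τ = a + d`, `s = X + n Y`, `t = -X + m Y`, `m = mm n`,
`m' = mm (n+1)`, `N = n + m`, `N Y = s + t`, `N ≥ 100 q^3`, `m' - m ≤ 10 q^2`, `s ≤ y ≤ q τ/2`,
`t ≤ τ/4`, so `0 ≤ Y ≤ q τ / N ≤ τ/(100 q^2)`.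
Adm at level `n+1`: the new values are `s' = s + Y`, `t' = t + (m' - m) Y`. By G12 at `n+1` it is
enough that `s' ≤ y' - τ/100` (`y' = y - c`, `c ≤ τ/100`, `s ≤ y - τ/12`, `Y ≤ τ/100`) and
`t' ≤ τ/2` (`t ≤ τ/4`, `(m' - m) Y ≤ 10 q^2 τ/(100 q^2)`); the other signs from `Adm` at `n`.
`NN`: columns 1 and 3 are those of level `n`; column 2 is `W2 - W1 - (m' - m) z`, where `W2` is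
column 2 at level `n`. `b0`: `(β - N s) - ((a+nc) + s) - (m'-m) s` with
`β - N s ≥ N (τ/12 - τ/100) ≥ N τ/14`, `(a+nc) + s ≤ τ/2`, `s ≤ q τ/2`: enough
`100 q^3/14 ≥ 1/2 + 5 q^3`. `bm`: `(β' - N t) - ((-a+mc) + t) - (m'-m) t` with
`β' - N t ≥ N τ/4`, `-a + m c ≤ 2 q^2 τ + q τ/2`, `t ≤ τ/4`: enough `25 q^3 ≥ 2 q^2 + q + 1 + 3 q^2`.
`e` row: `(n+m) ×` it is the sum of the other two rows. -/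
def TRS : Prop := ∀ (q : ℝ) (a b c d n X Y : ℤ) (Δ ν : ℝ), Dt a b c d Δ ν →
  Lv q ((a : ℝ) + d) Δ ν c n → Lv q ((a : ℝ) + d) Δ ν c (n + 1) →
  Adm a b c d n (mm Δ ν c n) X Y → Win ((a : ℝ) + d) Δ ν c n (mm Δ ν c n) X Y →
  Adm a b c d (n + 1) (mm Δ ν c (n + 1)) X Y ∧
    NN (U3 n (mm Δ ν c n) * W3 a b c d (n + 1) (mm Δ ν c (n + 1)) X Y)

/-- STUB BOT (from G12, IDS). The bottom level: with `τ = a + d` large all entries of `U3 * W3` are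
at least `K`, and the entries `(0,1)`, `(2,1)` (which are `β - N s`, `β' - N t`) are at least
`τ/20`: `b0 W1 = (a+nc) + s ≥ τ/2 - τ/12 - 1`; `e W1 = c + Y ≥ K`; `bm W1 ≥ t`;
`β - N s ≥ N τ/14`; `β' - N t ≥ N τ/4`; `e W2 = ((β - N s) + (β' - N t))/N ≥ τ/4`;
`s > τ/12 - 1`; `t > τ/4 - 1 - N`; `Y = (s+t)/N ≥ (τ/12 - 1)/N`. Here `N ≤ C'` and
`1000 (K + 1)(C' + 1) ≤ τ`, `K ≤ c`. -/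
def BOT : Prop := ∀ (q : ℝ) (a b c d n X Y K C' : ℤ) (Δ ν : ℝ), Dt a b c d Δ ν →
  Lv q ((a : ℝ) + d) Δ ν c n → Adm a b c d n (mm Δ ν c n) X Y →
  Win ((a : ℝ) + d) Δ ν c n (mm Δ ν c n) X Y → 0 ≤ K → n + mm Δ ν c n ≤ C' →
  1000 * ((K + 1) * (C' + 1)) ≤ a + d → K ≤ c →
  GE K (U3 n (mm Δ ν c n) * W3 a b c d n (mm Δ ν c n) X Y) ∧
  a + d ≤ 20 * (U3 n (mm Δ ν c n) * W3 a b c d n (mm Δ ν c n) X Y) 0 1 ∧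
  a + d ≤ 20 * (U3 n (mm Δ ν c n) * W3 a b c d n (mm Δ ν c n) X Y) 2 1

/-- STUB EST (`theorem EST_holds (h1 : G3) (h2 : G4) (h3 : DAT) (h4 : IDS) (h5 : LEV) (h6 : TRS)
(h7 : BOT) : EST`). `q = 1 + 4 k`, `n₀ = 100 q^3`, `η = 21 n₀`, and for given `κ`:
`C = 2 κ + 3 q (n₀ + 2 κ) + 2`; for given `K ≥ 0`: `K₀` a large constant
(`≥ 8 q^2 · 40`, `≥ K`, `≥ 1000 (K+1)(n₀ + C + 1)`, `≥ 24`; note `a + d ≥ η c ≥ K₀`).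
Levels `n₀ ≤ n ≤ j`: with `x_n = c (n + ν) = (a + n c) + (Δ - τ)/2` one has
`yv n = τ/2 - (a + n c)`, so `yv j = τ/2 - (a + j c) ≥ τ/6`, and `yv n ≥ yv j` for `n ≤ j`. `n₀ < j`:
`a + n₀ c ≤ τ/5 + n₀ τ/(21 n₀) < τ/4 ≤ a + j c`. `m = mm`, `X, Y` by choice from LEV. Bottom:
`ν (λ - a) = b` with `λ = (τ + Δ)/2`, `λ - a ≥ 4τ/5`, so `ν ≤ 5 κ/4 ≤ 2 κ`;
`φ = (n₀ + ν) Δ/(2 y) ≤ 3 q (n₀ + 2 κ)`. -/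
def EST : Prop := ∀ k : ℤ, 1 ≤ k → ∃ n₀ η : ℤ, 1 ≤ n₀ ∧ 100 ≤ η ∧ ∀ κ : ℤ, 1 ≤ κ →
  ∃ C : ℤ, 1 ≤ C ∧ ∀ K : ℤ, 0 ≤ K → ∃ K₀ : ℤ, 1 ≤ K₀ ∧ ∀ a b c d j : ℤ, K₀ ≤ c → 0 < b →
    b ≤ κ * (a + d) → a * d < b * c → b * c - a * d ≤ k * (a + d) ^ 2 → η * c ≤ a + d →
    5 * a ≤ a + d → a + d ≤ 4 * (a + j * c) → 3 * (a + j * c) ≤ a + d →
    n₀ < j ∧ ∃ m X Y : ℤ → ℤ, Levels a b c d n₀ j m X Y ∧ 1 ≤ m n₀ ∧ m n₀ ≤ C ∧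
      GE K (U3 n₀ (m n₀) * W3 a b c d n₀ (m n₀) (X n₀) (Y n₀)) ∧
      a + d ≤ 20 * (U3 n₀ (m n₀) * W3 a b c d n₀ (m n₀) (X n₀) (Y n₀)) 0 1 ∧
      a + d ≤ 20 * (U3 n₀ (m n₀) * W3 a b c d n₀ (m n₀) (X n₀) (Y n₀)) 2 1

end Pool.Agent.H81SSE
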