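import Pool.Agent.H81SSE.W.Stm3
import Pool.Agent.H81SSE.W.Stm2
import Pool.Agent.H81SSE.W.BLK

/-!
# Project W: preparations for the global assembly
-/

set_option autoImplicit false

namespace Pool.Agent.H81SSE

open Matrix

/-- The final statement over the integers. -/
def WTH : Prop := ∀ k : ℤ, 1 ≤ k → ∃ K₀ : ℤ, ∀ a b c d α β γ δ p q r s : ℤ,
  a + d ≤ k * a → a + d ≤ k * d → α + δ ≤ k * α → α + δ ≤ k * δ → 0 < a + d →
  0 < b → 0 < c → 0 < β → 0 < γ → a * d < b * c → b * c - a * d ≤ k * (a + d) ^ 2 →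
  (∀ x y : ℤ, ¬ (x = 0 ∧ y = 0) → K₀ ≤ |c * x ^ 2 + (d - a) * x * y - b * y ^ 2|) →
  (p * s - q * r = 1 ∨ p * s - q * r = -1) →
  a * p + b * r = p * α + q * γ → a * q + b * s = p * β + q * δ →
  c * p + d * r = r * α + s * γ → c * q + d * s = r * β + s * δ →
  QQ (!![a, b; c, d] : M2Z) (!![α, β; γ, δ] : M2Z)

lemma blk2 (a b c d n n' : ℤ) (hc : 0 < c) (hdet : a * d < b * c) (h1 : 0 ≤ a + n * c)
    (h2 : 0 ≤ d - n * c) (h3 : 0 ≤ a + n' * c) (h4 : 0 ≤ d - n' * c) :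
    QQ (Bk a b c d n) (Bk a b c d n') := by
  rcases le_total n n' with h | h
  · obtain ⟨m, hm⟩ := Int.eq_ofNat_of_zero_le (sub_nonneg.2 h)
    have e : n' = n + m := by omega
    subst e
    exact (blk_up a b c d n hc hdet h1 m h4).symm
  · obtain ⟨m, hm⟩ := Int.eq_ofNat_of_zero_le (sub_nonneg.2 h)
    have e : n = n' + m := by omega
    subst e
    exact blk_up a b c d n' hc hdet h3 m h2

lemma exists_block (a c d : ℤ) (hc : 0 < c) (h12 : 12 * c ≤ a + d) :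
    ∃ j : ℤ, a + d ≤ 4 * (a + j * c) ∧ 3 * (a + j * c) ≤ a + d := by
  have h1 := Int.emod_add_mul_ediv (4 * a - (a + d)) (4 * c)
  have h2 := Int.emod_nonneg (4 * a - (a + d)) (by linarith : 4 * c ≠ 0)
  have h3 := Int.emod_lt_of_pos (4 * a - (a + d)) (by linarith : 0 < 4 * c)
  set q := (4 * a - (a + d)) / (4 * c)
  refine ⟨-q, ?_, ?_⟩
  · nlinarith
  · nlinarith

lemma Bk_zero (a b c d : ℤ) : Bk a b c d 0 = !![a, b; c, d] := by
  unfold Bk; simp

lemma Bk_shift (a b c d n : ℤ) :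
    Bk (a - c) (a + b - c - d) c (c + d) (n + 1) = Bk a b c d n := by
  unfold Bk
  ext i j
  fin_cases i <;> fin_cases j <;> simp <;> ring

lemma Bk_hat (a b c d n : ℤ) :
    (Bk d b c a n)ᵀ = !![d + n * c, c; b + n * a - n * (d + n * c), a - n * c] := by
  unfold Bk
  ext i j
  fin_cases i <;> fin_cases j <;> simp <;> ring

lemma Bk_neg (a b c d n : ℤ) :
    Bk a b c d (-n) = !![a - n * c, b + n * a - n * (d + n * c); c, d + n * c] := by
  unfold Bk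
  ext i j
  fin_cases i <;> fin_cases j <;> simp <;> ring

lemma mem_Cset (k : ℤ) (hk : 2 ≤ k) (M : M2Z) (ht : 0 < M.trace) (hd : M.det ≤ 0)
    (hb : ∀ i j, |M i j| ≤ k * M.trace) : ((M.trace : ℤ) : ℝ)⁻¹ • cR M ∈ Cset (k : ℝ) := by
  have hτ0 : (0 : ℝ) < ((M.trace : ℤ) : ℝ) := by exact_mod_cast ht
  have hkR : (2 : ℝ) ≤ k := by exact_mod_cast hk
  refine ⟨?_, ?_, ?_⟩
  · rw [Matrix.trace_smul, cR_trace, smul_eq_mul]
    exact inv_mul_cancel₀ hτ0.ne'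
  · rw [Matrix.det_smul, Fintype.card_fin, cR_det]
    have h1 : ((M.det : ℤ) : ℝ) ≤ 0 := by exact_mod_cast hd
    have h2 : ((((M.trace : ℤ) : ℝ)⁻¹) ^ 2) * ((M.det : ℤ) : ℝ) ≤ 0 :=
      mul_nonpos_of_nonneg_of_nonpos (by positivity) h1
    have h3 : 4 / (k : ℝ) ^ 2 ≤ 1 := by
      rw [div_le_one (by positivity)]
      nlinarith
    linarith
  · intro i j
    have h5 := hb i j
    have h6 : |((M i j : ℤ) : ℝ)| ≤ (k : ℝ) * ((M.trace : ℤ) : ℝ) := by exact_mod_cast h5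
    simp only [Matrix.smul_apply, cR, Matrix.map_apply, smul_eq_mul]
    rw [abs_mul, abs_of_pos (inv_pos.mpr hτ0), inv_mul_le_iff₀ hτ0, mul_comm]
    exact h6

lemma D3_adj (n m : ℤ) : (D3 n m).adjugate = !![1, n; -1, m] := by
  unfold D3
  rw [Matrix.adjugate_fin_two_of]
  ext i j
  fin_cases i <;> fin_cases j <;> simp

/-- The cone `D3` works at the bottom of the crossing. -/
lemma merge (n m : ℤ) (hnm : 1 ≤ n + m) (W : Matrix (Fin 2) (Fin 3) ℤ) (M : M2Z) (τ : ℤ)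
    (hW : W * U3 n m = M) (h0 : GE 0 (U3 n m * W)) (h1 : τ ≤ 20 * (U3 n m * W) 0 1)
    (h2 : τ ≤ 20 * (U3 n m * W) 2 1) :
    ∀ i j, τ ≤ 20 * ((D3 n m).adjugate * M * D3 n m) i j := by
  obtain ⟨V, hV⟩ : ∃ V : Matrix (Fin 3) (Fin 3) ℤ, V = U3 n m * W := ⟨_, rfl⟩
  obtain ⟨w1, w2, w3, w4, w5, w6, hWe⟩ : ∃ w1 w2 w3 w4 w5 w6 : ℤ,
      W = !![w1, w2, w3; w4, w5, w6] :=
    ⟨W 0 0, W 0 1, W 0 2, W 1 0, W 1 1, W 1 2, by
      ext i j; fin_cases i <;> fin_cases j <;> rfl⟩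
  have e : (D3 n m).adjugate * M * D3 n m =
      !![(n + m) * V 0 0 + V 0 1, V 0 1 + (n + m) * V 0 2;
        (n + m) * V 2 0 + V 2 1, V 2 1 + (n + m) * V 2 2] := by
    rw [← hW, hV, D3_adj, hWe]
    unfold D3 U3
    ext i j
    fin_cases i <;> fin_cases j <;>
      simp [Matrix.mul_apply, Fin.sum_univ_two, Fin.sum_univ_three] <;> ring
  rw [← hV] at h0 h1 h2
  have hN : 0 ≤ n + m := by linarith
  intro i j
  rw [e]
  fin_cases i <;> fin_cases j
  · have := mul_nonneg hN (h0 0 0)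
    simp only [Fin.zero_eta, Fin.isValue, Matrix.of_apply, Matrix.cons_val', Matrix.cons_val_zero,
      Matrix.cons_val_fin_one]
    linarith
  · have := mul_nonneg hN (h0 0 2)
    simp
    linarith
  · have := mul_nonneg hN (h0 2 0)
    simp
    linarith
  · have := mul_nonneg hN (h0 2 2)
    simp
    linarith

end Pool.Agent.H81SSE
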