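import Pool.Agent.H81SSE.W.Glob2

/-!
# Project W: the steps of the chain and the final theorem
-/

set_option autoImplicit false

namespace Pool.Agent.H81SSE

open Matrix

/-- The invariant along the chain: the matrix `X` (the start of the chain) is equivalent to a
lift of the current matrix or to one of its blocks. -/
def St (κ : ℤ) (t : Finset M2R) (D : M2R → M2Z) (r : M2R → ℝ) (K : ℤ) (X : M2Z)
    (a b c d : ℤ) : Prop :=
  (b ≤ κ * (a + d) → c ≤ κ * (a + d) →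
    ∃ c₀, Bx t r ((a + d : ℤ) : ℝ) !![a, b; c, d] c₀ ∧ LQ D K c₀ !![a, b; c, d] X) ∧
  (κ * (a + d) < b → ∃ n, 0 ≤ a + n * c ∧ 0 ≤ d - n * c ∧ QQ X (Bk a b c d n)) ∧
  (κ * (a + d) < c → ∃ n, 0 ≤ d + n * b ∧ 0 ≤ a - n * b ∧ QQ X (Bk d c b a n))

lemma conj12 (a b c d : ℤ) : uinv !![1, 1; 0, 1] * !![a, b; c, d] * !![1, 1; 0, 1] =
    !![a - c, a + b - c - d; c, c + d] := by
  have e : uinv !![1, 1; 0, 1] = !![1, -1; 0, 1] := by
    unfold uinv
    rw [Matrix.det_fin_two, Matrix.adjugate_fin_two_of]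
    simp
  rw [e]
  ext i j
  fin_cases i <;> fin_cases j <;> simp [Matrix.mul_apply, Fin.sum_univ_two] <;> ring

lemma conjsw (a b c d : ℤ) : uinv sw * !![a, b; c, d] * sw = !![d, c; b, a] := by
  have e : uinv sw = !![0, 1; 1, 0] := by
    unfold uinv sw
    rw [Matrix.det_fin_two, Matrix.adjugate_fin_two_of]
    ext i j
    fin_cases i <;> fin_cases j <;> simp
  rw [e]
  unfold sw
  ext i j
  fin_cases i <;> fin_cases j <;> simp [Matrix.mul_apply, Fin.sum_univ_two]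

section

variable {k' κ η K₀ k2 n₀ C : ℤ} {t : Finset M2R} {D : M2R → M2Z} {r : M2R → ℝ} {K : ℤ} {T : ℝ}

lemma LQ.pre {c : M2R} {M Z X : M2Z} (h : LQ D K c M Z) (q : QQ X Z) : LQ D K c M X := by
  obtain ⟨W, w1, w2, w3⟩ := h
  exact ⟨W, w1, w2, q.trans w3⟩

lemma st12 (h : Cst k' κ η K₀ k2 n₀ C t D r K T) (hCRS : CRS) (hW3U : W3U) (hTRA : TRA)
    (hSWP : SWP) (X : M2Z) {a b c d : ℤ} (ho : Ok k' K₀ T a b c d)
    (ho' : Ok k' K₀ T (a - c) (a + b - c - d) c (c + d)) (hs : St κ t D r K X a b c d) :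
    St κ t D r K X (a - c) (a + b - c - d) c (c + d) := by
  have e0 : (a - c) + (c + d) = a + d := by ring
  have hcκ : c ≤ κ * (a + d) := by
    by_contra hcon
    push Not at hcon
    have h1 := h.cusp ho.swp (by rw [add_comm d a]; exact hcon)
    have h2 := (abs_le.mp (bounds k' a b c d h.hk ho.ht ho.hb ho.hc ho.dk).2).2
    have h3 := ho'.hb
    have h4 := h.hκ
    have h5 := h.hη
    have h6 := h.hk
    have h7 := ho.ht
    have h8 := ho.hb
    have h9 : 100 * ((1 + 4 * k') * (a + d)) ≤ η * ((1 + 4 * k') * (a + d)) :=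
      mul_le_mul_of_nonneg_right h5 (mul_nonneg (by linarith) h7.le)
    have h10 : κ * (a + d) = η * ((1 + 4 * k') * (a + d)) := by rw [h4]; ring
    have h11 : 100 * b ≤ η * b := mul_le_mul_of_nonneg_right h5 h8.le
    have h12 : 1 * (a + d) ≤ (1 + 4 * k') * (a + d) :=
      mul_le_mul_of_nonneg_right (by linarith) h7.le
    linarith
  refine ⟨fun g1 g2 => ?_, fun g1 => ?_, fun g1 => ?_⟩
  · rw [e0] at g1 g2
    have hM' := h.mem ho' (by rw [e0]; exact g1) (by rw [e0]; exact g2)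
    obtain ⟨c₁, hc₁, hc₁'⟩ := h.nd.cov _ hM'
    refine ⟨c₁, ⟨hc₁, hc₁'⟩, ?_⟩
    by_cases hb : b ≤ κ * (a + d)
    · obtain ⟨c₀, hc₀, hL⟩ := hs.1 hb hcκ
      have := h.nd.move ho.hT (c := c₀) (c' := c₁) !![1, 1; 0, 1] (Or.inl rfl) (h.mem ho hb hcκ)
        hc₀ (by rw [conj12, ← e0]; exact ⟨hc₁, hc₁'⟩) hL
      rw [conj12] at this
      exact this
    · push Not at hb
      obtain ⟨n, n1, n2, q⟩ := hs.2.1 hb
      have hη := h.cusp ho hb
      have L := LX h hCRS hW3U hTRA hSWP ho' (by rw [e0]; exact g1) (by rw [e0]; exact hη) c₁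
        ⟨hc₁, hc₁'⟩ (n + 1) (by linarith) (by linarith)
      rw [Bk_shift] at L
      exact L.pre q
  · have hη := h.cusp ho' g1
    rw [e0] at g1 hη
    by_cases hb : b ≤ κ * (a + d)
    · obtain ⟨c₀, hc₀, hL⟩ := hs.1 hb hcκ
      have h12 : 12 * c ≤ a + d := by
        have h1 := h.hη
        have h2 := ho.hc
        nlinarith
      obtain ⟨j, j1, j2⟩ := exists_block a c d ho.hc h12
      have ht := ho.ht
      have L := LX h hCRS hW3U hTRA hSWP ho hb hη c₀ hc₀ j (by linarith) (by linarith)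
      have q := h.nd.join hc₀.1 hL L
      refine ⟨j + 1, by linarith, by linarith, ?_⟩
      rw [Bk_shift]
      exact q
    · push Not at hb
      obtain ⟨n, n1, n2, q⟩ := hs.2.1 hb
      refine ⟨n + 1, by linarith, by linarith, ?_⟩
      rw [Bk_shift]
      exact q
  · rw [e0] at g1
    exact absurd g1 (not_lt.2 hcκ)

lemma stsw (h : Cst k' κ η K₀ k2 n₀ C t D r K T) (X : M2Z) {a b c d : ℤ}
    (ho : Ok k' K₀ T a b c d) (hs : St κ t D r K X a b c d) :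
    St κ t D r K X d c b a := by
  have e0 : d + a = a + d := add_comm d a
  refine ⟨fun g1 g2 => ?_, fun g1 => ?_, fun g1 => ?_⟩
  · have hM' := h.mem ho.swp g1 g2
    obtain ⟨c₁, hc₁, hc₁'⟩ := h.nd.cov _ hM'
    rw [e0] at g1 g2
    obtain ⟨c₀, hc₀, hL⟩ := hs.1 g2 g1
    have := h.nd.move ho.hT (c := c₀) (c' := c₁) sw (Or.inr (Or.inr (Or.inl rfl)))
      (h.mem ho g2 g1) hc₀ (by rw [conjsw, ← e0]; exact ⟨hc₁, hc₁'⟩) hL
    rw [conjsw] at this
    exact ⟨c₁, ⟨hc₁, hc₁'⟩, this⟩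
  · rw [e0] at g1
    exact hs.2.2 g1
  · rw [e0] at g1
    exact hs.2.1 g1

lemma st21 (h : Cst k' κ η K₀ k2 n₀ C t D r K T) (hCRS : CRS) (hW3U : W3U) (hTRA : TRA)
    (hSWP : SWP) (X : M2Z) {a b c d : ℤ} (ho : Ok k' K₀ T a b c d)
    (ho' : Ok k' K₀ T (a + b) b (c + d - a - b) (d - b)) (hs : St κ t D r K X a b c d) :
    St κ t D r K X (a + b) b (c + d - a - b) (d - b) := by
  have h1 := stsw h X ho hs
  have e1 : d + c - b - a = c + d - a - b := by ring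
  have e2 : b + a = a + b := by ring
  have ho2 : Ok k' K₀ T (d - b) (d + c - b - a) b (b + a) := by
    rw [e1, e2]; exact ho'.swp
  have h2 := st12 h hCRS hW3U hTRA hSWP X ho.swp ho2 h1
  have h3 := stsw h X ho2 h2
  rw [e1, e2] at h3
  exact h3

lemma st_start (h : Cst k' κ η K₀ k2 n₀ C t D r K T) (hSWP : SWP) {a b c d : ℤ}
    (ho : Ok k' K₀ T a b c d) (ha : a + d ≤ k' * a) (hd : a + d ≤ k' * d) :
    St κ t D r K !![a, b; c, d] a b c d := by
  have hk := h.hk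
  have ht := ho.ht
  have ha0 : 0 ≤ a := by
    by_contra hcon
    push Not at hcon
    nlinarith
  have hd0 : 0 ≤ d := by
    by_contra hcon
    push Not at hcon
    nlinarith
  refine ⟨fun g1 g2 => ?_, fun _ => ?_, fun _ => ?_⟩
  · have hM := h.mem ho g1 g2
    obtain ⟨c₀, hc₀, hc₀'⟩ := h.nd.cov _ hM
    exact ⟨c₀, ⟨hc₀, hc₀'⟩, h.nd.en _ ho.hT c₀ hc₀ _ hM
      (h.low ho k' hk (by linarith) ha hd g1 g2) hc₀'⟩
  · refine ⟨0, by linarith, by linarith, ?_⟩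
    rw [Bk_zero]
    refine QQ.refl _ ?_
    intro i j
    fin_cases i <;> fin_cases j
    · simpa using ha0
    · simpa using ho.hb.le
    · simpa using ho.hc.le
    · simpa using hd0
  · refine ⟨0, by linarith, by linarith, ?_⟩
    rw [Bk_zero]
    exact hSWP a b c d ha0 ho.hb.le ho.hc.le hd0

lemma st_end (h : Cst k' κ η K₀ k2 n₀ C t D r K T) (hSWP : SWP) (X : M2Z) {a b c d : ℤ}
    (ho : Ok k' K₀ T a b c d) (ha : a + d ≤ k' * a) (hd : a + d ≤ k' * d)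
    (hs : St κ t D r K X a b c d) : QQ X (!![a, b; c, d] : M2Z) := by
  have hk := h.hk
  have ht := ho.ht
  have ha0 : 0 ≤ a := by
    by_contra hcon
    push Not at hcon
    nlinarith
  have hd0 : 0 ≤ d := by
    by_contra hcon
    push Not at hcon
    nlinarith
  by_cases hb : b ≤ κ * (a + d)
  · by_cases hc : c ≤ κ * (a + d)
    · obtain ⟨c₀, hc₀, hL⟩ := hs.1 hb hc
      exact h.nd.join hc₀.1 hL (h.nd.en _ ho.hT c₀ hc₀.1 _ (h.mem ho hb hc)
        (h.low ho k' hk (by linarith) ha hd hb hc) hc₀.2)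
    · push Not at hc
      obtain ⟨n, n1, n2, q⟩ := hs.2.2 hc
      have q1 := blk2 d c b a n 0 ho.hb (by rw [mul_comm d a, mul_comm c b]; exact ho.det) n1 n2
        (by linarith) (by linarith)
      rw [Bk_zero] at q1
      exact q.trans (q1.trans (hSWP d c b a hd0 ho.hc.le ho.hb.le ha0))
  · push Not at hb
    obtain ⟨n, n1, n2, q⟩ := hs.2.1 hb
    have q1 := blk2 a b c d n 0 ho.hc ho.det n1 n2 (by linarith) (by linarith)
    rw [Bk_zero] at q1
    exact q.trans q1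

/-- The numerical conditions follow from the absence of short vectors. -/
lemma ok_of (K₁ T' : ℤ) (hk : 1 ≤ k') (h0 : K₀ ≤ K₁) (hT' : 1 ≤ T') (hT : T ≤ (T' : ℝ))
    (h1 : (1 + 4 * k') * T' ≤ K₁) {a b c d : ℤ} (hw : Cw K₁ a b c d) (ht : 0 < a + d)
    (hdet : a * d < b * c) (hdk : b * c - a * d ≤ k' * (a + d) ^ 2) : Ok k' K₀ T a b c d := by
  obtain ⟨hb, hc, hf⟩ := hw
  have hc1 : K₁ ≤ c := by
    have := hf 1 0 (by norm_num)
    rw [show c * 1 ^ 2 + (d - a) * 1 * 0 - b * 0 ^ 2 = c by ring, abs_of_pos hc] at this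
    exact this
  have hb1 : K₁ ≤ b := by
    have := hf 0 1 (by norm_num)
    rw [show c * 0 ^ 2 + (d - a) * 0 * 1 - b * 1 ^ 2 = -b by ring, abs_neg, abs_of_pos hb] at this
    exact this
  have hTt : T' ≤ a + d := by
    by_contra hcon
    push Not at hcon
    have h2 := (bounds k' a b c d hk ht hb hc hdk).1
    have hK₁ : 0 ≤ K₁ := le_trans (mul_nonneg (by linarith) (by linarith)) h1
    have h3 : K₁ * K₁ ≤ b * c := mul_le_mul hb1 hc1 hK₁ hb.le
    have h4 : ((1 + 4 * k') * T') * ((1 + 4 * k') * T') ≤ K₁ * K₁ :=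
      mul_le_mul h1 h1 (mul_nonneg (by linarith) (by linarith)) hK₁
    have h5 : (a + d) * (a + d) ≤ T' * T' := mul_le_mul hcon.le hcon.le ht.le (by linarith)
    have h6 : (1 + 4 * k') * ((a + d) * (a + d)) ≤ (1 + 4 * k') * (T' * T') :=
      mul_le_mul_of_nonneg_left h5 (by linarith)
    have h7 : (1 + 4 * k') * (T' * T') * 1 ≤ (1 + 4 * k') * (T' * T') * (1 + 4 * k') :=
      mul_le_mul_of_nonneg_left (by linarith)
        (mul_nonneg (by linarith) (mul_nonneg (by linarith) (by linarith)))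
    have h8 : 0 < (1 + 4 * k') * (T' * T') :=
      mul_pos (by linarith) (mul_pos (by linarith) (by linarith))
    nlinarith
  exact ⟨ht, hT.trans (by exact_mod_cast hTt), hb, hc, h0.trans hb1, h0.trans hc1, hdet, hdk⟩

lemma mk_inj {a b c d a' b' c' d' : ℤ} (h : (!![a, b; c, d] : M2Z) = !![a', b'; c', d']) :
    a = a' ∧ b = b' ∧ c = c' ∧ d = d' := by
  refine ⟨?_, ?_, ?_, ?_⟩
  · simpa using congrFun (congrFun h 0) 0
  · simpa using congrFun (congrFun h 0) 1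
  · simpa using congrFun (congrFun h 1) 0
  · simpa using congrFun (congrFun h 1) 1

lemma run (h : Cst k' κ η K₀ k2 n₀ C t D r K T) (hCRS : CRS) (hW3U : W3U) (hTRA : TRA)
    (hSWP : SWP) (K₁ T' : ℤ) (h0 : K₀ ≤ K₁) (hT' : 1 ≤ T') (hT : T ≤ (T' : ℝ))
    (h1 : (1 + 4 * k') * T' ≤ K₁) {a b c d α β γ δ : ℤ} (hw : Cw K₁ a b c d) (ht : 0 < a + d)
    (hdet : a * d < b * c) (hdk : b * c - a * d ≤ k' * (a + d) ^ 2)
    (ha : a + d ≤ k' * a) (hd : a + d ≤ k' * d) (hα : α + δ ≤ k' * α) (hδ : α + δ ≤ k' * δ)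
    (hch : Relation.ReflTransGen (EStep K₁) !![a, b; c, d] !![α, β; γ, δ]) :
    QQ (!![a, b; c, d] : M2Z) (!![α, β; γ, δ] : M2Z) := by
  set X : M2Z := !![a, b; c, d] with hX
  set τ : ℤ := a + d with hτ
  set Δ : ℤ := b * c - a * d with hΔ
  have hΔ0 : 0 < Δ := by linarith
  have mkok : ∀ a b c d : ℤ, Cw K₁ a b c d → a + d = τ → b * c - a * d = Δ →
      Ok k' K₀ T a b c d := by
    intro a b c d g1 g2 g3
    refine ok_of K₁ T' h.hk h0 hT' hT h1 g1 (by rw [g2]; exact ht) (by linarith) ?_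
    rw [g3, g2]; exact hdk
  let Iv : M2Z → Prop := fun M => ∃ a b c d : ℤ, M = !![a, b; c, d] ∧ a + d = τ ∧
    b * c - a * d = Δ ∧ Cw K₁ a b c d ∧ St κ t D r K X a b c d
  have hstart : Iv X := ⟨a, b, c, d, hX, rfl, rfl, hw,
    st_start h hSWP (mkok a b c d hw rfl rfl) ha hd⟩
  have hstep : ∀ M M' : M2Z, EStep K₁ M M' → Iv M → Iv M' := by
    rintro M M' ⟨a₁, b₁, c₁, d₁, a₂, b₂, c₂, d₂, rfl, rfl, w1, w2, hcase⟩
      ⟨a₃, b₃, c₃, d₃, e, i1, i2, i3, i4⟩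
    obtain ⟨rfl, rfl, rfl, rfl⟩ := mk_inj e
    have ho := mkok _ _ _ _ w1 i1 i2
    rcases hcase with ⟨q1, q2, q3, q4⟩ | ⟨q1, q2, q3, q4⟩ | ⟨q1, q2, q3, q4⟩ <;>
      rw [q1, q2, q3, q4] at w2 ⊢
    · have j1 : (a₁ - c₁) + (c₁ + d₁) = τ := by rw [← i1]; ring
      have j2 : (a₁ + b₁ - c₁ - d₁) * c₁ - (a₁ - c₁) * (c₁ + d₁) = Δ := by rw [← i2]; ring
      exact ⟨_, _, _, _, rfl, j1, j2, w2, st12 h hCRS hW3U hTRA hSWP X ho
        (mkok _ _ _ _ w2 j1 j2) i4⟩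
    · have j1 : (a₁ + b₁) + (d₁ - b₁) = τ := by rw [← i1]; ring
      have j2 : b₁ * (c₁ + d₁ - a₁ - b₁) - (a₁ + b₁) * (d₁ - b₁) = Δ := by rw [← i2]; ring
      exact ⟨_, _, _, _, rfl, j1, j2, w2, st21 h hCRS hW3U hTRA hSWP X ho
        (mkok _ _ _ _ w2 j1 j2) i4⟩
    · have j1 : d₁ + a₁ = τ := by rw [← i1]; ring
      have j2 : c₁ * b₁ - d₁ * a₁ = Δ := by rw [← i2]; ring
      exact ⟨_, _, _, _, rfl, j1, j2, w2, stsw h X ho i4⟩
  have hend : ∀ M : M2Z, Relation.ReflTransGen (EStep K₁) X M → Iv M := by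
    intro M hM
    induction hM with
    | refl => exact hstart
    | tail _ h2 ih => exact hstep _ _ h2 ih
  obtain ⟨a₃, b₃, c₃, d₃, e, i1, i2, i3, i4⟩ := hend _ hch
  obtain ⟨rfl, rfl, rfl, rfl⟩ := mk_inj e
  exact st_end h hSWP X (mkok _ _ _ _ i3 i1 i2) hα hδ i4

end

/-- The final assembly. -/
theorem glob (hEST : EST) (hCRS : CRS) (hW3U : W3U) (hNET : NET) (hTRA : TRA) (hSWP : SWP)
    (hCHN : CHN) : WTH := by
  intro k hk
  obtain ⟨n₀, η, hn₀, hη, h1⟩ := hEST k hk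
  obtain ⟨κ, hκ⟩ : ∃ κ, κ = η * (1 + 4 * k) := ⟨_, rfl⟩
  have hκ5 : 500 ≤ κ := by rw [hκ]; nlinarith
  obtain ⟨C, hC, h2⟩ := h1 κ (by linarith)
  obtain ⟨k2, hk2⟩ : ∃ k2, k2 = 100 * (k * k) * κ := ⟨_, rfl⟩
  have hk25 : 5 ≤ k2 := by
    have h7 : 1 ≤ k * k := by nlinarith
    have h8 : 1 * κ ≤ 100 * (k * k) * κ := mul_le_mul_of_nonneg_right (by linarith) (by linarith)
    rw [hk2]; linarith
  obtain ⟨t, D, r, K, T, f1, f2, f3, f4, f5, f6, f7, f8, f9⟩ := hNET (k2 : ℝ) n₀ C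
    (by exact_mod_cast hk25) hn₀ hC
  obtain ⟨K₀, hK₀, hE⟩ := h2 K f2
  have hc : Cst k κ η K₀ k2 n₀ C t D r K T :=
    ⟨⟨f1, f2, f3, f4, f5, f6, f7, f8, f9⟩, hk, hn₀, hη, hκ, hk2.ge, hE⟩
  obtain ⟨T', hT'⟩ : ∃ T' : ℤ, T' = max 1 ⌈T⌉ := ⟨_, rfl⟩
  have hT1 : 1 ≤ T' := by rw [hT']; exact le_max_left _ _
  have hT2 : T ≤ (T' : ℝ) := by
    refine (Int.le_ceil T).trans ?_
    rw [hT']
    exact_mod_cast le_max_right _ _
  obtain ⟨K₁, hK₁⟩ : ∃ K₁ : ℤ, K₁ = max K₀ ((1 + 4 * k) * T') := ⟨_, rfl⟩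
  refine ⟨K₁, ?_⟩
  intro a b c d α β γ δ p q r' s ha hd hα hδ ht hb hc' hβ hγ hdet hdk hf hdt e1 e2 e3 e4
  have hA : Cw K₁ a b c d := ⟨hb, hc', hf⟩
  obtain ⟨hB, hch⟩ := hCHN K₁ a b c d α β γ δ p q r' s hA hβ hγ hdt e1 e2 e3 e4
  have htr : α + δ = a + d := by
    have h : (α + δ) * (p * s - q * r') = (a + d) * (p * s - q * r') := by
      linear_combination r' * e2 - s * e1 + q * e3 - p * e4
    rcases hdt with h' | h' <;> rw [h'] at h <;> linarith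
  have hdd : β * γ - α * δ = b * c - a * d := by
    have h : (α * δ - β * γ) * (p * s - q * r') = (a * d - b * c) * (p * s - q * r') := by
      have h5 : (a * p + b * r') * (c * q + d * s) - (a * q + b * s) * (c * p + d * r') =
        (p * α + q * γ) * (r' * β + s * δ) - (p * β + q * δ) * (r' * α + s * γ) := by
        rw [e1, e2, e3, e4]
      linear_combination -h5
    rcases hdt with h' | h' <;> rw [h'] at h <;> linarith
  have m1 : K₀ ≤ K₁ := by rw [hK₁]; exact le_max_left _ _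
  have m2 : (1 + 4 * k) * T' ≤ K₁ := by rw [hK₁]; exact le_max_right _ _
  rcases hch with hch | hch
  · exact run hc hCRS hW3U hTRA hSWP K₁ T' m1 hT1 hT2 m2 hA ht hdet hdk ha hd hα hδ hch
  · exact (run hc hCRS hW3U hTRA hSWP K₁ T' m1 hT1 hT2 m2 hB (by linarith) (by linarith)
      (by rw [hdd, htr]; exact hdk) hα hδ ha hd hch).symm

end Pool.Agent.H81SSE
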