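import Pool.Agent.H81SSE.W.Stm2

set_option autoImplicit false

namespace Pool.Agent.H81SSE

open Matrix

theorem IDS_holds : IDS := by
  intro a b c d n m Δ ν hD
  obtain ⟨h1, h2⟩ := hD
  refine ⟨?_, ?_, ?_, ?_, ?_⟩
  · push_cast
    linear_combination (-1 / 2) * h1
  · push_cast
    linear_combination (1 / 2) * h1
  · push_cast
    linear_combination h2 + (n : ℝ) * h1
  · push_cast
    linear_combination -h2 + (((m : ℝ) - n) / 2) * h1
  · push_cast
    linear_combination (1 / 2) * h1

end Pool.Agent.H81SSE
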