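import Pool.Agent.H81SSE.W.Stm5

/-!
# Project W: multiples of shift equivalent matrices, assembly
-/

set_option autoImplicit false

namespace Pool.Agent.H81SSE

open Matrix

lemma ev_mult {M : M2Z} {p : M2Z → Prop} (h : Ev (cR M) p) :
    ∃ T : ℤ, ∀ k : ℤ, T ≤ k → p (k • M) := by
  obtain ⟨ε, hε, T, hT⟩ := h
  refine ⟨max 0 ⌈T⌉, fun k hk => hT _ ⟨(k : ℝ), ?_, ?_, fun i j => ?_⟩⟩
  · exact (Int.le_ceil T).trans (by exact_mod_cast (le_max_right _ _).trans hk)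
  · exact_mod_cast (le_max_left _ _).trans hk
  · have h1 : (((k • M) i j : ℤ) : ℝ) - k * cR M i j = 0 := by simp [cR]
    have h2 : (0 : ℝ) ≤ k := by exact_mod_cast (le_max_left _ _).trans hk
    rw [h1, abs_zero]
    positivity

/-- The two matrices are linked over all pairs of valid cones. -/
def Lk (M N : M2Z) : Prop := ∀ D D' : M2Z, Val (cR M) (cR D) → Val (cR N) (cR D') → Eqv M N D D'

lemma Eqv.symm {M N D D' : M2Z} (h : Eqv M N D D') : Eqv N M D' D := by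
  intro K
  obtain ⟨T, hT⟩ := h K
  refine ⟨T, fun k hk => ?_⟩
  obtain ⟨W, W', w1, w2, w3, w4, w5⟩ := hT k hk
  exact ⟨W', W, w2, w1, w4, w3, w5.symm⟩

lemma Eqv.trans {M N O D D' D'' : M2Z} (hD' : 0 < D'.det) (h : Eqv M N D D')
    (h' : Eqv N O D' D'') : Eqv M O D D'' := by
  intro K
  obtain ⟨K1, hK1⟩ := connectU D' hD'
  obtain ⟨T, hT⟩ := h (max K K1)
  obtain ⟨T', hT'⟩ := h' (max K K1)
  refine ⟨max T T', fun k hk => ?_⟩
  obtain ⟨W, W', w1, w2, w3, w4, w5⟩ := hT k ((le_max_left _ _).trans hk)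
  obtain ⟨V, V', v1, v2, v3, v4, v5⟩ := hT' k ((le_max_right _ _).trans hk)
  refine ⟨W, V', w1, v2, w3.mono (le_max_left _ _), v4.mono (le_max_left _ _), ?_⟩
  exact w5.trans ((hK1 W' V (by rw [w2, v1]) (w4.mono (le_max_right _ _))
    (v3.mono (le_max_right _ _))).trans v5)

lemma val_det {A₀ : M2R} {D : M2Z} (h : Val A₀ (cR D)) : 0 < D.det := by
  have := h.1
  rw [cR_det] at this
  exact_mod_cast this

lemma lk_conj (M g gi : M2Z) (hM : Pf (cR M)) (hg : g * gi = 1) : Lk M (gi * M * g) := by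
  intro D D' hD hD' K
  obtain ⟨T, hT⟩ := ev_mult (relG_step hM g gi D D' hg hD (by rw [← cR_mul3]; exact hD') K)
  refine ⟨T, fun k hk => ?_⟩
  obtain ⟨W, W', w1, w2, w3, w4, w5⟩ := hT k hk
  refine ⟨W, W', w1, ?_, w3, w4, w5⟩
  rw [w2, Matrix.mul_smul, Matrix.smul_mul]

lemma lk_refl (M : M2Z) (hM : Pf (cR M)) : Lk M M := by
  have h := lk_conj M 1 1 hM (mul_one _)
  rwa [Matrix.one_mul, Matrix.mul_one] at h

lemma lk_of_pair {M N D1 D2 : M2Z} (hM : Pf (cR M)) (hN : Pf (cR N)) (v1 : Val (cR M) (cR D1))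
    (v2 : Val (cR N) (cR D2)) (h : Eqv M N D1 D2) : Lk M N := by
  intro D D' vD vD'
  exact ((lk_refl M hM D D1 vD v1).trans (val_det v1) h).trans (val_det v2)
    (lk_refl N hN D2 D' v2 vD')

lemma lk_trans {M N O : M2Z} (hN : Pf (cR N)) (h : Lk M N) (h' : Lk N O) : Lk M O := by
  intro D D' vD vD'
  obtain ⟨D1, v1⟩ := exists_val hN
  exact (h D D1 vD v1).trans (val_det v1) (h' D1 D' v1 vD')

lemma pf_iff (M : M2Z) : Pf (cR M) ↔ 0 < M.trace ∧ 4 * M.det < M.trace ^ 2 := by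
  unfold Pf
  rw [cR_trace, cR_det]
  constructor
  · rintro ⟨h1, h2⟩
    exact ⟨by exact_mod_cast h1, by exact_mod_cast h2⟩
  · rintro ⟨h1, h2⟩
    exact ⟨by exact_mod_cast h1, by exact_mod_cast h2⟩

lemma pf_congr {M N : M2Z} (ht : N.trace = M.trace) (hd : N.det = M.det) (h : Pf (cR M)) :
    Pf (cR N) := by
  rw [pf_iff] at h ⊢
  rw [ht, hd]
  exact h

lemma sw_sw : sw * sw = (1 : M2Z) := by
  unfold sw
  ext i j
  fin_cases i <;> fin_cases j <;> simp [Matrix.mul_apply, Fin.sum_univ_two]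

lemma sw_det : sw.det = -1 := by
  unfold sw
  rw [Matrix.det_fin_two_of]
  norm_num

lemma elz_lk (hRST : RST) {A B : M2Z} (h : ElZ A B) (hA : Pf (cR A)) (hdet : A.det ≠ 0) :
    Lk A B := by
  obtain ⟨R, S, rfl, rfl⟩ := h
  have hR : R.det ≠ 0 := by
    intro h
    apply hdet
    rw [Matrix.det_mul, h, zero_mul]
  have tr : (S * R).trace = (R * S).trace := Matrix.trace_mul_comm _ _
  have dt : (S * R).det = (R * S).det := by rw [Matrix.det_mul, Matrix.det_mul, mul_comm]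
  have hB : Pf (cR (S * R)) := pf_congr tr dt hA
  rcases lt_or_gt_of_ne hR with h | h
  · have h1 : 0 < (R * sw).det := by
      rw [Matrix.det_mul, sw_det]; linarith
    have e1 : (R * sw) * (sw * S) = R * S := by
      rw [Matrix.mul_assoc, ← Matrix.mul_assoc sw sw S, sw_sw, Matrix.one_mul]
    have e2 : (sw * S) * (R * sw) = sw * (S * R) * sw := by
      simp only [Matrix.mul_assoc]
    obtain ⟨D1, D2, v1, v2, h2⟩ := hRST (R * sw) (sw * S) h1 (by rw [e1]; exact hA)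
    rw [e1] at v1 h2
    rw [e2] at v2 h2
    have tr2 : (sw * (S * R) * sw).trace = (R * S).trace := by
      rw [Matrix.mul_assoc, Matrix.trace_mul_comm, Matrix.mul_assoc, sw_sw, Matrix.mul_one, tr]
    have dt2 : (sw * (S * R) * sw).det = (R * S).det := by
      rw [Matrix.det_mul, Matrix.det_mul, sw_det, dt]; ring
    have hN : Pf (cR (sw * (S * R) * sw)) := pf_congr tr2 dt2 hA
    have h3 := lk_of_pair hA hN v1 v2 h2
    have h4 := lk_conj (sw * (S * R) * sw) sw sw hN sw_sw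
    have e3 : sw * (sw * (S * R) * sw) * sw = S * R := by
      calc sw * (sw * (S * R) * sw) * sw = (sw * sw) * (S * R) * (sw * sw) := by
            simp only [Matrix.mul_assoc]
        _ = S * R := by rw [sw_sw, Matrix.one_mul, Matrix.mul_one]
    rw [e3] at h4
    exact lk_trans hN h3 h4
  · obtain ⟨D1, D2, v1, v2, h2⟩ := hRST R S h hA
    exact lk_of_pair hA hB v1 v2 h2

lemma chain_lk (hRST : RST) {A : M2Z} (hA : Pf (cR A)) (hdet : A.det ≠ 0) :
    ∀ B : M2Z, Relation.ReflTransGen ElZ A B → Lk A B ∧ B.trace = A.trace ∧ B.det = A.det := by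
  intro B h
  induction h with
  | refl => exact ⟨lk_refl A hA, rfl, rfl⟩
  | tail _ h2 ih =>
    obtain ⟨i1, i2, i3⟩ := ih
    have hN := pf_congr i2 i3 hA
    have h3 := elz_lk hRST h2 hN (by rw [i3]; exact hdet)
    obtain ⟨R, S, rfl, rfl⟩ := h2
    refine ⟨lk_trans hN i1 h3, ?_, ?_⟩
    · rw [Matrix.trace_mul_comm, i2]
    · rw [Matrix.det_mul, mul_comm, ← Matrix.det_mul, i3]

/-- The final statement over the integers. -/
def MUL : Prop := ∀ (A B R S : M2Z) (l : ℕ), NN A → NN B → 0 < A 0 1 → 0 < A 1 0 → 0 < B 0 1 →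
  0 < B 1 0 → 0 < A.trace → A.det ≠ 0 → A * R = R * B → R * S = A ^ l →
  ∃ T : ℤ, ∀ k : ℤ, T ≤ k → QQ (k • A) (k • B)

lemma end_mult (hENDP : ENDP) (A : M2Z) (hA : NN A) (h1 : 0 < A 0 1) (h2 : 0 < A 1 0)
    (hP : Pf (cR A)) (D : M2Z) (hD : Val (cR A) (cR D)) (K : ℤ) : ∃ T : ℤ, ∀ k : ℤ, T ≤ k →
      ∃ W : Matrix (Fin 2) (Fin 2 ⊕ (Fin 2 ⊕ Fin 2)) ℤ, W * UU D = k • A ∧ GE K (UU D * W) ∧
        QQ (k • A) (UU D * W) := by
  obtain ⟨T, hT⟩ := ev_mult (hENDP (cR A) hP (fun i j => by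
    simp only [cR, Matrix.map_apply]; exact_mod_cast hA i j) (by
    simp only [cR, Matrix.map_apply]; exact_mod_cast h1) (by
    simp only [cR, Matrix.map_apply]; exact_mod_cast h2) D hD K)
  refine ⟨max 0 T, fun k hk => hT k ((le_max_right _ _).trans hk) ?_⟩
  intro i j
  have hk0 : 0 ≤ k := (le_max_left _ _).trans hk
  rw [Matrix.smul_apply, smul_eq_mul]
  exact mul_nonneg hk0 (hA i j)

theorem mul_main (hRST : RST) (hSEC : SEC) (hENDP : ENDP) : MUL := by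
  intro A B R S l hA hB a1 a2 b1 b2 htr hdet hAR hRS
  have hP : Pf (cR A) := by
    rw [pf_iff]
    refine ⟨htr, ?_⟩
    rw [Matrix.trace_fin_two, Matrix.det_fin_two]
    nlinarith [mul_pos a1 a2, sq_nonneg (A 0 0 - A 1 1)]
  obtain ⟨hL, ht, hd⟩ := chain_lk hRST hP hdet B (hSEC A B R S l hdet hAR hRS)
  have hPB : Pf (cR B) := pf_congr ht hd hP
  obtain ⟨D, hD⟩ := exists_val hP
  obtain ⟨D', hD'⟩ := exists_val hPB
  obtain ⟨K1, hK1⟩ := connectU D (val_det hD)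
  obtain ⟨K2, hK2⟩ := connectU D' (val_det hD')
  obtain ⟨T1, hT1⟩ := end_mult hENDP A hA a1 a2 hP D hD (max K1 K2)
  obtain ⟨T2, hT2⟩ := end_mult hENDP B hB b1 b2 hPB D' hD' (max K1 K2)
  obtain ⟨T3, hT3⟩ := hL D D' hD hD' (max K1 K2)
  refine ⟨max T1 (max T2 T3), fun k hk => ?_⟩
  obtain ⟨W, w1, w2, w3⟩ := hT1 k ((le_max_left _ _).trans hk)
  obtain ⟨V, v1, v2, v3⟩ := hT2 k ((le_max_left _ _).trans ((le_max_right _ _).trans hk))
  obtain ⟨Z, Z', z1, z2, z3, z4, z5⟩ := hT3 k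
    ((le_max_right _ _).trans ((le_max_right _ _).trans hk))
  exact w3.trans ((hK1 W Z (by rw [w1, z1]) (w2.mono (le_max_left _ _))
    (z3.mono (le_max_left _ _))).trans (z5.trans ((hK2 Z' V (by rw [z2, v1])
    (z4.mono (le_max_right _ _)) (v2.mono (le_max_right _ _))).trans v3.symm)))

end Pool.Agent.H81SSE
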