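import Pool.Agent.H81SSE.W.Mul

/-!
# Project W: multiples of shift equivalent matrices, singular matrices included
-/

set_option autoImplicit false

namespace Pool.Agent.H81SSE

open Matrix

/-- A positive singular matrix is equivalent to its trace. -/
lemma rank_one (a b c d : ℤ) (ha : 0 < a) (hb : 0 < b) (hc : 0 < c) (hd : 0 < d)
    (h : a * d = b * c) :
    QQ (!![a, b; c, d] : M2Z) (Matrix.of fun _ _ => a + d : Matrix (Fin 1) (Fin 1) ℤ) := by
  have hg : 0 < Int.gcd a b := Int.gcd_pos_of_ne_zero_left b ha.ne'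
  obtain ⟨g, a', b', hg0, hcop, ha', hb'⟩ := Int.exists_gcd_one' hg
  have hgZ : (0 : ℤ) < (g : ℤ) := by exact_mod_cast hg0
  have h1 : a' * d = b' * c := by
    have : (g : ℤ) * (a' * d) = g * (b' * c) := by
      rw [ha', hb'] at h
      linear_combination h
    exact mul_left_cancel₀ hgZ.ne' this
  have h2 : a' ∣ c := by
    have h3 : a' ∣ b' * c := ⟨d, h1.symm⟩
    exact (Int.isCoprime_iff_gcd_eq_one.mpr hcop).dvd_of_dvd_mul_left h3
  obtain ⟨e, he⟩ := h2
  have ha0 : 0 < a' := by
    by_contra hcon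
    push Not at hcon
    have := mul_nonpos_of_nonpos_of_nonneg hcon hgZ.le
    linarith
  have hb0 : 0 < b' := by
    by_contra hcon
    push Not at hcon
    have := mul_nonpos_of_nonpos_of_nonneg hcon hgZ.le
    linarith
  have he0 : 0 < e := by
    by_contra hcon
    push Not at hcon
    have := mul_nonpos_of_nonneg_of_nonpos ha0.le hcon
    linarith
  have hde : d = b' * e := by
    have : a' * d = a' * (b' * e) := by rw [h1, he]; ring
    exact mul_left_cancel₀ ha0.ne' this
  have hq := QQ.elem (Matrix.of (fun i _ => ![(g : ℤ), e] i) : Matrix (Fin 2) (Fin 1) ℤ)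
    (Matrix.of (fun _ j => ![a', b'] j) : Matrix (Fin 1) (Fin 2) ℤ)
    (by intro i j; fin_cases i <;> simp <;> linarith)
    (by intro i j; fin_cases j <;> simp <;> linarith)
  have e1 : (Matrix.of (fun i _ => ![(g : ℤ), e] i) : Matrix (Fin 2) (Fin 1) ℤ) *
      (Matrix.of (fun _ j => ![a', b'] j) : Matrix (Fin 1) (Fin 2) ℤ) = !![a, b; c, d] := by
    ext i j
    fin_cases i <;> fin_cases j <;> simp [Matrix.mul_apply] <;>
      first
        | (rw [ha']; ring)
        | (rw [hb']; ring)
        | (rw [he]; ring)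
        | (rw [hde]; ring)
  have e2 : (Matrix.of (fun _ j => ![a', b'] j) : Matrix (Fin 1) (Fin 2) ℤ) *
      (Matrix.of (fun i _ => ![(g : ℤ), e] i) : Matrix (Fin 2) (Fin 1) ℤ) =
      (Matrix.of fun _ _ => a + d : Matrix (Fin 1) (Fin 1) ℤ) := by
    ext i j
    simp [Matrix.mul_apply, Fin.sum_univ_two]
    rw [ha', hde]
  rw [e1, e2] at hq
  exact hq

lemma sq_of_det (A : M2Z) (h : A.det = 0) : A * A = A.trace • A := by
  rw [Matrix.det_fin_two] at h
  ext i j
  rw [Matrix.smul_apply, smul_eq_mul, Matrix.mul_apply, Fin.sum_univ_two, Matrix.trace_fin_two]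
  fin_cases i <;> fin_cases j <;> simp only [Fin.zero_eta, Fin.isValue, Fin.mk_one]
  · linear_combination -h
  · ring
  · ring
  · linear_combination -h

lemma trace_pow_of_det (A : M2Z) (h : A.det = 0) (l : ℕ) :
    A ^ (l + 1) = A.trace ^ l • A := by
  induction l with
  | zero => simp
  | succ l ih =>
    rw [pow_succ, ih, Matrix.smul_mul, sq_of_det A h, smul_smul, pow_succ]

/-- The final statement over the integers, singular matrices included. -/
def MUL2 : Prop := ∀ (A B R S : M2Z) (l : ℕ), 1 ≤ l → NN A → NN B → 0 < A 0 1 → 0 < A 1 0 →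
  0 < B 0 1 → 0 < B 1 0 → 0 < A.trace → A * R = R * B → R * S = A ^ l → S * R = B ^ l →
  ∃ T : ℤ, ∀ k : ℤ, T ≤ k → QQ (k • A) (k • B)

lemma rank_one' (A : M2Z) (hA : NN A) (h1 : 0 < A 0 1) (h2 : 0 < A 1 0)
    (hd : A.det = 0) (k : ℤ) (hk : 1 ≤ k) :
    QQ (k • A) (Matrix.of fun _ _ => k * A.trace : Matrix (Fin 1) (Fin 1) ℤ) := by
  rw [Matrix.det_fin_two] at hd
  have hp := mul_pos h1 h2
  have ha : 0 < A 0 0 := by
    rcases (hA 0 0).lt_or_eq with h | h
    · exact h
    · rw [← h] at hd; linarith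
  have hdd : 0 < A 1 1 := by
    rcases (hA 1 1).lt_or_eq with h | h
    · exact h
    · rw [← h] at hd; linarith
  have hk0 : 0 < k := by linarith
  have h := rank_one (k * A 0 0) (k * A 0 1) (k * A 1 0) (k * A 1 1) (mul_pos hk0 ha)
    (mul_pos hk0 h1) (mul_pos hk0 h2) (mul_pos hk0 hdd) (by linear_combination k ^ 2 * hd)
  have e1 : k • A = !![k * A 0 0, k * A 0 1; k * A 1 0, k * A 1 1] := by
    ext i j
    fin_cases i <;> fin_cases j <;> simp
  have e2 : (Matrix.of fun _ _ => k * A.trace : Matrix (Fin 1) (Fin 1) ℤ) =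
      Matrix.of fun _ _ => k * A 0 0 + k * A 1 1 := by
    ext i j
    simp [Matrix.trace_fin_two, mul_add]
  rw [e1, e2]
  exact h

theorem mul2_main (hM : MUL) : MUL2 := by
  intro A B R S l hl hA hB a1 a2 b1 b2 htr hAR hRS hSR
  by_cases hdet : A.det = 0
  · obtain ⟨l, rfl⟩ : ∃ m, l = m + 1 := ⟨l - 1, by omega⟩
    have hdB : B.det = 0 := by
      have h1 : (B ^ (l + 1)).det = 0 := by
        rw [← hSR, Matrix.det_mul, mul_comm, ← Matrix.det_mul, hRS, Matrix.det_pow, hdet,
          zero_pow (by omega)]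
      rw [Matrix.det_pow] at h1
      exact pow_eq_zero_iff (by omega) |>.mp h1
    have ht : A.trace ^ (l + 1) = B.trace ^ (l + 1) := by
      have h1 : (A ^ (l + 1)).trace = (B ^ (l + 1)).trace := by
        rw [← hRS, ← hSR, Matrix.trace_mul_comm]
      rw [trace_pow_of_det A hdet, trace_pow_of_det B hdB, Matrix.trace_smul,
        Matrix.trace_smul, smul_eq_mul, smul_eq_mul, ← pow_succ, ← pow_succ] at h1
      exact h1
    have htB : 0 ≤ B.trace := by
      rw [Matrix.trace_fin_two]; exact add_nonneg (hB 0 0) (hB 1 1)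
    have ht' : A.trace = B.trace := (pow_left_inj₀ htr.le htB (by omega)).mp ht
    refine ⟨1, fun k hk => ?_⟩
    have q1 := rank_one' A hA a1 a2 hdet k hk
    have q2 := rank_one' B hB b1 b2 hdB k hk
    rw [ht'] at q1
    exact q1.trans q2.symm
  · exact hM A B R S l hA hB a1 a2 b1 b2 htr hdet hAR hRS

end Pool.Agent.H81SSE
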