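import Pool.Agent.H81SSE.W.Stm5

/-!
# Stub RST of project W (proof by helper67)
-/

set_option autoImplicit false
set_option linter.unusedSectionVars false

namespace Pool.Agent.H81SSE

open Matrix

namespace RSTaux

/-- the matrix `m • 1 + J` -/
def Hm (m : ℤ) : M2Z := !![m + 1, 1; 1, m + 1]

/-- its adjugate -/
def Ha (m : ℤ) : M2Z := !![m + 1, -1; -1, m + 1]

lemma adj_Hm (m : ℤ) : (Hm m).adjugate = Ha m := by
  rw [Hm, Ha, Matrix.adjugate_fin_two_of]

lemma det_Hm (m : ℤ) : (Hm m).det = m ^ 2 + 2 * m := by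
  rw [Hm, Matrix.det_fin_two_of]
  ring

lemma Hm_ge {m : ℤ} (hm : 0 ≤ m) : GE 1 (Hm m) := by
  intro i j
  fin_cases i <;> fin_cases j <;> simp [Hm] <;> linarith

lemma ge_mul {α β γ : Type} [Fintype β] [Nonempty β] {M : Matrix α β ℤ} {N : Matrix β γ ℤ} {c : ℤ}
    (hM : GE 1 M) (hN : GE c N) (hc : 0 ≤ c) : GE c (M * N) :=
  RP.mul_ge ⟨hM.nn (by norm_num), fun i => by
    obtain ⟨j⟩ := (inferInstance : Nonempty β)
    exact ⟨j, hM i j⟩⟩ hN hc

lemma ge_mul' {α β γ : Type} [Fintype β] [Nonempty β] {M : Matrix α β ℤ} {N : Matrix β γ ℤ} {c : ℤ}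
    (hM : GE c M) (hN : GE 1 N) (hc : 0 ≤ c) : GE c (M * N) := by
  have h1 : GE c (Nᵀ * Mᵀ) := ge_mul (fun i j => hN j i) (fun i j => hM j i) hc
  intro i j
  have h2 := h1 j i
  rw [← Matrix.transpose_mul] at h2
  exact h2

lemma ge_smul {α β : Type} {M : Matrix α β ℤ} {c d : ℤ} (hM : GE c M) (hc : 0 ≤ c) (hd : 1 ≤ d) :
    GE c (d • M) := by
  intro i j
  rw [Matrix.smul_apply, smul_eq_mul]
  have := hM i j
  nlinarith

lemma HaHaP {m p : ℤ} {P : M2Z} (hP : GE 1 P) (hb : ∀ i j, |P i j| ≤ p) (hp : 1 ≤ p)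
    (hm : m = 4 * p) : GE 1 (Ha m * (Ha m * P)) := by
  have h1 : ∀ i j, P i j ≤ p := fun i j => (le_abs_self _).trans (hb i j)
  intro i j
  have e : (Ha m * (Ha m * P)) i j = (m + 2) ^ 2 * P i j - (2 * m + 2) * (P 0 j + P 1 j) := by
    simp only [Matrix.mul_apply, Fin.sum_univ_two]
    fin_cases i <;> simp [Ha] <;> ring
  rw [e]
  have a1 := hP i j
  have a2 := h1 0 j
  have a3 := h1 1 j
  have a4 : (m + 2) ^ 2 * 1 ≤ (m + 2) ^ 2 * P i j := mul_le_mul_of_nonneg_left a1 (sq_nonneg _)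
  have a5 : (2 * m + 2) * (P 0 j + P 1 j) ≤ (2 * m + 2) * (2 * p) :=
    mul_le_mul_of_nonneg_left (by linarith) (by linarith)
  subst hm
  nlinarith

lemma HaPH {m p : ℤ} {P : M2Z} (hP : GE 1 P) (hb : ∀ i j, |P i j| ≤ p) (hp : 1 ≤ p)
    (hm : m = 4 * p) : GE 1 (Ha m * P * Hm m) := by
  have h1 : ∀ i j, P i j ≤ p := fun i j => (le_abs_self _).trans (hb i j)
  intro i j
  have e : (Ha m * P * Hm m) i j = (m + 2) * m * P i j + (m + 2) * (P i 0 + P i 1) -
      m * (P 0 j + P 1 j) - (P 0 0 + P 0 1 + P 1 0 + P 1 1) := by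
    simp only [Matrix.mul_apply, Fin.sum_univ_two]
    fin_cases i <;> fin_cases j <;> simp [Ha, Hm] <;> ring
  rw [e]
  have a1 := hP i j
  have a2 : (m + 2) * m * 1 ≤ (m + 2) * m * P i j :=
    mul_le_mul_of_nonneg_left a1 (mul_nonneg (by linarith) (by linarith))
  have a3 : (m + 2) * 2 ≤ (m + 2) * (P i 0 + P i 1) :=
    mul_le_mul_of_nonneg_left (by linarith [hP i 0, hP i 1]) (by linarith)
  have a4 : m * (P 0 j + P 1 j) ≤ m * (2 * p) :=
    mul_le_mul_of_nonneg_left (by linarith [h1 0 j, h1 1 j]) (by linarith)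
  have a5 : P 0 0 + P 0 1 + P 1 0 + P 1 1 ≤ 4 * p := by
    linarith [h1 0 0, h1 0 1, h1 1 0, h1 1 1]
  subst hm
  nlinarith

end RSTaux

open RSTaux

theorem RST_holds (h : FAC2) : RST := by
  intro R S hR hPf
  obtain ⟨D1, hD1⟩ := exists_val hPf
  have d1 : 0 < D1.det := by
    have := hD1.1
    rw [cR_det] at this
    exact_mod_cast this
  set P : M2Z := D1.adjugate * (R * S) * D1 with hPdef
  have hP : GE 1 P := by
    apply ge_one_of_pos
    rw [hPdef, cR_mul, cR_mul, ← cR_adj]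
    exact hD1.2
  obtain ⟨p, hp1, hp⟩ := exists_bd P
  set m : ℤ := 4 * p with hm
  have hm0 : 0 < m := by linarith
  set H : M2Z := Hm m with hH
  have hHge : GE 1 H := Hm_ge hm0.le
  have hHdet : 0 < H.det := by
    rw [hH, det_Hm]
    positivity
  have hHadj : H.adjugate = Ha m := adj_Hm m
  set D2 : M2Z := R.adjugate * D1 * H with hD2
  have d2 : 0 < D2.det := by
    rw [hD2, Matrix.det_mul, Matrix.det_mul, Matrix.det_adjugate]
    have : R.det ^ (Fintype.card (Fin 2) - 1) = R.det := by simp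
    rw [this]
    positivity
  have hRadj : R.adjugate.adjugate = R := by
    rw [Matrix.adjugate_adjugate' R]
    simp
  have hD2adj : D2.adjugate = Ha m * (D1.adjugate * R) := by
    rw [hD2, Matrix.adjugate_mul_distrib, Matrix.adjugate_mul_distrib, hRadj, hHadj]
  set E : M2Z := D2 * H with hE
  have dE : 0 < E.det := by
    rw [hE, Matrix.det_mul]
    exact mul_pos d2 hHdet
  have hEadj : E.adjugate = Ha m * (Ha m * (D1.adjugate * R)) := by
    rw [hE, Matrix.adjugate_mul_distrib, hHadj, hD2adj]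
  set y : M2Z := Jn (Fin 2) * D1.adjugate with hy
  have k1 : GE 1 (D2.adjugate * E) := by
    rw [hE, ← Matrix.mul_assoc, Matrix.adjugate_mul, Matrix.smul_mul, Matrix.one_mul]
    exact ge_smul hHge (by norm_num) d2
  have k2 : GE 1 (y * D1) := by
    rw [hy, Matrix.mul_assoc, Matrix.adjugate_mul, Matrix.mul_smul, Matrix.mul_one]
    exact ge_smul (fun i j => by simp [Jn]) (by norm_num) d1
  have k3 : GE 1 (E.adjugate * S * D1) := by
    have e : E.adjugate * S * D1 = Ha m * (Ha m * P) := by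
      rw [hEadj, hPdef]
      simp only [Matrix.mul_assoc]
    rw [e]
    exact HaHaP hP hp hp1 hm
  have hval2 : Val (cR (S * R)) (cR D2) := by
    refine ⟨?_, ?_⟩
    · rw [cR_det]
      exact_mod_cast d2
    · intro i j
      have e : D2.adjugate * (S * R) * D2 = R.det • (Ha m * P * H) := by
        rw [hD2adj, hD2, hPdef]
        have e1 : S * R * (R.adjugate * D1 * H) = R.det • (S * D1 * H) := by
          rw [← Matrix.mul_assoc, ← Matrix.mul_assoc, Matrix.mul_assoc S, Matrix.mul_adjugate,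
            Matrix.mul_smul, Matrix.mul_one, Matrix.smul_mul, Matrix.smul_mul]
        rw [Matrix.mul_assoc (Ha m * (D1.adjugate * R)), e1, Matrix.mul_smul]
        simp only [Matrix.mul_assoc]
      have e2 : (cR D2).adjugate * cR (S * R) * cR D2 = cR (D2.adjugate * (S * R) * D2) := by
        rw [cR_mul (D2.adjugate * (S * R)) D2, cR_mul D2.adjugate (S * R), cR_adj D2]
      rw [e2, e]
      have e3 := ge_smul (HaPH hP hp hp1 hm) (by norm_num) (show 1 ≤ R.det from hR) i j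
      simp only [cR, Matrix.map_apply]
      have e4 : 0 < (R.det • (Ha m * P * H)) i j := by linarith
      exact_mod_cast e4
  refine ⟨D1, D2, hD1, hval2, ?_⟩
  intro K
  obtain ⟨e1, he1⟩ := ex D1 d1 (max K 0)
  obtain ⟨e2, he2⟩ := ex D2 d2 (max K 0)
  set c : ℤ := max 1 (max e1 e2) with hc
  have hc1 : 1 ≤ c := le_max_left _ _
  obtain ⟨C, hC⟩ := h D1 D2 E y d1 d2 dE k1 k2 c hc1
  refine ⟨max C 1, fun k hk => ?_⟩
  have hkC : C ≤ k := (le_max_left _ _).trans hk
  have hk1 : 1 ≤ k := (le_max_right _ _).trans hk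
  obtain ⟨X, Y, hXY, hX, hY⟩ := hC (k • S) (by
    rw [Matrix.mul_smul, Matrix.smul_mul]
    intro i j
    rw [Matrix.smul_apply, smul_eq_mul]
    have := k3 i j
    nlinarith)
  have hXc : GE 1 (D2.adjugate * X) := hX.mono hc1
  obtain ⟨α, ha, hae⟩ := he1 Y (hY.mono ((le_max_left _ _).trans (le_max_right _ _)))
  have hYR : GE c (Y * R * D2) := by
    have e : Y * R * D2 = R.det • (Y * D1 * H) := by
      rw [hD2, ← Matrix.mul_assoc, ← Matrix.mul_assoc, Matrix.mul_assoc Y, Matrix.mul_adjugate,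
        Matrix.mul_smul, Matrix.mul_one, Matrix.smul_mul, Matrix.smul_mul]
    rw [e]
    exact ge_smul (ge_mul' hY hHge (by linarith)) (by linarith) hR
  obtain ⟨α', ha', hae'⟩ := he2 (Y * R) (hYR.mono ((le_max_right _ _).trans (le_max_right _ _)))
  have r0 : GE 1 (D1.adjugate * (R * X)) := by
    have e : H * (D2.adjugate * X) = H.det • (D1.adjugate * (R * X)) := by
      rw [hD2adj, ← hHadj]
      rw [← Matrix.mul_assoc, ← Matrix.mul_assoc H, Matrix.mul_adjugate, Matrix.smul_mul,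
        Matrix.one_mul, Matrix.smul_mul, Matrix.mul_assoc]
    have h1 := ge_mul hHge hXc (by norm_num)
    rw [e] at h1
    intro i j
    have h2 := h1 i j
    rw [Matrix.smul_apply, smul_eq_mul] at h2
    by_contra hcon
    have h3 : (D1.adjugate * (R * X)) i j ≤ 0 := by omega
    have h4 := mul_nonpos_of_nonneg_of_nonpos hHdet.le h3
    linarith
  have rp : ∀ {α β : Type} [Nonempty β] {M : Matrix α β ℤ}, GE 1 M → RP M := by
    intro α β _ M h
    refine ⟨h.nn (by norm_num), fun i => ?_⟩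
    obtain ⟨j⟩ := (inferInstance : Nonempty β)
    exact ⟨j, h i j⟩
  have r1 : RP (UU D1 * (R * X)) := rp (U_ge D1 d1 (R * X) r0)
  have r2 : RP (UU D2 * X) := rp (U_ge D2 d2 X hXc)
  refine ⟨R * X * α, X * α', ?_, ?_, ?_, ?_, ?_⟩
  · rw [Matrix.mul_assoc, hae, Matrix.mul_assoc, hXY, Matrix.mul_smul]
  · rw [Matrix.mul_assoc, hae', ← Matrix.mul_assoc, hXY, Matrix.smul_mul]
  · rw [← Matrix.mul_assoc]
    exact (r1.mul_ge ha (le_max_right _ _)).mono (le_max_left _ _)
  · rw [← Matrix.mul_assoc]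
    exact (r2.mul_ge ha' (le_max_right _ _)).mono (le_max_left _ _)
  · have q1 : QQ (UU D1 * (R * X) * α) (Y * (R * X)) := by
      have := QQ.elem (UU D1 * (R * X)) α r1.1 (ha.nn (le_max_right _ _))
      rwa [← Matrix.mul_assoc α (UU D1) (R * X), hae] at this
    have q2 : QQ (UU D2 * X * α') (Y * (R * X)) := by
      have := QQ.elem (UU D2 * X) α' r2.1 (ha'.nn (le_max_right _ _))
      rwa [← Matrix.mul_assoc α' (UU D2) X, hae', Matrix.mul_assoc Y R X] at this
    rw [← Matrix.mul_assoc (UU D1), ← Matrix.mul_assoc (UU D2)]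
    exact q1.trans q2.symm

end Pool.Agent.H81SSE
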