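import Pool.Agent.H81SSE.W.Stm5
import Pool.Agent.Y321.SE2.Lat

/-!
# Shift equivalence over `ℤ` gives a chain of elementary equivalences of integer matrices
-/

set_option autoImplicit false

namespace Pool.Agent.H81SSE

open Matrix

lemma sec_cancel {R X Y : M2Z} (hR : R.det ≠ 0) (h : R * X = R * Y) : X = Y := by
  have h1 : R.adjugate * (R * X) = R.adjugate * (R * Y) := by rw [h]
  rw [← Matrix.mul_assoc, ← Matrix.mul_assoc, Matrix.adjugate_mul, Matrix.smul_mul,
    Matrix.smul_mul, Matrix.one_mul, Matrix.one_mul] at h1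
  ext i j
  have h2 := congrFun (congrFun h1 i) j
  simp only [Matrix.smul_apply, smul_eq_mul] at h2
  exact mul_left_cancel₀ hR h2

lemma sec_pow_comm (R S : M2Z) (k : ℕ) : (R * S) ^ k * R = R * (S * R) ^ k := by
  induction k with
  | zero => simp
  | succ k ih => rw [pow_succ, Matrix.mul_assoc, Matrix.mul_assoc, ← Matrix.mul_assoc _ R,
      ih, pow_succ, Matrix.mul_assoc]

lemma sec_intertwine {A R B : M2Z} (h : A * R = R * B) (k : ℕ) : A ^ k * R = R * B ^ k := by
  induction k with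
  | zero => simp
  | succ k ih => rw [pow_succ, Matrix.mul_assoc, h, ← Matrix.mul_assoc, ih, Matrix.mul_assoc,
      pow_succ]

lemma sec_unimod {A B R S X Y : M2Z} (hAR : A * R = R * B) (l : ℕ)
    (hRS : R * S = A ^ l) (h1 : 1 = R * X + A * Y) : IsUnit R.det := by
  have key : ∀ k : ℕ, ∃ X' Y' : M2Z, 1 = R * X' + A ^ k * Y' := by
    intro k
    induction k with
    | zero => exact ⟨0, 1, by simp⟩
    | succ k ih =>
      obtain ⟨X', Y', h2⟩ := ih
      refine ⟨X' + B ^ k * (X * Y'), Y * Y', ?_⟩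
      calc (1 : M2Z) = R * X' + A ^ k * Y' := h2
        _ = R * X' + A ^ k * ((R * X + A * Y) * Y') := by rw [← h1, Matrix.one_mul]
        _ = R * X' + ((A ^ k * R) * (X * Y') + (A ^ k * A) * (Y * Y')) := by
            rw [Matrix.add_mul, Matrix.mul_add]; simp only [Matrix.mul_assoc]
        _ = R * (X' + B ^ k * (X * Y')) + A ^ (k + 1) * (Y * Y') := by
            rw [sec_intertwine hAR, Matrix.mul_add, pow_succ, Matrix.mul_assoc R (B ^ k),
              add_assoc]
  obtain ⟨X', Y', h2⟩ := key l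
  rw [← hRS, Matrix.mul_assoc, ← Matrix.mul_add] at h2
  have h3 := congrArg Matrix.det h2
  rw [Matrix.det_one, Matrix.det_mul] at h3
  exact IsUnit.of_mul_eq_one _ h3.symm

lemma sec_ind (l n : ℕ) : ∀ (A B R S : M2Z), A.det ≠ 0 → A * R = R * B → R * S = A ^ l →
    R.det.natAbs ≤ n → Relation.ReflTransGen ElZ A B := by
  induction n with
  | zero =>
    intro A B R S hD _ hRS hn
    exfalso
    have h1 : R.det = 0 := by
      have : R.det.natAbs = 0 := by omega
      exact Int.natAbs_eq_zero.mp this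
    have h2 := congrArg Matrix.det hRS
    rw [Matrix.det_mul, h1, zero_mul, Matrix.det_pow] at h2
    exact (pow_ne_zero _ hD) h2.symm
  | succ n ih =>
    intro A B R S hD hAR hRS hn
    have hRdet : R.det ≠ 0 := by
      intro h1
      have h2 := congrArg Matrix.det hRS
      rw [Matrix.det_mul, h1, zero_mul, Matrix.det_pow] at h2
      exact (pow_ne_zero _ hD) h2.symm
    obtain ⟨R₁, R₂, S₁, X, Y, h1, h2, h3⟩ := Pool.Agent.Y321.SE2.left_gcd R A hRdet
    have hdet : R.det = R₁.det * R₂.det := by rw [h1, Matrix.det_mul]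
    have hR₁ : R₁.det ≠ 0 := by
      intro h; rw [h, zero_mul] at hdet; exact hRdet hdet
    have hR₂ : R₂.det ≠ 0 := by
      intro h; rw [h, mul_zero] at hdet; exact hRdet hdet
    by_cases hu : IsUnit R₁.det
    · have h5 : R₁ * R₁⁻¹ = 1 := Matrix.mul_nonsing_inv _ hu
      have h4 : (1 : M2Z) = R * (X * R₁⁻¹) + A * (Y * R₁⁻¹) := by
        rw [← Matrix.mul_assoc, ← Matrix.mul_assoc, ← Matrix.add_mul, ← h3, h5]
      have hR := sec_unimod hAR l hRS h4
      refine Relation.ReflTransGen.single ⟨R, R⁻¹ * A, ?_, ?_⟩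
      · rw [← Matrix.mul_assoc, Matrix.mul_nonsing_inv _ hR, Matrix.one_mul]
      · rw [Matrix.mul_assoc, hAR, ← Matrix.mul_assoc, Matrix.nonsing_inv_mul _ hR,
          Matrix.one_mul]
    · have c1 : S₁ * R = R₂ * B := by
        apply sec_cancel hR₁
        rw [← Matrix.mul_assoc, ← h2, hAR, ← Matrix.mul_assoc, ← h1]
      have c2 : R₂ * (S * R₁) = (S₁ * R₁) ^ l := by
        apply sec_cancel hR₁
        rw [← sec_pow_comm, ← h2, ← hRS, h1]
        simp only [Matrix.mul_assoc]
      have c3 : (S₁ * R₁) * R₂ = R₂ * B := by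
        rw [Matrix.mul_assoc, ← h1, c1]
      have hD' : (S₁ * R₁).det ≠ 0 := by
        rw [Matrix.det_mul, mul_comm, ← Matrix.det_mul, ← h2]; exact hD
      have hlt : R₂.det.natAbs ≤ n := by
        have e2 : R.det.natAbs = R₁.det.natAbs * R₂.det.natAbs := by
          rw [hdet, Int.natAbs_mul]
        have e3 : 2 ≤ R₁.det.natAbs := by
          have k1 : R₁.det.natAbs ≠ 0 := Int.natAbs_ne_zero.mpr hR₁
          have k2 : R₁.det.natAbs ≠ 1 := fun h => hu (Int.isUnit_iff_natAbs_eq.mpr h)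
          omega
        have e4 : 1 ≤ R₂.det.natAbs := Nat.one_le_iff_ne_zero.mpr (Int.natAbs_ne_zero.mpr hR₂)
        have e5 : 2 * R₂.det.natAbs ≤ R.det.natAbs := by
          rw [e2]; exact Nat.mul_le_mul_right _ e3
        omega
      exact Relation.ReflTransGen.head ⟨R₁, S₁, h2, rfl⟩
        (ih (S₁ * R₁) B R₂ (S * R₁) hD' c3 c2 hlt)

theorem SECb_holds : SEC := fun A B R S l h1 h2 h3 => sec_ind l _ A B R S h1 h2 h3 le_rfl

end Pool.Agent.H81SSE
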