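import Pool.Agent.H81SSE.W.Mul2
import Pool.Agent.H81SSE.W.FAC2
import Pool.Agent.H81SSE.W.RST
import Pool.Agent.H81SSE.W.SECb
import Pool.Agent.H81SSE.W.END0
import Pool.Agent.H81SSE.W.ENDP

/-!
# Project W: multiples of shift equivalent matrices, final theorem over the integers
-/

set_option autoImplicit false

namespace Pool.Agent.H81SSE

theorem MUL2_holds : MUL2 :=
  mul2_main (mul_main (RST_holds FAC2_holds) SECb_holds (ENDP_holds END0_holds))

end Pool.Agent.H81SSE
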