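import Pool.Agent.H81SSE.Path.L

/-!
# Project W: blueprint for 2 by 2 matrices with thin lattices

Notation (all integer): `A = (a b; c d)`, `z = (x, y)` a column. The three rows
`b0 = (1, n)`, `e = (0, 1)`, `bm = (-1, m)` satisfy `b0 + bm = (n + m) e`.
-/

set_option autoImplicit false

namespace Pool.Agent.H81SSE

open Matrix

/-- The three functionals. -/
def U3 (n m : ℤ) : Matrix (Fin 3) (Fin 2) ℤ := !![1, n; 0, 1; -1, m]

/-- The lift of `(a b; c d)` over `U3 n m` with parameter `(x, y)`: `W3 * U3 = (a b; c d)`. -/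
def W3 (a b c d n m x y : ℤ) : Matrix (Fin 2) (Fin 3) ℤ :=
  !![a + x, b - n * (a + x) - m * x, x; c + y, d - n * (c + y) - m * y, y]

/-- Admissible parameters: the values of `b0` and `bm` on the three columns are nonnegative. -/
def Adm (a b c d n m x y : ℤ) : Prop :=
  0 ≤ x + n * y ∧ 0 ≤ -x + m * y ∧ 0 ≤ (a + n * c) + (x + n * y) ∧
    0 ≤ (-a + m * c) + (-x + m * y) ∧
    (n + m) * (x + n * y) ≤ b - n * a + n * (d - n * c) ∧
    (n + m) * (-x + m * y) ≤ -(b - n * a) + m * (d - n * c)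

/-- STUB W3U. Direct computation (ext, fin_cases, simp, ring). -/
def W3U : Prop := ∀ a b c d n m x y : ℤ,
  W3 a b c d n m x y * U3 n m = !![a, b; c, d]

/-- STUB ADM. The rows of index 0 and 2 of `U3 * W3` are the six quantities in `Adm`; the row of
index 1 is `(c + y, d - n(c+y) - m y, y)`, and `(n + m)` times it is the sum of the other rows, so
it is nonnegative as `n + m ≥ 1`. -/
def ADM : Prop := ∀ a b c d n m x y : ℤ, 1 ≤ n + m → Adm a b c d n m x y →
  NN (U3 n m * W3 a b c d n m x y)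

/-- STUB MOV (use ADM). Put `N = n + m`, `s = x + n y` (value of `b0` at `z`),
`t = -x + m y` (value of `bm`), so `s + t = N y`, and `z` is determined by `(s, t)` with `N | s + t`.
`Adm` says `lo0 ≤ s`, `N s ≤ β`, `lo1 ≤ t`, `N t ≤ β'` with `lo0 = max 0 (-(a + n c))`,
`lo1 = max 0 (a - m c)`, `β = b - n a + n (d - n c)`, `β' = -(b - n a) + m (d - n c)`; so with
`h0 = β / N`, `h1 = β' / N` (floors) a rectangle `[lo0, h0] × [lo1, h1]` whose sides are at least
`2 N` long by the two hypotheses.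

Basic move: for `0 ≤ i ≤ N` let `w = (i - n, 1)`: `b0 w = i`, `bm w = N - i`, `e w = 1`. If `z` and
`z + w` are both admissible then `QQ (U3 * W3 z) (U3 * W3 (z + w))` by the lemma `bl` (file
Path/A.lean) with `U = U' = U3 n m`, `X = [W1 | W2 - N w | W3col | w]` (a 2 by 4 matrix, where `W1`,
`W2`, `W3col` are the columns of `W3 z`), `α = (1 0 0; 0 1 0; 0 0 1; 0 N 0)`,
`α' = (1 0 0; 0 1 0; 0 0 1; 1 0 1)`; `α * U3 = α' * U3` as `b0 + bm = N e`; all entries of `U3 * X`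
are nonnegative: columns 1 and 3 by ADM at `z`, column 2 by ADM at `z + w`, column 4 clear.

Connectivity inside the rectangle: (i) if the sum `s + t` of `P` is smaller than that of `P'`, then
`(h0 - s) + (h1 - t) ≥ N`, so some move `(i, N - i)` from `P` stays inside; repeat until the sums are
equal. (ii) Inside one antidiagonal: `(s, t)` to `(s + 1, t - 1)` (both inside): if `t - N ≥ lo1`
use `(s, t - N)` as intermediate point, else `(s + 1, t + N - 1)`, which is inside because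
`t + N - 1 < lo1 + 2 N ≤ h1 + 1`. -/
def MOV : Prop := ∀ a b c d n m x y x' y' : ℤ, 1 ≤ n + m →
  Adm a b c d n m x y → Adm a b c d n m x' y' →
  (n + m) * (2 * (n + m)) ≤ b - n * a + n * (d - n * c) →
  (n + m) * (-(a + n * c) + 2 * (n + m)) ≤ b - n * a + n * (d - n * c) →
  (n + m) * (2 * (n + m)) ≤ -(b - n * a) + m * (d - n * c) →
  (n + m) * ((a - m * c) + 2 * (n + m)) ≤ -(b - n * a) + m * (d - n * c) →
  QQ (U3 n m * W3 a b c d n m x y) (U3 n m * W3 a b c d n m x' y')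

/-- STUB TRN. With `T = (1, n - n', 0; 0, 1, 0; 0, m - m', 1)`, nonnegative: `U3 n m = T * U3 n' m'`
and `W3 .. n' m' x y = W3 .. n m x y * T`. So `QQ.elem T (U3 n' m' * W3 .. n m ..)` (nonnegative by
hypothesis) gives the claim. -/
def TRN : Prop := ∀ a b c d n m n' m' x y : ℤ, n' ≤ n → m' ≤ m →
  NN (U3 n' m' * W3 a b c d n m x y) →
  QQ (U3 n m * W3 a b c d n m x y) (U3 n' m' * W3 a b c d n' m' x y)

/-- STUB TOP. `U3 n m * W3 .. 0 0` has third column zero and its upper left 2 by 2 block is the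
matrix on the left. With `R` the 3 by 2 matrix of the first two columns and `S = (1 0 0; 0 1 0)`:
`R * S = U3 * W3`, `S * R` the left matrix; `QQ.elem`, `QQ.symm`. -/
def TOP : Prop := ∀ a b c d n m : ℤ, 1 ≤ n + m → Adm a b c d n m 0 0 →
  QQ (!![a + n * c, b - n * a + n * (d - n * c); c, d - n * c] : M2Z)
    (U3 n m * W3 a b c d n m 0 0)

/-- The conjugate of `(a b; c d)` by the shear `(1 n; 0 1)` (rows `(1, n)`, `(0, 1)`). -/
def Bk (a b c d n : ℤ) : M2Z := !![a + n * c, b - n * a + n * (d - n * c); c, d - n * c]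

/-- STUB BLK. Let `τ = a + d`, all blocks `Bk .. n` with `τ ≤ 5 (a + n c)`, `τ ≤ 5 (d - n c)` are
`QQ`-equivalent, if `0 < c`, `100 c ≤ τ`, `a d < b c`. It is enough to pass from `n + 1` to `n` for
two consecutive such `n` (the admissible `n` form an interval). Put `a' = a + (n+1) c`,
`d' = d - (n+1) c`, `b' ` the upper right entry of `Bk (n+1)`. The determinant is invariant:
`a' d' < b' c`. `E = (1 1; 0 1)`, `R = (a' - c, b' - d'; c, d')`: `E * R = Bk (n+1)` and
`R * E = Bk n`. `R ≥ 0`: `a' ≥ c` and `b' c > a' d' ≥ c d'` so `b' > d'`. Use `QQ.elem`. -/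
def BLK : Prop := ∀ a b c d n n' : ℤ, 0 < c → 100 * c ≤ a + d → a * d < b * c →
  a + d ≤ 5 * (a + n * c) → a + d ≤ 5 * (d - n * c) →
  a + d ≤ 5 * (a + n' * c) → a + d ≤ 5 * (d - n' * c) →
  QQ (Bk a b c d n) (Bk a b c d n')

/-- STUB TRA. Transposes: if `A = R S`, `B = S R` then `Aᵀ = Sᵀ Rᵀ`, `Bᵀ = Rᵀ Sᵀ`. In Lean: `QQ` is
`Relation.TransGen Elem (fm A) (fm B)` (file Core.lean); `fm Aᵀ` is the transpose of `fm A`; induct
on the chain. -/
def TRA : Prop := ∀ (α β : Type) [Fintype α] [Fintype β] (A : Matrix α α ℤ) (B : Matrix β β ℤ),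
  QQ A B → QQ Aᵀ Bᵀ

/-- STUB SWP. Simultaneous permutation of rows and columns of a nonnegative matrix:
`(a b; c d) = σ * (c d; a b)`, `(c d; a b) * σ = (d c; b a)` with `σ = (0 1; 1 0)`. -/
def SWP : Prop := ∀ a b c d : ℤ, 0 ≤ a → 0 ≤ b → 0 ≤ c → 0 ≤ d →
  QQ (!![a, b; c, d] : M2Z) (!![d, c; b, a] : M2Z)

/-- The hat: `(a b; c d)` becomes `(d b; c a)`, i.e. `σ Mᵀ σ`. -/
def hat (M : M2Z) : M2Z := sw * Mᵀ * sw

/-- STUB CRS: the crossing (from EST, ADM, MOV, TRN, TOP). Statement of EST: for given bounds there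
are levels `n₀ ≤ n ≤ j`, with widths `m n` and parameters `(X n, Y n)`. CRS: chain
`Bk j` -TOP- level `j`, parameter `0` -MOV- level `j`, parameter `(X (j-1), Y (j-1))` -TRN- level
`j-1`, parameter `(X (j-1), Y (j-1))` -MOV- level `j-1`, parameter `(X (j-2), Y (j-2))` ... down to
level `n₀`, parameter `(X n₀, Y n₀)`. -/
def Room (a b c d n m : ℤ) : Prop :=
  (n + m) * (2 * (n + m)) ≤ b - n * a + n * (d - n * c) ∧
  (n + m) * (-(a + n * c) + 2 * (n + m)) ≤ b - n * a + n * (d - n * c) ∧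
  (n + m) * (2 * (n + m)) ≤ -(b - n * a) + m * (d - n * c) ∧
  (n + m) * ((a - m * c) + 2 * (n + m)) ≤ -(b - n * a) + m * (d - n * c)

/-- The data of the crossing between levels `n₀` and `j`. -/
def Levels (a b c d n₀ j : ℤ) (m X Y : ℤ → ℤ) : Prop :=
  (∀ n, n₀ ≤ n → n ≤ j → 1 ≤ m n ∧ Room a b c d n (m n)) ∧
  Adm a b c d j (m j) 0 0 ∧
  (∀ n, n₀ ≤ n → n < j → Adm a b c d n (m n) (X n) (Y n) ∧
    Adm a b c d (n + 1) (m (n + 1)) (X n) (Y n) ∧ m n ≤ m (n + 1) ∧
    NN (U3 n (m n) * W3 a b c d (n + 1) (m (n + 1)) (X n) (Y n)))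

/-- STUB CRS (`theorem CRS_holds (h1 : MOV) (h2 : TRN) (h3 : TOP) : CRS`). -/
def CRS : Prop := ∀ (a b c d n₀ j : ℤ) (m X Y : ℤ → ℤ), 1 ≤ n₀ → n₀ < j →
  Levels a b c d n₀ j m X Y →
  QQ (Bk a b c d j) (U3 n₀ (m n₀) * W3 a b c d n₀ (m n₀) (X n₀) (Y n₀))

end Pool.Agent.H81SSE
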