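import Pool.Agent.H81SSE.W.Stm

/-!
# Project W, third batch: links between lifts, chains
-/

set_option autoImplicit false

namespace Pool.Agent.H81SSE

open Matrix

/-- The cone that belongs to `U3 n m`: its adjugate is `(1 n; -1 m)`, its determinant `n + m`. -/
def D3 (n m : ℤ) : M2Z := !![m, -n; 1, 1]

/-- STUB EX3. Copy of the lemma `ex` (file Path/C.lean) with `U3 n m` for `UU D`, `D3 n m` for `D`:
`U3` contains the rows `(1, n)`, `(-1, m)` of the adjugate of `D3`, and `Z * U3 = 1` for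
`Z = (1, -n, 0; 0, 1, 0)`. In the last step the matrix `a` is placed in the columns 0 and 2. -/
def EX3 : Prop := ∀ n m : ℤ, 1 ≤ n + m → ∀ K : ℤ, ∃ c : ℤ, ∀ {r : Type} [Fintype r]
  (Y : Matrix r (Fin 2) ℤ), GE c (Y * D3 n m) → ∃ α : Matrix r (Fin 3) ℤ, GE K α ∧ α * U3 n m = Y

/-- STUB CON3. From the lemma `connect` (file Path/B.lean) with `Z = (1, -n, 0; 0, 1, 0)` and `x` the
sum of the columns of `D3 n m`. -/
def CON3 : Prop := ∀ n m : ℤ, 1 ≤ n + m → ∃ K : ℤ, ∀ W W' : Matrix (Fin 2) (Fin 3) ℤ,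
  W * U3 n m = W' * U3 n m → GE K (U3 n m * W) → GE K (U3 n m * W') →
  QQ (U3 n m * W) (U3 n m * W')

/-- STUB TR3 (from EX3). Copy of the lemma `transfer` (file Path/D.lean) with `U3 n m`, `D3 n m` in
place of `UU D1`, `D1`. Used there: `ex` for `D1` (here EX3), and `GE 1 (UU D1 * E)` (here: rows 0
and 2 of `U3 * E` are the rows of `(D3 n m).adjugate * E`, and `(n + m)` times row 1 is their sum). -/
def TR3 : Prop := ∀ (n m : ℤ) (D2 E y : M2Z), 1 ≤ n + m → 0 < D2.det → 0 < E.det →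
  GE 1 ((D3 n m).adjugate * E) → GE 1 (D2.adjugate * E) → GE 1 (y * D3 n m) → GE 1 (y * D2) →
  ∀ K : ℤ, ∃ C : ℤ, ∀ A : M2Z, GE C (E.adjugate * A * D3 n m) → GE C (E.adjugate * A * D2) →
    ∃ (W1 : Matrix (Fin 2) (Fin 3) ℤ) (W2 : Matrix (Fin 2) (Fin 2 ⊕ (Fin 2 ⊕ Fin 2)) ℤ),
      W1 * U3 n m = A ∧ W2 * UU D2 = A ∧ GE K (U3 n m * W1) ∧ GE K (UU D2 * W2) ∧
      QQ (U3 n m * W1) (UU D2 * W2)

/-- STUB LNK3 (`(h1 : TR3)`). First link `U3 n m` with `UU (D3 n m)`: copy the proof of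
`rel_of_good` (file Path/F.lean) with TR3 (`D2 = D3 n m`) in place of `transfer`, with `G` from
`exists_good_inner A₀ (cR (D3 n m))`. Then `relG_step h 1 1 (D3 n m) D` (file Path/I.lean) links
`UU (D3 n m)` with `UU D` (all cones of one direction are linked); join with `connectU`, as in
`Rel.trans`. -/
def LNK3 : Prop := ∀ A₀ : M2R, Pf A₀ → ∀ n m : ℤ, 1 ≤ n + m → Val A₀ (cR (D3 n m)) →
  ∀ D : M2Z, Val A₀ (cR D) → ∀ K : ℤ, Ev A₀ (fun A =>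
    ∃ (W : Matrix (Fin 2) (Fin 3) ℤ) (W' : Matrix (Fin 2) (Fin 2 ⊕ (Fin 2 ⊕ Fin 2)) ℤ),
      W * U3 n m = A ∧ W' * UU D = A ∧ GE K (U3 n m * W) ∧ GE K (UU D * W') ∧
      QQ (U3 n m * W) (UU D * W'))

/-- The hat over the reals. -/
def hatR (M : M2R) : M2R := cR sw * Mᵀ * cR sw

/-- STUB HTA. Computations with `σ = sw`: `σ σ = 1`, `adjugate σ = -σ`, `det σ = -1`. -/
def HTA : Prop :=
  (∀ a b c d : ℤ, hat !![a, b; c, d] = !![d, b; c, a]) ∧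
  (∀ M M' : M2Z, hat (M * M') = hat M' * hat M) ∧ (∀ M : M2Z, hat (hat M) = M) ∧
  (∀ M : M2Z, (hat M).det = M.det) ∧ (∀ M : M2Z, (hat M).trace = M.trace) ∧
  (∀ M : M2Z, (hat M).adjugate = hat M.adjugate) ∧
  (∀ M : M2Z, cR (hat M) = hatR (cR M)) ∧ (∀ M : M2R, (hatR M).det = M.det) ∧
  (∀ M : M2R, (hatR M).trace = M.trace) ∧
  (∀ M : M2R, (∀ i j, 0 < M i j) → ∀ i j, 0 < (hatR M) i j) ∧
  (∀ M M' : M2R, hatR (M * M') = hatR M' * hatR M)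

/-- STUB FAC. Write `M = c * det E` with `c ≥ 1`. As in the lemma `transfer` (file Path/D.lean):
`A' = (A - s y) / M`, `V = (A - s y) % M` (entrywise), `F = V + s y`, `A = M A' + F`,
`X = (c E | N0 (c E J) + 1)`, `Y = (Q A' - N0 J F ; F)` with `Q = adjugate E`, `J` all ones:
`X Y = c E Q A' + F = A`. `adj D * (c E) ≥ c`; `adj D * (N0 c E J + 1) ≥ N0 c - |adj D| ≥ c` for `N0`
large; `F D ≥ c` for `s` large; `(Q A' - N0 J F) D ≥ c` because `M Q A' D = Q A D - Q F D` and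
`Q A D ≥ C` is large. -/
def FAC : Prop := ∀ (D E y : M2Z), 0 < D.det → 0 < E.det → GE 1 (D.adjugate * E) →
  GE 1 (y * D) → ∀ c : ℤ, 1 ≤ c → ∃ C : ℤ, ∀ A : M2Z, GE C (E.adjugate * A * D) →
    ∃ (X : Matrix (Fin 2) (Fin 2 ⊕ Fin 2) ℤ) (Y : Matrix (Fin 2 ⊕ Fin 2) (Fin 2) ℤ),
      X * Y = A ∧ GE c (D.adjugate * X) ∧ GE c (Y * D)

/-- STUB EVH. `Ev` for the hat: the entries are only permuted (`A ↦ hat A` maps matrices near
`τ A₀` to matrices near `τ (hatR A₀)`). -/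
def EVH : Prop := ∀ (A₀ : M2R) (p : M2Z → Prop), Ev (hatR A₀) p → Ev A₀ (fun A => p (hat A))

/-- STUB TTD (`(h1 : FAC) (h2 : TRA) (h3 : HTA)`): the case `D' = hat D.adjugate`. Choose `G` with
`Good A₀ (cR D) G` (`exists_good_inner`), an integer `E` with `Good A₀ (cR D) (cR E)` and an integer
`y = E.adjugate * A1` with `GE 1 (y * D)`, exactly as in `rel_of_good` (file Path/F.lean). Let `c`
be the maximum of `1` and of the constants of the lemma `ex` (file Path/C.lean) for `D` and for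
`D'` with the bound `max K 0`. FAC gives `A = X Y` for `A` in `Ev A₀` (`Ev.big`). By `ex`:
`Y = α * UU D`, `α ≥ max K 0`; `W = X * α`. Put `X' = sw * Yᵀ`, `Y' = Xᵀ * sw`, so `X' * Y' = hat A`.
`Y' * D' = (D.adjugate * X)ᵀ * sw ≥ c`, so `Y' = α' * UU D'` by `ex` for `D'` (`det D' = det D`);
`W' = X' * α'`. `D'.adjugate * X' = hat D * sw * Yᵀ = sw * (Y * D)ᵀ ≥ 1`, so `GE 1 (UU D' * X')` by
`U_ge`, and `GE 1 (UU D * X)` by `U_ge`; hence `RP`, and the two `GE` claims by `RP.mul_ge`.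
`QQ (UU D * X * α) (α * (UU D * X)) = QQ .. (Y * X)`, and
`QQ (UU D' * X' * α') (α' * (UU D' * X')) = QQ .. (Y' * X')`, `Y' * X' = Xᵀ * Yᵀ = (Y * X)ᵀ`;
transpose the second by TRA. -/
def TTD : Prop := ∀ A₀ : M2R, Pf A₀ → ∀ D : M2Z, Val A₀ (cR D) → ∀ K : ℤ, Ev A₀ (fun A =>
    ∃ W W' : Matrix (Fin 2) (Fin 2 ⊕ (Fin 2 ⊕ Fin 2)) ℤ, W * UU D = A ∧
      W' * UU (hat D.adjugate) = hat A ∧ GE K (UU D * W) ∧ GE K (UU (hat D.adjugate) * W') ∧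
      QQ (UU D * W) ((UU (hat D.adjugate) * W')ᵀ))

/-- STUB TT (`(h1 : TTD) (h2 : TRA) (h3 : HTA) (h4 : EVH)`). `hat D.adjugate` is valid for
`hatR A₀`: its adjugate is `hat D`, and `hat D * hat A * hat (adj D) = hat (adj D * A * D)`. By
`relG_step` at `hatR A₀` (with `g = gi = 1`) it is linked with `D'`; pull back by EVH, join with
`connectU` and transpose by TRA. -/
def TT : Prop := ∀ A₀ : M2R, Pf A₀ → ∀ D D' : M2Z, Val A₀ (cR D) → Val (hatR A₀) (cR D') →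
  ∀ K : ℤ, Ev A₀ (fun A =>
    ∃ W W' : Matrix (Fin 2) (Fin 2 ⊕ (Fin 2 ⊕ Fin 2)) ℤ, W * UU D = A ∧
      W' * UU D' = hat A ∧ GE K (UU D * W) ∧ GE K (UU D' * W') ∧
      QQ (UU D * W) ((UU D' * W')ᵀ))

/-- `(a b; c d)` has positive off-diagonal entries and no short vectors. -/
def Cw (K a b c d : ℤ) : Prop := 0 < b ∧ 0 < c ∧
  ∀ x y : ℤ, ¬ (x = 0 ∧ y = 0) → K ≤ |c * x ^ 2 + (d - a) * x * y - b * y ^ 2|

/-- One elementary conjugation between such matrices. -/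
def EStep (K : ℤ) (M M' : M2Z) : Prop := ∃ a b c d a' b' c' d' : ℤ, M = !![a, b; c, d] ∧
  M' = !![a', b'; c', d'] ∧ Cw K a b c d ∧ Cw K a' b' c' d' ∧
  ((a' = a - c ∧ b' = a + b - c - d ∧ c' = c ∧ d' = c + d) ∨
    (a' = a + b ∧ b' = b ∧ c' = c + d - a - b ∧ d' = d - b) ∨
    (a' = d ∧ b' = c ∧ c' = b ∧ d' = a))

/-- STUB CHN. Copy of `chain_nonneg` and of the sign analysis in `thick_Z` (file Path/M.lean, import
Pool.Agent.TH441.SSE2.Sign for `sign_cases`) with `Cw K` in place of `Cd k t Δ` and `EStep K` in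
place of `CStep`. The condition on all `x, y` for the second matrix follows from that of the first
as in `thick_Z`. -/
def CHN : Prop := ∀ K a b c d α β γ δ p q r s : ℤ, Cw K a b c d → 0 < β → 0 < γ →
  (p * s - q * r = 1 ∨ p * s - q * r = -1) →
  a * p + b * r = p * α + q * γ → a * q + b * s = p * β + q * δ →
  c * p + d * r = r * α + s * γ → c * q + d * s = r * β + s * δ →
  Cw K α β γ δ ∧ (Relation.ReflTransGen (EStep K) !![a, b; c, d] !![α, β; γ, δ] ∨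
    Relation.ReflTransGen (EStep K) !![α, β; γ, δ] !![a, b; c, d])

/-- STUB NET (`(h1 : LNK3) (h2 : TT) (h3 : CON3)`): uniform version of all links over compact sets
of directions. Copy of the lemma `net` (file Path/K.lean) with `S = {E12, E21, sw, 1}` (the field
with `g`), the fields `hen`, `hen1` of `net` combined into one, and three new fields; the compact
sets for the new fields are cut out of `Cset k` by closed conditions exactly as there, and the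
pointwise statements are LNK3 (with `Val A₀ (cR (D3 n₀ m))` from the entrywise bound `1/20`) and TT.
`m` runs through the finite set `Finset.Icc 1 C`. -/
def NET : Prop := ∀ (k : ℝ) (n₀ C : ℤ), 5 ≤ k → 1 ≤ n₀ → 1 ≤ C →
  ∃ (t : Finset M2R) (D : M2R → M2Z) (r : M2R → ℝ) (K : ℤ) (T : ℝ), 0 < T ∧ 0 ≤ K ∧
    (∀ A ∈ Cset k, ∃ c ∈ t, ∀ i j, |A i j - c i j| ≤ r c) ∧
    (∀ c ∈ t, ∀ W W' : Matrix (Fin 2) (Fin 2 ⊕ (Fin 2 ⊕ Fin 2)) ℤ,
      W * UU (D c) = W' * UU (D c) → GE K (UU (D c) * W) → GE K (UU (D c) * W') →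
      QQ (UU (D c) * W) (UU (D c) * W')) ∧
    (∀ m : ℤ, 1 ≤ m → m ≤ C → ∀ W W' : Matrix (Fin 2) (Fin 3) ℤ,
      W * U3 n₀ m = W' * U3 n₀ m → GE K (U3 n₀ m * W) → GE K (U3 n₀ m * W') →
      QQ (U3 n₀ m * W) (U3 n₀ m * W')) ∧
    (∀ τ : ℝ, T ≤ τ → ∀ c ∈ t, ∀ c' ∈ t, ∀ g : M2Z, (g = !![1, 1; 0, 1] ∨ g = !![1, 0; 1, 1] ∨
        g = sw ∨ g = 1) → ∀ M : M2Z,
      τ⁻¹ • cR M ∈ Cset k → (∀ i j, |(τ⁻¹ • cR M) i j - c i j| ≤ r c) →
      (∀ i j, |(τ⁻¹ • cR (uinv g * M * g)) i j - c' i j| ≤ r c') →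
      ∃ W W' : Matrix (Fin 2) (Fin 2 ⊕ (Fin 2 ⊕ Fin 2)) ℤ, W * UU (D c) = M ∧
        W' * UU (D c') = uinv g * M * g ∧ GE K (UU (D c) * W) ∧ GE K (UU (D c') * W') ∧
        QQ (UU (D c) * W) (UU (D c') * W')) ∧
    (∀ τ : ℝ, T ≤ τ → ∀ c ∈ t, ∀ M : M2Z, τ⁻¹ • cR M ∈ Cset k →
      (∀ i j, 1 / k ≤ (τ⁻¹ • cR M) i j) → (∀ i j, |(τ⁻¹ • cR M) i j - c i j| ≤ r c) →
      ∃ W : Matrix (Fin 2) (Fin 2 ⊕ (Fin 2 ⊕ Fin 2)) ℤ, W * UU (D c) = M ∧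
        GE K (UU (D c) * W) ∧ QQ M (UU (D c) * W)) ∧
    (∀ τ : ℝ, T ≤ τ → ∀ c ∈ t, ∀ m : ℤ, 1 ≤ m → m ≤ C → ∀ M : M2Z, τ⁻¹ • cR M ∈ Cset k →
      (∀ i j, |(τ⁻¹ • cR M) i j - c i j| ≤ r c) →
      (∀ i j, 1 / 20 ≤ (cR (D3 n₀ m).adjugate * (τ⁻¹ • cR M) * cR (D3 n₀ m)) i j) →
      ∃ (W : Matrix (Fin 2) (Fin 3) ℤ) (W' : Matrix (Fin 2) (Fin 2 ⊕ (Fin 2 ⊕ Fin 2)) ℤ),
        W * U3 n₀ m = M ∧ W' * UU (D c) = M ∧ GE K (U3 n₀ m * W) ∧ GE K (UU (D c) * W') ∧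
        QQ (U3 n₀ m * W) (UU (D c) * W')) ∧
    (∀ τ : ℝ, T ≤ τ → ∀ c ∈ t, ∀ c' ∈ t, ∀ M : M2Z, τ⁻¹ • cR M ∈ Cset k →
      (∀ i j, |(τ⁻¹ • cR M) i j - c i j| ≤ r c) →
      (∀ i j, |(τ⁻¹ • cR (hat M)) i j - c' i j| ≤ r c') →
      ∃ W W' : Matrix (Fin 2) (Fin 2 ⊕ (Fin 2 ⊕ Fin 2)) ℤ, W * UU (D c) = M ∧
        W' * UU (D c') = hat M ∧ GE K (UU (D c) * W) ∧ GE K (UU (D c') * W') ∧
        QQ (UU (D c) * W) ((UU (D c') * W')ᵀ))

end Pool.Agent.H81SSE
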