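import Pool.Agent.H81SSE.W.Stm3

/-!
# Project W, fourth batch: ends of the chain with small diagonal entries

The theorem `WTH` (W/Final.lean, done) has the conditions `tr ≤ k a`, `tr ≤ k d`. The following
stubs remove them.
-/

set_option autoImplicit false

namespace Pool.Agent.H81SSE

open Matrix

/-- All large nonnegative matrices near the direction `A₀` are equivalent to a lift over `UU D`. -/
def EndAt (A₀ : M2R) (D : M2Z) : Prop := ∀ K : ℤ, Ev A₀ (fun A => NN A →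
  ∃ W : Matrix (Fin 2) (Fin 2 ⊕ (Fin 2 ⊕ Fin 2)) ℤ, W * UU D = A ∧ GE K (UU D * W) ∧
    QQ A (UU D * W))

/-- STUB END0. Write `A₀ = (0 β; γ δ)`. Choose integers `N ≥ 1`, `N > 2 β / δ` and `p ≥ 1`,
`p > 10 γ / δ`, and `D = (N+1, -1; 1, p)`, `adj D = (p, 1; -1, N+1)`, `det D = (N+1) p + 1`.
`Val`: `adj D * A₀ * D = (p β + (N+1) γ + δ, p p β + p δ - γ; (N+1)((N+1) γ + δ) - β,
p ((N+1) δ - β) - (N+1) γ)`, and `(N+1) δ - β ≥ (N+1) δ / 2`.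
`EndAt`: given `K` let `c` be the constant of the lemma `ex` (file Path/C.lean) for `D` and
`max K 0`, and `m = max c 0`. For `A = (a b; e d)` with nonnegative entries near `τ A₀` put
`s2 = b / N - a - m`, `s3 = b % N + N (a + m)`,
`X = (0, N, 1; 1, 1, 1)`, `α = (e - a, d - s2 - s3; 0, s2; a, s3)` (2 by 3 and 3 by 2), so
`X * α = A`. `adj D * X = (1, p N + 1, p + 1; N+1, 1, N) ≥ 1`, so `GE 1 (UU D * X)` by `U_ge`.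
`α * D` has the rows `((e-a)(N+1) + (d-s2-s3), -(e-a) + p (d-s2-s3))`, `(s2, p s2)`,
`(a (N+1) + s3, -a + p s3)`; as `s3 ≥ N (a + m)`, `s2 ≥ b/N - 1 - a - m` and
`d - s2 - s3 ≥ d - b/N - N - N a - N m ≥ τ δ / 4` for `ε` small and `τ` large, all entries are
`≥ m ≥ c` and `NN α`. So `α = α' * UU D` with `α' ≥ max K 0` (lemma `ex`), `W = X * α'`;
`GE K (UU D * X * α')` by `RP.mul_ge` (as at the end of the lemma `transfer`, Path/D.lean).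
`QQ A (UU D * W)`: `A = X * α`, `α * X = α' * (UU D * X)`, `(UU D * X) * α' = UU D * W`, twice
`QQ.elem`. -/
def END0 : Prop := ∀ A₀ : M2R, A₀ 0 0 = 0 → 0 < A₀ 0 1 → 0 < A₀ 1 0 → 0 < A₀ 1 1 →
  ∃ D : M2Z, Val A₀ (cR D) ∧ EndAt A₀ D

/-- STUB ENDP (`theorem ENDP_holds (h1 : END0) : ENDP`). First: `EndAt A₀ D → EndAt A₀ D'` if both
cones are valid: `relG_step` (Path/I.lean) with `g = gi = 1` and `connectU`, as in `hP2` of the proof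
of NET (W/NET.lean). Cases: all entries of `A₀` positive: `EndAt A₀ 1` by `endU` (Path/D.lean) and
`Ev.big`, as in `hP3` of NET. `A₀ 0 0 = 0` (so `A₀ 1 1 > 0` as the trace is positive): END0.
`A₀ 1 1 = 0`: END0 for `A₀' = cR sw * A₀ * cR sw`, pull back to `A₀` by `Ev.conj` (Path/G.lean) with
`g = gi = sw` (`sw * sw = 1`), `relG_step` with `g = gi = sw` links the lift of `A` over `UU D` with
a lift of `sw * A * sw` over `UU D'` (`D'` from END0), join by `connectU`, and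
`QQ A (sw * A * sw)` by `QQ.elem (A * sw) sw` as `A = A * sw * sw`. -/
def ENDP : Prop := ∀ A₀ : M2R, Pf A₀ → (∀ i j, 0 ≤ A₀ i j) → 0 < A₀ 0 1 → 0 < A₀ 1 0 →
  ∀ D : M2Z, Val A₀ (cR D) → EndAt A₀ D

/-- STUB NET2 (`theorem NET2_holds (h1 : LNK3) (h2 : TT) (h3 : CON3) (h4 : ENDP) : NET2`). This is
NET with a stronger field about the ends (the fifth field): copy the proof of NET (W/NET.lean), with
`hP2`, `hP3` replaced by one application of `compact_ev` (for each `c` in `t`) to the compact set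
of the `A` in `Cset k` with `0 ≤ A i j`, `1 / k ≤ A 0 1`, `1 / k ≤ A 1 0` in the box of `c`,
with ENDP. -/
def NET2 : Prop := ∀ (k : ℝ) (n₀ C : ℤ), 5 ≤ k → 1 ≤ n₀ → 1 ≤ C →
  ∃ (t : Finset M2R) (D : M2R → M2Z) (r : M2R → ℝ) (K : ℤ) (T : ℝ), 0 < T ∧ 0 ≤ K ∧
    (∀ A ∈ Cset k, ∃ c ∈ t, ∀ i j, |A i j - c i j| ≤ r c) ∧
    (∀ c ∈ t, ∀ W W' : Matrix (Fin 2) (Fin 2 ⊕ (Fin 2 ⊕ Fin 2)) ℤ,
      W * UU (D c) = W' * UU (D c) → GE K (UU (D c) * W) → GE K (UU (D c) * W') →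
      QQ (UU (D c) * W) (UU (D c) * W')) ∧
    (∀ m : ℤ, 1 ≤ m → m ≤ C → ∀ W W' : Matrix (Fin 2) (Fin 3) ℤ,
      W * U3 n₀ m = W' * U3 n₀ m → GE K (U3 n₀ m * W) → GE K (U3 n₀ m * W') →
      QQ (U3 n₀ m * W) (U3 n₀ m * W')) ∧
    (∀ τ : ℝ, T ≤ τ → ∀ c ∈ t, ∀ c' ∈ t, ∀ g : M2Z, (g = !![1, 1; 0, 1] ∨ g = !![1, 0; 1, 1] ∨
        g = sw ∨ g = 1) → ∀ M : M2Z,
      τ⁻¹ • cR M ∈ Cset k → (∀ i j, |(τ⁻¹ • cR M) i j - c i j| ≤ r c) →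
      (∀ i j, |(τ⁻¹ • cR (uinv g * M * g)) i j - c' i j| ≤ r c') →
      ∃ W W' : Matrix (Fin 2) (Fin 2 ⊕ (Fin 2 ⊕ Fin 2)) ℤ, W * UU (D c) = M ∧
        W' * UU (D c') = uinv g * M * g ∧ GE K (UU (D c) * W) ∧ GE K (UU (D c') * W') ∧
        QQ (UU (D c) * W) (UU (D c') * W')) ∧
    (∀ τ : ℝ, T ≤ τ → ∀ c ∈ t, ∀ M : M2Z, τ⁻¹ • cR M ∈ Cset k → NN M →
      1 / k ≤ (τ⁻¹ • cR M) 0 1 → 1 / k ≤ (τ⁻¹ • cR M) 1 0 →
      (∀ i j, |(τ⁻¹ • cR M) i j - c i j| ≤ r c) →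
      ∃ W : Matrix (Fin 2) (Fin 2 ⊕ (Fin 2 ⊕ Fin 2)) ℤ, W * UU (D c) = M ∧
        GE K (UU (D c) * W) ∧ QQ M (UU (D c) * W)) ∧
    (∀ τ : ℝ, T ≤ τ → ∀ c ∈ t, ∀ m : ℤ, 1 ≤ m → m ≤ C → ∀ M : M2Z, τ⁻¹ • cR M ∈ Cset k →
      (∀ i j, |(τ⁻¹ • cR M) i j - c i j| ≤ r c) →
      (∀ i j, 1 / 20 ≤ (cR (D3 n₀ m).adjugate * (τ⁻¹ • cR M) * cR (D3 n₀ m)) i j) →
      ∃ (W : Matrix (Fin 2) (Fin 3) ℤ) (W' : Matrix (Fin 2) (Fin 2 ⊕ (Fin 2 ⊕ Fin 2)) ℤ),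
        W * U3 n₀ m = M ∧ W' * UU (D c) = M ∧ GE K (U3 n₀ m * W) ∧ GE K (UU (D c) * W') ∧
        QQ (U3 n₀ m * W) (UU (D c) * W')) ∧
    (∀ τ : ℝ, T ≤ τ → ∀ c ∈ t, ∀ c' ∈ t, ∀ M : M2Z, τ⁻¹ • cR M ∈ Cset k →
      (∀ i j, |(τ⁻¹ • cR M) i j - c i j| ≤ r c) →
      (∀ i j, |(τ⁻¹ • cR (hat M)) i j - c' i j| ≤ r c') →
      ∃ W W' : Matrix (Fin 2) (Fin 2 ⊕ (Fin 2 ⊕ Fin 2)) ℤ, W * UU (D c) = M ∧
        W' * UU (D c') = hat M ∧ GE K (UU (D c) * W) ∧ GE K (UU (D c') * W') ∧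
        QQ (UU (D c) * W) ((UU (D c') * W')ᵀ))

end Pool.Agent.H81SSE
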