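import Pool.Agent.H81SSE.W.Stm4

/-!
# Project W, fifth batch: multiples of shift equivalent matrices

Target: if `A`, `B` are `2 × 2` primitive nonsingular matrices over `ℕ` that are shift equivalent
over `ℤ`, then `k A` and `k B` are strong shift equivalent over `ℕ` for all large `k`.
-/

set_option autoImplicit false

namespace Pool.Agent.H81SSE

open Matrix

/-- STUB FAC2: the statement FAC (file W/FAC.lean) with two cones; same proof. `E` is used with
`D2`, `y` with `D1`: `X = (c E | N0 (c E J) + 1)`, `Y = (Q A' - N0 J F ; F)`. -/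
def FAC2 : Prop := ∀ (D1 D2 E y : M2Z), 0 < D1.det → 0 < D2.det → 0 < E.det →
  GE 1 (D2.adjugate * E) → GE 1 (y * D1) → ∀ c : ℤ, 1 ≤ c → ∃ C : ℤ, ∀ A : M2Z,
    GE C (E.adjugate * A * D1) →
    ∃ (X : Matrix (Fin 2) (Fin 2 ⊕ Fin 2) ℤ) (Y : Matrix (Fin 2 ⊕ Fin 2) (Fin 2) ℤ),
      X * Y = A ∧ GE c (D2.adjugate * X) ∧ GE c (Y * D1)

/-- Lifts of all large multiples of `M` over `UU D` and of `N` over `UU D'` are equivalent. -/
def Eqv (M N D D' : M2Z) : Prop := ∀ K : ℤ, ∃ T : ℤ, ∀ k : ℤ, T ≤ k →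
  ∃ W W' : Matrix (Fin 2) (Fin 2 ⊕ (Fin 2 ⊕ Fin 2)) ℤ, W * UU D = k • M ∧ W' * UU D' = k • N ∧
    GE K (UU D * W) ∧ GE K (UU D' * W') ∧ QQ (UU D * W) (UU D' * W')

/-- STUB RST (`theorem RST_holds (h : FAC2) : RST`). Put `M = R S`, `N = S R`. `D1` from
`exists_val` (Path/J.lean) for `cR M`, so `P = adj D1 * M * D1` has entries `≥ 1`. With `J` all ones
and `m` a large integer put `H = m • 1 + J`, `H.adjugate = (m + 2) • 1 - J`, `det H = m^2 + 2 m`,
`D2 = R.adjugate * D1 * H`, `E = D2 * H`, `y = J * D1.adjugate`.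
`det D2 = det R * det D1 * det H > 0`; `D2.adjugate = H.adjugate * D1.adjugate * R`.
`D2.adjugate * E = det D2 • H ≥ 1`; `y * D1 = det D1 • J ≥ 1`.
`E.adjugate * S * D1 = H.adjugate * H.adjugate * P`, and
`H.adjugate^2 = (m+2)^2 • 1 - (2 m + 2) • J`, so it is `≥ 1` for `m` large; the same for `k • S` is
`≥ k`, so `FAC2` applies to `A = k • S` for `k` large: `X * Y = k • S`,
`GE c (D2.adjugate * X)`, `GE c (Y * D1)`, where `c` is the maximum of `1` and the constants of the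
lemma `ex` (Path/C.lean) for `D1` and for `D2` with the bound `max K 0`.
`Val` for `N`: `D2.adjugate * N * D2 = det R • (H.adjugate * P * H)`, and
`H.adjugate * P * H = (m+2) m P + (m+2) P J - m J P - J P J ≥ 1` for `m` large.
`Y = α * UU D1` (`ex` for `D1`), `W = R * X * α`. `Y * R = α' * UU D2` (`ex` for `D2`, because
`Y * R * D2 = det R • (Y * D1 * H) ≥ c`), `W' = X * α'`. Then `W * UU D1 = R * (k • S)` and
`W' * UU D2 = (k • S) * R`. `GE 1 (UU D2 * X)` by `U_ge`. `GE 1 (UU D1 * (R * X))` by `U_ge`, because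
`H * (D2.adjugate * X) = det H • (D1.adjugate * (R * X))` has positive entries. The two `GE` claims
by `RP.mul_ge` (as in `transfer`, Path/D.lean). `QQ`: both lifts are elementarily equivalent
(`QQ.elem`) to `α * (UU D1 * (R * X)) = Y * R * X = α' * (UU D2 * X)`. -/
def RST : Prop := ∀ R S : M2Z, 0 < R.det → Pf (cR (R * S)) → ∃ D1 D2 : M2Z,
  Val (cR (R * S)) (cR D1) ∧ Val (cR (S * R)) (cR D2) ∧ Eqv (R * S) (S * R) D1 D2

/-- Elementary equivalence of integer `2 × 2` matrices. -/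
def ElZ (A B : M2Z) : Prop := ∃ R S : M2Z, A = R * S ∧ B = S * R

/-- STUB SEC. Copy of the proof of `se_Q_gen` (starting file Pool/Agent/Y321/SEP/FinalP.lean; import
Pool.Agent.Y321.SE2.Final for `left_gcd`, `unimod`, `cancel_left`, `pow_comm_right`) with all
positivity dropped: induction on `|det R|`; `R = R₁ R₂`, `A = R₁ S₁`, `R₁ = R X + A Y`. If `R₁` is
unimodular then so is `R`, and `A = R (R⁻¹ A)`, `B = (R⁻¹ A) R`. Otherwise `A = R₁ S₁` is
elementarily equivalent to `S₁ R₁`, and `(S₁ R₁) R₂ = R₂ B`, `R₂ (S R₁) = (S₁ R₁)^l`,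
`|det R₂| < |det R|`. -/
def SEC : Prop := ∀ (A B R S : M2Z) (l : ℕ), A.det ≠ 0 → A * R = R * B → R * S = A ^ l →
  Relation.ReflTransGen ElZ A B

end Pool.Agent.H81SSE
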