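import Pool.Agent.H81SSE.W.Glob0

/-!
# Project W: the global assembly
-/

set_option autoImplicit false

namespace Pool.Agent.H81SSE.V

open Matrix

/-- The conclusion of NET2. -/
structure NData (k : ℝ) (n₀ C : ℤ) (t : Finset M2R) (D : M2R → M2Z) (r : M2R → ℝ) (K : ℤ)
    (T : ℝ) : Prop where
  hT : 0 < T
  hK : 0 ≤ K
  cov : ∀ A ∈ Cset k, ∃ c ∈ t, ∀ i j, |A i j - c i j| ≤ r c
  con : ∀ c ∈ t, ∀ W W' : Matrix (Fin 2) (Fin 2 ⊕ (Fin 2 ⊕ Fin 2)) ℤ,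
      W * UU (D c) = W' * UU (D c) → GE K (UU (D c) * W) → GE K (UU (D c) * W') →
      QQ (UU (D c) * W) (UU (D c) * W')
  con3 : ∀ m : ℤ, 1 ≤ m → m ≤ C → ∀ W W' : Matrix (Fin 2) (Fin 3) ℤ,
      W * U3 n₀ m = W' * U3 n₀ m → GE K (U3 n₀ m * W) → GE K (U3 n₀ m * W') →
      QQ (U3 n₀ m * W) (U3 n₀ m * W')
  st : ∀ τ : ℝ, T ≤ τ → ∀ c ∈ t, ∀ c' ∈ t, ∀ g : M2Z, (g = !![1, 1; 0, 1] ∨ g = !![1, 0; 1, 1] ∨
        g = sw ∨ g = 1) → ∀ M : M2Z,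
      τ⁻¹ • cR M ∈ Cset k → (∀ i j, |(τ⁻¹ • cR M) i j - c i j| ≤ r c) →
      (∀ i j, |(τ⁻¹ • cR (uinv g * M * g)) i j - c' i j| ≤ r c') →
      ∃ W W' : Matrix (Fin 2) (Fin 2 ⊕ (Fin 2 ⊕ Fin 2)) ℤ, W * UU (D c) = M ∧
        W' * UU (D c') = uinv g * M * g ∧ GE K (UU (D c) * W) ∧ GE K (UU (D c') * W') ∧
        QQ (UU (D c) * W) (UU (D c') * W')
  en : ∀ τ : ℝ, T ≤ τ → ∀ c ∈ t, ∀ M : M2Z, τ⁻¹ • cR M ∈ Cset k → NN M →
      1 / k ≤ (τ⁻¹ • cR M) 0 1 → 1 / k ≤ (τ⁻¹ • cR M) 1 0 →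
      (∀ i j, |(τ⁻¹ • cR M) i j - c i j| ≤ r c) →
      ∃ W : Matrix (Fin 2) (Fin 2 ⊕ (Fin 2 ⊕ Fin 2)) ℤ, W * UU (D c) = M ∧
        GE K (UU (D c) * W) ∧ QQ M (UU (D c) * W)
  ln3 : ∀ τ : ℝ, T ≤ τ → ∀ c ∈ t, ∀ m : ℤ, 1 ≤ m → m ≤ C → ∀ M : M2Z, τ⁻¹ • cR M ∈ Cset k →
      (∀ i j, |(τ⁻¹ • cR M) i j - c i j| ≤ r c) →
      (∀ i j, 1 / 20 ≤ (cR (D3 n₀ m).adjugate * (τ⁻¹ • cR M) * cR (D3 n₀ m)) i j) →
      ∃ (W : Matrix (Fin 2) (Fin 3) ℤ) (W' : Matrix (Fin 2) (Fin 2 ⊕ (Fin 2 ⊕ Fin 2)) ℤ),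
        W * U3 n₀ m = M ∧ W' * UU (D c) = M ∧ GE K (U3 n₀ m * W) ∧ GE K (UU (D c) * W') ∧
        QQ (U3 n₀ m * W) (UU (D c) * W')
  tt : ∀ τ : ℝ, T ≤ τ → ∀ c ∈ t, ∀ c' ∈ t, ∀ M : M2Z, τ⁻¹ • cR M ∈ Cset k →
      (∀ i j, |(τ⁻¹ • cR M) i j - c i j| ≤ r c) →
      (∀ i j, |(τ⁻¹ • cR (hat M)) i j - c' i j| ≤ r c') →
      ∃ W W' : Matrix (Fin 2) (Fin 2 ⊕ (Fin 2 ⊕ Fin 2)) ℤ, W * UU (D c) = M ∧
        W' * UU (D c') = hat M ∧ GE K (UU (D c) * W) ∧ GE K (UU (D c') * W') ∧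
        QQ (UU (D c) * W) ((UU (D c') * W')ᵀ)

/-- The matrix `Z` is equivalent to a lift of `M` over `UU (D c)`. -/
def LQ (D : M2R → M2Z) (K : ℤ) (c : M2R) (M Z : M2Z) : Prop :=
  ∃ W : Matrix (Fin 2) (Fin 2 ⊕ (Fin 2 ⊕ Fin 2)) ℤ, W * UU (D c) = M ∧
    GE K (UU (D c) * W) ∧ QQ Z (UU (D c) * W)

/-- `M / τ` lies in the box of `c`. -/
def Bx (t : Finset M2R) (r : M2R → ℝ) (τ : ℝ) (M : M2Z) (c : M2R) : Prop :=
  c ∈ t ∧ ∀ i j, |(τ⁻¹ • cR M) i j - c i j| ≤ r c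

section

variable {k : ℝ} {n₀ C : ℤ} {t : Finset M2R} {D : M2R → M2Z} {r : M2R → ℝ} {K : ℤ} {T : ℝ}

lemma NData.join (h : NData k n₀ C t D r K T) {c : M2R} (hc : c ∈ t) {M Z Z' : M2Z}
    (h1 : LQ D K c M Z) (h2 : LQ D K c M Z') : QQ Z Z' := by
  obtain ⟨W, w1, w2, w3⟩ := h1
  obtain ⟨W', v1, v2, v3⟩ := h2
  exact w3.trans ((h.con c hc W W' (by rw [w1, v1]) w2 v2).trans v3.symm)

lemma NData.move (h : NData k n₀ C t D r K T) {τ : ℝ} (hτ : T ≤ τ) {c c' : M2R} {M Z : M2Z}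
    (g : M2Z) (hg : g = !![1, 1; 0, 1] ∨ g = !![1, 0; 1, 1] ∨ g = sw ∨ g = 1)
    (hM : τ⁻¹ • cR M ∈ Cset k) (hb : Bx t r τ M c) (hb' : Bx t r τ (uinv g * M * g) c')
    (hL : LQ D K c M Z) : LQ D K c' (uinv g * M * g) Z := by
  obtain ⟨W1, W2, v1, v2, v3, v4, v5⟩ := h.st τ hτ c hb.1 c' hb'.1 g hg M hM hb.2 hb'.2
  obtain ⟨W, w1, w2, w3⟩ := hL
  exact ⟨W2, v2, v4, w3.trans ((h.con c hb.1 W W1 (by rw [w1, v1]) w2 v3).trans v5)⟩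

lemma hat_mk (a b c d : ℤ) : hat !![a, b; c, d] = !![d, b; c, a] := by
  have e : (!![a, b; c, d] : M2Z)ᵀ = !![a, c; b, d] := by
    ext i j; fin_cases i <;> fin_cases j <;> rfl
  unfold hat sw
  rw [e]
  ext i j
  fin_cases i <;> fin_cases j <;> simp [Matrix.mul_apply, Fin.sum_univ_two]

lemma d3_bound (n m : ℤ) (M : M2Z) (τ : ℤ) (hτ : 0 < τ)
    (h : ∀ i j, τ ≤ 20 * ((D3 n m).adjugate * M * D3 n m) i j) :
    ∀ i j, (1 : ℝ) / 20 ≤ (cR (D3 n m).adjugate * ((τ : ℝ)⁻¹ • cR M) * cR (D3 n m)) i j := by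
  intro i j
  have e : cR (D3 n m).adjugate * ((τ : ℝ)⁻¹ • cR M) * cR (D3 n m) =
      (τ : ℝ)⁻¹ • cR ((D3 n m).adjugate * M * D3 n m) := by
    rw [cR_mul, cR_mul, Matrix.mul_smul, Matrix.smul_mul]
  have hτ0 : (0 : ℝ) < τ := by exact_mod_cast hτ
  rw [e]
  simp only [Matrix.smul_apply, cR, Matrix.map_apply, smul_eq_mul]
  have h1 := h i j
  have h2 : (τ : ℝ) ≤ 20 * ((((D3 n m).adjugate * M * D3 n m) i j : ℤ) : ℝ) := by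
    exact_mod_cast h1
  rw [inv_mul_eq_div, le_div_iff₀ hτ0]
  linarith

/-- First case of the passage from the blocks to the thick part. -/
lemma LX1 (h : NData k n₀ C t D r K T) (hCRS : CRS) (hW3U : W3U) (hn₀ : 1 ≤ n₀)
    (k' κ η K₀ : ℤ) (hη : 100 ≤ η)
    (hE : ∀ a b c d j : ℤ, K₀ ≤ c → 0 < b →
      b ≤ κ * (a + d) → a * d < b * c → b * c - a * d ≤ k' * (a + d) ^ 2 → η * c ≤ a + d →
      5 * a ≤ a + d → a + d ≤ 4 * (a + j * c) → 3 * (a + j * c) ≤ a + d →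
      n₀ < j ∧ ∃ m X Y : ℤ → ℤ, Levels a b c d n₀ j m X Y ∧ 1 ≤ m n₀ ∧ m n₀ ≤ C ∧
        GE K (U3 n₀ (m n₀) * W3 a b c d n₀ (m n₀) (X n₀) (Y n₀)) ∧
        a + d ≤ 20 * (U3 n₀ (m n₀) * W3 a b c d n₀ (m n₀) (X n₀) (Y n₀)) 0 1 ∧
        a + d ≤ 20 * (U3 n₀ (m n₀) * W3 a b c d n₀ (m n₀) (X n₀) (Y n₀)) 2 1)
    (a b c d : ℤ) (hT : T ≤ ((a + d : ℤ) : ℝ)) (hK₀ : K₀ ≤ c) (hb : 0 < b) (hc : 0 < c)
    (hbκ : b ≤ κ * (a + d))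
    (hdet : a * d < b * c) (hdk : b * c - a * d ≤ k' * (a + d) ^ 2) (hηc : η * c ≤ a + d)
    (h5 : 5 * a ≤ a + d) (hM : ((a + d : ℤ) : ℝ)⁻¹ • cR !![a, b; c, d] ∈ Cset k) (c₀ : M2R)
    (hc₀ : Bx t r ((a + d : ℤ) : ℝ) !![a, b; c, d] c₀) (n : ℤ) (hn1 : 0 ≤ a + n * c)
    (hn2 : 0 ≤ d - n * c) : LQ D K c₀ !![a, b; c, d] (Bk a b c d n) := by
  have hηc' : 100 * c ≤ a + d := by nlinarith
  have hτ0 : 0 < a + d := by linarith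
  obtain ⟨j, hj1, hj2⟩ := exists_block a c d hc (by linarith)
  obtain ⟨hj, m, X, Y, hLev, hm1, hmC, hGE, hb1, hb2⟩ := hE a b c d j hK₀ hb hbκ hdet hdk hηc h5
    hj1 hj2
  have q0 : QQ (Bk a b c d n) (Bk a b c d j) :=
    blk2 a b c d n j hc hdet hn1 hn2 (by linarith) (by linarith)
  have q1 := hCRS a b c d n₀ j m X Y hn₀ hj hLev
  have e3 := hW3U a b c d n₀ (m n₀) (X n₀) (Y n₀)
  have hmg := merge n₀ (m n₀) (by linarith) _ _ (a + d) e3 (hGE.mono h.hK) hb1 hb2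
  obtain ⟨W, W', w1, w2, w3, w4, w5⟩ := h.ln3 _ hT c₀ hc₀.1 (m n₀) hm1 hmC _ hM hc₀.2
    (d3_bound n₀ (m n₀) _ (a + d) hτ0 hmg)
  have q2 := h.con3 (m n₀) hm1 hmC _ W (by rw [e3, w1]) hGE w3
  exact ⟨W', w2, w4, q0.trans (q1.trans (q2.trans w5))⟩

lemma mk_tr (a b c d : ℤ) : (!![a, b; c, d] : M2Z).trace = a + d := by
  rw [Matrix.trace_fin_two]; simp

lemma mk_dt (a b c d : ℤ) : (!![a, b; c, d] : M2Z).det = a * d - b * c := by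
  rw [Matrix.det_fin_two]; simp

/-- Membership in the set of directions. -/
lemma mk_mem (k2 : ℤ) (hk : 2 ≤ k2) (a b c d : ℤ) (ht : 0 < a + d) (hd : a * d < b * c)
    (ha : |a| ≤ k2 * (a + d)) (hb : |b| ≤ k2 * (a + d)) (hc : |c| ≤ k2 * (a + d))
    (hd' : |d| ≤ k2 * (a + d)) :
    ((a + d : ℤ) : ℝ)⁻¹ • cR !![a, b; c, d] ∈ Cset (k2 : ℝ) := by
  have h := mem_Cset k2 hk !![a, b; c, d] (by rw [mk_tr]; exact ht)
    (by rw [mk_dt]; linarith) (by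
      intro i j
      rw [mk_tr]
      fin_cases i <;> fin_cases j
      · simpa using ha
      · simpa using hb
      · simpa using hc
      · simpa using hd')
  rw [mk_tr] at h
  exact h

/-- Entries bounded below. -/
lemma mk_low (k2 : ℤ) (hk : 1 ≤ k2) (a b c d : ℤ) (ht : 0 < a + d)
    (ha : a + d ≤ k2 * a) (hb : a + d ≤ k2 * b) (hc : a + d ≤ k2 * c)
    (hd' : a + d ≤ k2 * d) :
    ∀ i j, 1 / (k2 : ℝ) ≤ (((a + d : ℤ) : ℝ)⁻¹ • cR !![a, b; c, d]) i j := by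
  have hk0 : (0 : ℝ) < k2 := by exact_mod_cast (by linarith : (0 : ℤ) < k2)
  have hτ0 : (0 : ℝ) < ((a + d : ℤ) : ℝ) := by exact_mod_cast ht
  have key : ∀ x : ℤ, a + d ≤ k2 * x → 1 / (k2 : ℝ) ≤ ((a + d : ℤ) : ℝ)⁻¹ * (x : ℝ) := by
    intro x hx
    have h4 : ((a + d : ℤ) : ℝ) ≤ (k2 : ℝ) * (x : ℝ) := by exact_mod_cast hx
    rw [div_le_iff₀ hk0, inv_mul_eq_div, div_mul_eq_mul_div, le_div_iff₀ hτ0]
    linarith
  intro i j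
  simp only [Matrix.smul_apply, cR, Matrix.map_apply, smul_eq_mul]
  fin_cases i <;> fin_cases j
  · exact key a ha
  · exact key b hb
  · exact key c hc
  · exact key d hd'

lemma bounds (k' a b c d : ℤ) (hk : 1 ≤ k') (ht : 0 < a + d) (hb : 0 < b) (hc : 0 < c)
    (hdk : b * c - a * d ≤ k' * (a + d) ^ 2) :
    4 * (b * c) ≤ (1 + 4 * k') * (a + d) ^ 2 ∧ |a - d| ≤ (1 + 4 * k') * (a + d) := by
  have h0 : 4 * (b * c) + (a - d) ^ 2 ≤ (1 + 4 * k') * (a + d) ^ 2 := by nlinarith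
  have hbc : 0 < b * c := mul_pos hb hc
  refine ⟨by nlinarith [sq_nonneg (a - d)], ?_⟩
  apply abs_le_of_sq_le_sq _ (by nlinarith)
  have h12 : (a - d) ^ 2 ≤ (1 + 4 * k') * (a + d) ^ 2 := by linarith
  have h13 : 1 * ((1 + 4 * k') * (a + d) ^ 2) ≤ (1 + 4 * k') * ((1 + 4 * k') * (a + d) ^ 2) :=
    mul_le_mul_of_nonneg_right (by linarith) (by positivity)
  nlinarith

/-- Bounds for the entries of the thick matrices. -/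
lemma thick_mem (k' κ k2 a b c d : ℤ) (hk : 1 ≤ k') (hκ : 1 + 4 * k' ≤ κ) (hk2 : κ ≤ k2)
    (ht : 0 < a + d) (hb : 0 < b) (hc : 0 < c) (hdet : a * d < b * c)
    (hdk : b * c - a * d ≤ k' * (a + d) ^ 2) (hbκ : b ≤ κ * (a + d)) (hcκ : c ≤ κ * (a + d)) :
    ((a + d : ℤ) : ℝ)⁻¹ • cR !![a, b; c, d] ∈ Cset (k2 : ℝ) := by
  obtain ⟨-, h2⟩ := bounds k' a b c d hk ht hb hc hdk
  obtain ⟨h3, h4⟩ := abs_le.mp h2
  have h5 : (1 + 4 * k') * (a + d) ≤ k2 * (a + d) :=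
    mul_le_mul_of_nonneg_right (by linarith) ht.le
  have h6 : κ * (a + d) ≤ k2 * (a + d) := mul_le_mul_of_nonneg_right hk2 ht.le
  have h7 : 1 * (a + d) ≤ k2 * (a + d) := mul_le_mul_of_nonneg_right (by linarith) ht.le
  refine mk_mem k2 (by linarith) a b c d ht hdet ?_ ?_ ?_ ?_
  · rw [abs_le]; constructor <;> linarith
  · rw [abs_of_pos hb]; linarith
  · rw [abs_of_pos hc]; linarith
  · rw [abs_le]; constructor <;> linarith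

/-- Lower bounds for the off-diagonal entries of thick nonnegative matrices. -/
lemma low_off (l κ k2 a b c d : ℤ) (hl : 1 ≤ l) (hκ : 1 ≤ κ) (hk2 : l * l * κ ≤ k2)
    (ht : 0 < a + d) (hb : 0 < b) (hc : 0 < c) (hdet : a * d < b * c) (ha : a + d ≤ l * a)
    (hd : a + d ≤ l * d) (hbκ : b ≤ κ * (a + d)) (hcκ : c ≤ κ * (a + d)) :
    a + d ≤ k2 * a ∧ a + d ≤ k2 * b ∧ a + d ≤ k2 * c ∧ a + d ≤ k2 * d := by
  have ha0 : 0 < a := by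
    by_contra h
    nlinarith
  have hd0 : 0 < d := by
    by_contra h
    nlinarith
  have h1 : (a + d) * (a + d) ≤ (l * a) * (l * d) := mul_le_mul ha hd ht.le (by positivity)
  have h2 : (a + d) * (a + d) ≤ l * l * (b * c) := by
    have h3 : (l * l) * (a * d) ≤ (l * l) * (b * c) := mul_le_mul_of_nonneg_left hdet.le
      (by positivity)
    nlinarith
  have hll : l ≤ l * l * κ := by
    have h4 : l * 1 ≤ l * (l * κ) := mul_le_mul_of_nonneg_left (by nlinarith) (by linarith)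
    nlinarith
  have h5 : ∀ x : ℤ, 0 < x → l * x ≤ k2 * x := fun x hx =>
    mul_le_mul_of_nonneg_right (hll.trans hk2) hx.le
  have h6 : ∀ x : ℤ, 0 < x → (l * l * κ) * x ≤ k2 * x := fun x hx =>
    mul_le_mul_of_nonneg_right hk2 hx.le
  refine ⟨ha.trans (h5 a ha0), ?_, ?_, hd.trans (h5 d hd0)⟩
  · refine le_trans ?_ (h6 b hb)
    have h7 : (l * l) * (b * c) ≤ (l * l) * (b * (κ * (a + d))) :=
      mul_le_mul_of_nonneg_left (mul_le_mul_of_nonneg_left hcκ hb.le) (by positivity)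
    have h8 : (a + d) * (a + d) ≤ (l * l * κ * b) * (a + d) := by
      calc (a + d) * (a + d) ≤ l * l * (b * c) := h2
        _ ≤ (l * l) * (b * (κ * (a + d))) := h7
        _ = _ := by ring
    exact le_of_mul_le_mul_right h8 ht
  · refine le_trans ?_ (h6 c hc)
    have h7 : (l * l) * (b * c) ≤ (l * l) * ((κ * (a + d)) * c) :=
      mul_le_mul_of_nonneg_left (mul_le_mul_of_nonneg_right hbκ hc.le) (by positivity)
    have h8 : (a + d) * (a + d) ≤ (l * l * κ * c) * (a + d) := by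
      calc (a + d) * (a + d) ≤ l * l * (b * c) := h2
        _ ≤ (l * l) * ((κ * (a + d)) * c) := h7
        _ = _ := by ring
    exact le_of_mul_le_mul_right h8 ht

end

end Pool.Agent.H81SSE.V
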