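import Pool.Agent.H81SSE.W.V1

/-!
# Project W: the passage between the blocks and the thick part
-/

set_option autoImplicit false

namespace Pool.Agent.H81SSE.V

open Matrix

/-- All the data of the proof. -/
structure Cst (k' κ η K₀ k2 n₀ C : ℤ) (t : Finset M2R) (D : M2R → M2Z) (r : M2R → ℝ) (K : ℤ)
    (T : ℝ) : Prop where
  nd : NData (k2 : ℝ) n₀ C t D r K T
  hk : 1 ≤ k'
  hn₀ : 1 ≤ n₀
  hη : 100 ≤ η
  hκ : κ = η * (1 + 4 * k')
  hk2 : 100 * (k' * k') * κ ≤ k2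
  hE : ∀ a b c d j : ℤ, K₀ ≤ c → 0 < b →
      b ≤ κ * (a + d) → a * d < b * c → b * c - a * d ≤ k' * (a + d) ^ 2 → η * c ≤ a + d →
      5 * a ≤ a + d → a + d ≤ 4 * (a + j * c) → 3 * (a + j * c) ≤ a + d →
      n₀ < j ∧ ∃ m X Y : ℤ → ℤ, Levels a b c d n₀ j m X Y ∧ 1 ≤ m n₀ ∧ m n₀ ≤ C ∧
        GE K (U3 n₀ (m n₀) * W3 a b c d n₀ (m n₀) (X n₀) (Y n₀)) ∧
        a + d ≤ 20 * (U3 n₀ (m n₀) * W3 a b c d n₀ (m n₀) (X n₀) (Y n₀)) 0 1 ∧
        a + d ≤ 20 * (U3 n₀ (m n₀) * W3 a b c d n₀ (m n₀) (X n₀) (Y n₀)) 2 1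

/-- The numerical conditions on a matrix of a chain. -/
structure Ok (k' K₀ : ℤ) (T : ℝ) (a b c d : ℤ) : Prop where
  ht : 0 < a + d
  hT : T ≤ ((a + d : ℤ) : ℝ)
  hb : 0 < b
  hc : 0 < c
  hK : K₀ ≤ b
  hK' : K₀ ≤ c
  det : a * d < b * c
  dk : b * c - a * d ≤ k' * (a + d) ^ 2

section

variable {k' κ η K₀ k2 n₀ C : ℤ} {t : Finset M2R} {D : M2R → M2Z} {r : M2R → ℝ} {K : ℤ} {T : ℝ}

lemma Ok.hat {a b c d : ℤ} (h : Ok k' K₀ T a b c d) : Ok k' K₀ T d b c a where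
  ht := by linarith [h.ht]
  hT := by rw [add_comm d a]; exact h.hT
  hb := h.hb
  hc := h.hc
  hK := h.hK
  hK' := h.hK'
  det := by rw [mul_comm d a]; exact h.det
  dk := by rw [mul_comm d a, add_comm d a]; exact h.dk

lemma Ok.swp {a b c d : ℤ} (h : Ok k' K₀ T a b c d) : Ok k' K₀ T d c b a where
  ht := by linarith [h.ht]
  hT := by rw [add_comm d a]; exact h.hT
  hb := h.hc
  hc := h.hb
  hK := h.hK'
  hK' := h.hK
  det := by rw [mul_comm d a, mul_comm c b]; exact h.det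
  dk := by rw [mul_comm d a, add_comm d a, mul_comm c b]; exact h.dk

lemma Cst.kk (h : Cst k' κ η K₀ k2 n₀ C t D r K T) : 1 + 4 * k' ≤ κ ∧ 1 ≤ κ ∧ κ ≤ k2 := by
  have h1 := h.hk
  have h2 := h.hη
  have h3 := h.hκ
  have h4 := h.hk2
  have h5 : 1 * (1 + 4 * k') ≤ η * (1 + 4 * k') :=
    mul_le_mul_of_nonneg_right (by linarith) (by linarith)
  have h6 : 1 + 4 * k' ≤ κ := by rw [h3]; linarith
  have h7 : 1 ≤ k' * k' := by nlinarith
  have h8 : 1 * κ ≤ 100 * (k' * k') * κ := mul_le_mul_of_nonneg_right (by linarith) (by linarith)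
  exact ⟨h6, by linarith, by linarith⟩

lemma Cst.mem (h : Cst k' κ η K₀ k2 n₀ C t D r K T) {a b c d : ℤ} (ho : Ok k' K₀ T a b c d)
    (hbκ : b ≤ κ * (a + d)) (hcκ : c ≤ κ * (a + d)) :
    ((a + d : ℤ) : ℝ)⁻¹ • cR !![a, b; c, d] ∈ Cset (k2 : ℝ) :=
  thick_mem k' κ k2 a b c d h.hk h.kk.1 h.kk.2.2 ho.ht ho.hb ho.hc ho.det ho.dk hbκ hcκ

/-- A matrix in a cusp has a small lower left entry. -/
lemma Cst.cusp (h : Cst k' κ η K₀ k2 n₀ C t D r K T) {a b c d : ℤ} (ho : Ok k' K₀ T a b c d)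
    (hbκ : κ * (a + d) < b) : η * c ≤ a + d := by
  have h1 := (bounds k' a b c d h.hk ho.ht ho.hb ho.hc ho.dk).1
  have h2 := h.hκ
  have hk := h.hk
  have hη := h.hη
  have ht := ho.ht
  have hc := ho.hc
  by_contra hcon
  push Not at hcon
  have h3 : (κ * (a + d)) * c < b * c := mul_lt_mul_of_pos_right hbκ hc
  have h4 : (1 + 4 * k') * (a + d) * (a + d) < (1 + 4 * k') * (a + d) * (η * c) :=
    mul_lt_mul_of_pos_left hcon (mul_pos (by linarith) ht)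
  have h5 : (1 + 4 * k') * (a + d) * (η * c) = (κ * (a + d)) * c := by rw [h2]; ring
  have h6 : (1 + 4 * k') * (a + d) * (a + d) = (1 + 4 * k') * (a + d) ^ 2 := by ring
  have h7 : 0 < b * c := mul_pos ho.hb hc
  linarith

lemma Cst.low (h : Cst k' κ η K₀ k2 n₀ C t D r K T) {a b c d : ℤ} (ho : Ok k' K₀ T a b c d)
    (l : ℤ) (hl : 1 ≤ l) (hlk : l ≤ 10 * k') (ha : a + d ≤ l * a) (hd : a + d ≤ l * d)
    (hbκ : b ≤ κ * (a + d)) (hcκ : c ≤ κ * (a + d)) :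
    ∀ i j, 1 / (k2 : ℝ) ≤ (((a + d : ℤ) : ℝ)⁻¹ • cR !![a, b; c, d]) i j := by
  have hll : l * l ≤ (10 * k') * (10 * k') := mul_le_mul hlk hlk (by linarith) (by linarith)
  have h1 : l * l * κ ≤ k2 := by
    refine le_trans ?_ h.hk2
    refine mul_le_mul_of_nonneg_right ?_ (by linarith [h.kk.2.1])
    linarith
  obtain ⟨g1, g2, g3, g4⟩ := low_off l κ k2 a b c d hl h.kk.2.1 h1 ho.ht ho.hb ho.hc ho.det ha hd
    hbκ hcκ
  exact mk_low k2 (by linarith [h.kk.2.1, h.kk.2.2]) a b c d ho.ht g1 g2 g3 g4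

/-- From the blocks to the lifts. -/
lemma LX (h : Cst k' κ η K₀ k2 n₀ C t D r K T) (hCRS : CRS) (hW3U : W3U) (hTRA : TRA)
    (hSWP : SWP) {a b c d : ℤ} (ho : Ok k' K₀ T a b c d) (hbκ : b ≤ κ * (a + d))
    (hηc : η * c ≤ a + d) (c₀ : M2R) (hc₀ : Bx t r ((a + d : ℤ) : ℝ) !![a, b; c, d] c₀) (n : ℤ)
    (hn1 : 0 ≤ a + n * c) (hn2 : 0 ≤ d - n * c) : LQ D K c₀ !![a, b; c, d] (Bk a b c d n) := by
  have hcκ : c ≤ κ * (a + d) := by
    have h1 := h.kk.2.1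
    have h2 := ho.ht
    have h3 := h.hη
    have h4 := ho.hc
    nlinarith
  have hM := h.mem ho hbκ hcκ
  by_cases h5 : 5 * a ≤ a + d
  · exact LX1 h.nd hCRS hW3U h.hn₀ k' κ η K₀ h.hη h.hE a b c d ho.hT ho.hK' ho.hb ho.hc hbκ ho.det
      ho.dk hηc h5 hM c₀ hc₀ n hn1 hn2
  · by_cases h6 : 5 * d ≤ a + d
    · have ho' := ho.hat
      have e0 : d + a = a + d := add_comm d a
      have hbκ' : b ≤ κ * (d + a) := by rw [e0]; exact hbκ
      have hcκ' : c ≤ κ * (d + a) := by rw [e0]; exact hcκ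
      have hM' := h.mem ho' hbκ' hcκ'
      obtain ⟨c₁, hc₁, hc₁'⟩ := h.nd.cov _ hM'
      have q1 := LX1 h.nd hCRS hW3U h.hn₀ k' κ η K₀ h.hη h.hE d b c a ho'.hT ho'.hK' ho'.hb
        ho'.hc hbκ' ho'.det ho'.dk (by rw [e0]; exact hηc) (by rw [e0]; exact h6) hM' c₁
        ⟨hc₁, hc₁'⟩ (-n) (by linarith) (by linarith)
      obtain ⟨W, W', w1, w2, w3, w4, w5⟩ := h.nd.tt _ ho.hT c₀ hc₀.1 c₁ hc₁ !![a, b; c, d] hM
        hc₀.2 (by rw [hat_mk, ← e0]; exact hc₁')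
      have e5 : (!![d, b; c, a] : M2Z) = W' * UU (D c₁) := by rw [w2, hat_mk]
      obtain ⟨V, v1, v2, v3⟩ := q1
      have q2 : QQ (Bk d b c a (-n)) (UU (D c₁) * W') :=
        v3.trans (h.nd.con c₁ hc₁ V W' (by rw [v1, e5]) v2 w4)
      have q3 := hTRA _ _ _ _ q2
      have e1 : (Bk d b c a (-n))ᵀ = !![d - n * c, c; b - n * a + n * (d - n * c), a + n * c] := by
        rw [Bk_hat]
        ext i j
        fin_cases i <;> fin_cases j <;> simp <;> ring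
      have hnn : NN (Bk a b c d n) := blk_nn a b c d n ho.hc ho.det hn1 hn2
      have g1 : 0 ≤ b - n * a + n * (d - n * c) := by
        have := hnn 0 1
        simpa [Bk] using this
      have q4 := hSWP (a + n * c) (b - n * a + n * (d - n * c)) c (d - n * c) hn1 g1 ho.hc.le hn2
      rw [e1] at q3
      exact ⟨W, w1, w3, q4.trans (q3.trans w5.symm)⟩
    · have h7 := h.low ho 5 (by norm_num) (by linarith [h.hk]) (by linarith) (by linarith) hbκ hcκ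
      have hnn : NN (!![a, b; c, d] : M2Z) := by
        have := blk_nn a b c d 0 ho.hc ho.det (by linarith [ho.ht]) (by linarith [ho.ht])
        rw [Bk_zero] at this
        exact this
      obtain ⟨W, w1, w2, w3⟩ := h.nd.en _ ho.hT c₀ hc₀.1 _ hM hnn (h7 0 1) (h7 1 0) hc₀.2
      have q0 : QQ (Bk a b c d n) (Bk a b c d 0) :=
        blk2 a b c d n 0 ho.hc ho.det hn1 hn2 (by linarith [ho.ht]) (by linarith [ho.ht])
      rw [Bk_zero] at q0
      exact ⟨W, w1, w2, q0.trans w3⟩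

end

end Pool.Agent.H81SSE.V
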