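import Pool.Agent.H81SSE.W.V3
import Pool.Agent.H81SSE.W.ADM
import Pool.Agent.H81SSE.W.BOT
import Pool.Agent.H81SSE.W.CHN
import Pool.Agent.H81SSE.W.CON3
import Pool.Agent.H81SSE.W.CRS
import Pool.Agent.H81SSE.W.DAT
import Pool.Agent.H81SSE.W.EST
import Pool.Agent.H81SSE.W.EVH
import Pool.Agent.H81SSE.W.EX3
import Pool.Agent.H81SSE.W.FAC
import Pool.Agent.H81SSE.W.G12
import Pool.Agent.H81SSE.W.G3
import Pool.Agent.H81SSE.W.G4
import Pool.Agent.H81SSE.W.HTA
import Pool.Agent.H81SSE.W.IDS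
import Pool.Agent.H81SSE.W.LEV
import Pool.Agent.H81SSE.W.LNK3
import Pool.Agent.H81SSE.W.MOV
import Pool.Agent.H81SSE.W.SWP
import Pool.Agent.H81SSE.W.TOP
import Pool.Agent.H81SSE.W.TR3
import Pool.Agent.H81SSE.W.TRA
import Pool.Agent.H81SSE.W.TRN
import Pool.Agent.H81SSE.W.TRS
import Pool.Agent.H81SSE.W.TT
import Pool.Agent.H81SSE.W.TTD
import Pool.Agent.H81SSE.W.W3U
import Pool.Agent.H81SSE.W.ZCH
import Pool.Agent.H81SSE.W.END0
import Pool.Agent.H81SSE.W.ENDP
import Pool.Agent.H81SSE.W.NET2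

/-!
# Project W: the final theorem over the integers, without conditions on the diagonal
-/

set_option autoImplicit false

namespace Pool.Agent.H81SSE.V

theorem WTH2_holds : WTH2 :=
  have hLEV : LEV := LEV_holds G12_holds ZCH_holds IDS_holds
  have hTRS : TRS := TRS_holds G12_holds G4_holds IDS_holds
  have hBOT : BOT := BOT_holds G12_holds IDS_holds
  have hEST : EST := EST_holds G3_holds G4_holds DAT_holds IDS_holds hLEV hTRS hBOT
  have hCRS : CRS := CRS_holds (MOV_holds ADM_holds) TRN_holds TOP_holds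
  have hTTD : TTD := TTD_holds FAC_holds TRA_holds HTA_holds
  have hNET : NET2 := NET2_holds (LNK3_holds (TR3_holds EX3_holds))
    (TT_holds hTTD TRA_holds HTA_holds EVH_holds) CON3_holds (ENDP_holds END0_holds)
  glob2 hEST hCRS W3U_holds hNET TRA_holds SWP_holds CHN_holds

end Pool.Agent.H81SSE.V
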